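import Mathlib

set_option autoImplicit false

/-!
# Systems of `2 × 2` matrix units and the swap unitary
-/

namespace Pool.Agent.MPa0a75b

universe u

/-- A (unital) system of `2 × 2` matrix units in a `*`-ring. -/
structure IsMatUnits {M : Type u} [Ring M] [StarRing M] (e : Fin 2 → Fin 2 → M) : Prop where
  mul_same : ∀ a b c, e a b * e b c = e a c
  mul_ne : ∀ a b c d, b ≠ c → e a b * e c d = 0
  star_eq : ∀ a b, star (e a b) = e b a
  sum_one : e 0 0 + e 1 1 = 1

section

variable {M : Type u} [Ring M]

/-- The swap of two systems of matrix units. -/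
def swap (e f : Fin 2 → Fin 2 → M) : M := ∑ a, ∑ b, e a b * f b a

variable [StarRing M] {e f : Fin 2 → Fin 2 → M}

lemma IsMatUnits.mul_eq (he : IsMatUnits e) (a b c d : Fin 2) :
    e a b * e c d = if b = c then e a d else 0 := by
  split_ifs with h
  · rw [h, he.mul_same]
  · exact he.mul_ne a b c d h

omit [StarRing M] in
lemma mul_mul_aux (hc : ∀ a b c d, Commute (e a b) (f c d)) (a b c d a' b' c' d' : Fin 2) :
    (e a b * f c d) * (e a' b' * f c' d') = (e a b * e a' b') * (f c d * f c' d') := by
  have h := (hc a' b' c d).eq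
  calc (e a b * f c d) * (e a' b' * f c' d') = e a b * (f c d * e a' b') * f c' d' := by
        simp only [mul_assoc]
    _ = e a b * (e a' b' * f c d) * f c' d' := by rw [h]
    _ = (e a b * e a' b') * (f c d * f c' d') := by simp only [mul_assoc]

lemma swap_mul_right (he : IsMatUnits e) (hf : IsMatUnits f) (a b : Fin 2) :
    swap e f * f a b = e a b * swap e f := by
  have h1 : swap e f * f a b = ∑ c, e a c * f c b := by
    unfold swap
    rw [Finset.sum_comm, Finset.sum_mul]
    simp only [Finset.sum_mul, mul_assoc, hf.mul_eq]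
    simp
  have h2 : e a b * swap e f = ∑ c, e a c * f c b := by
    unfold swap
    simp only [Finset.mul_sum, ← mul_assoc, he.mul_eq]
    simp
  rw [h1, h2]

lemma swap_mul_swap (he : IsMatUnits e) (hf : IsMatUnits f)
    (hc : ∀ a b c d, Commute (e a b) (f c d)) : swap e f * swap e f = 1 := by
  have h1 : swap e f * swap e f = (e 0 0 + e 1 1) * (f 0 0 + f 1 1) := by
    unfold swap
    simp only [Fin.sum_univ_two, add_mul, mul_add, mul_mul_aux hc, he.mul_eq, hf.mul_eq]
    simp
  rw [h1, he.sum_one, hf.sum_one, one_mul]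

lemma star_swap (he : IsMatUnits e) (hf : IsMatUnits f)
    (hc : ∀ a b c d, Commute (e a b) (f c d)) : star (swap e f) = swap e f := by
  unfold swap
  simp only [star_sum, star_mul, he.star_eq, hf.star_eq]
  rw [Finset.sum_comm]
  apply Finset.sum_congr rfl
  intro a _
  apply Finset.sum_congr rfl
  intro b _
  exact ((hc a b b a).eq).symm

end

end Pool.Agent.MPa0a75b
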