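import Mathlib

set_option autoImplicit false

/-!
# Definitions for MP_a0a75b_an

Group von Neumann algebras, tracial von Neumann algebras, the hyperfinite II₁ factor and tracial
ultrapowers.
-/

namespace Pool.Agent.MPa0a75b

open Filter Topology

universe u v

/-- The Hilbert space `ℓ²(G)`. -/
abbrev ell2 (G : Type u) : Type u := lp (fun _ : G => ℂ) 2

/-- The unitary operator `(U ξ)(x) = ξ (σ x)` of `ℓ²(G)` given by a permutation `σ` of `G`. -/
noncomputable def permute {G : Type u} (σ : G ≃ G) : ell2 G →L[ℂ] ell2 G :=
  LinearMap.mkContinuous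
    { toFun := fun ξ => ⟨fun x => ξ (σ x), by
        have h := (lp.memℓp ξ).summable (by norm_num)
        exact memℓp_gen (h.comp_injective σ.injective)⟩
      map_add' := fun _ _ => rfl
      map_smul' := fun _ _ => rfl } 1
    (by
      intro ξ
      rw [one_mul]
      apply lp.norm_le_of_tsum_le (by norm_num) (norm_nonneg _)
      rw [lp.norm_rpow_eq_tsum (by norm_num)]
      exact (σ.tsum_eq (fun x => ‖ξ x‖ ^ (2 : ENNReal).toReal)).le)

@[simp]
theorem permute_apply {G : Type u} (σ : G ≃ G) (ξ : ell2 G) (x : G) :
    permute σ ξ x = ξ (σ x) := rfl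

section group

variable (G : Type u) [Group G]

variable {G} in
/-- The left regular representation: `(λ_g ξ)(x) = ξ (g⁻¹ x)`. -/
noncomputable def lam (g : G) : ell2 G →L[ℂ] ell2 G := permute (Equiv.mulLeft g⁻¹)

/-- The group von Neumann algebra `L(G)`: the double commutant of `{λ_g : g ∈ G}` on `ℓ²(G)`. -/
noncomputable def groupVN : VonNeumannAlgebra (ell2 G) where
  toStarSubalgebra :=
    StarSubalgebra.centralizer ℂ
      (StarSubalgebra.centralizer ℂ (Set.range (lam (G := G))) : Set (ell2 G →L[ℂ] ell2 G))
  centralizer_centralizer' := by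
    simp [StarSubalgebra.coe_centralizer]

end group

end Pool.Agent.MPa0a75b
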