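import Mathlib
import Pool.Agent.MPa0a75b.Defs

set_option autoImplicit false

/-!
# Elementary facts on operators of `ℓ²(G)` commuting with right translations
-/

namespace Pool.Agent.MPa0a75b

open Filter Topology
open scoped ComplexInnerProductSpace ComplexConjugate

universe u v

variable {G : Type u}

/-- The point masses. -/
noncomputable def dl (x : G) : ell2 G := by
  classical
  exact lp.single 2 x 1

lemma dl_self (x : G) : dl x x = 1 := by
  classical
  exact lp.single_apply_self 2 x 1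

lemma dl_ne {x y : G} (h : y ≠ x) : dl x y = 0 := by
  classical
  exact lp.single_apply_ne 2 x 1 h

lemma inner_dl_left (x : G) (ξ : ell2 G) : ⟪dl x, ξ⟫ = ξ x := by
  classical
  rw [dl, lp.inner_single_left]
  simp

lemma inner_dl_right (x : G) (ξ : ell2 G) : ⟪ξ, dl x⟫ = conj (ξ x) := by
  rw [← inner_conj_symm, inner_dl_left]

lemma norm_dl (x : G) : ‖dl x‖ = 1 := by
  classical
  rw [dl, lp.norm_single (by norm_num)]
  simp

lemma ext_fun {ξ η : ell2 G} (h : ∀ x, ξ x = η x) : ξ = η := lp.ext (funext h)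

lemma permute_dl (σ : G ≃ G) (x : G) : permute σ (dl x) = dl (σ.symm x) := by
  apply ext_fun
  intro y
  rw [permute_apply]
  by_cases h : y = σ.symm x
  · rw [h, dl_self, Equiv.apply_symm_apply, dl_self]
  · rw [dl_ne h, dl_ne]
    intro h'
    exact h (by rw [← h', Equiv.symm_apply_apply])

lemma inner_permute (σ : G ≃ G) (ξ η : ell2 G) : ⟪permute σ ξ, η⟫ = ⟪ξ, permute σ.symm η⟫ := by
  rw [lp.inner_eq_tsum, lp.inner_eq_tsum, ← σ.tsum_eq (fun x => ⟪ξ x, permute σ.symm η x⟫)]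
  simp only [permute_apply, Equiv.symm_apply_apply]

lemma inner_permute' (σ : G ≃ G) (ξ η : ell2 G) : ⟪ξ, permute σ η⟫ = ⟪permute σ.symm ξ, η⟫ := by
  rw [inner_permute, Equiv.symm_symm]

lemma star_permute (σ : G ≃ G) : star (permute σ) = permute σ.symm := by
  rw [ContinuousLinearMap.star_eq_adjoint]
  symm
  rw [ContinuousLinearMap.eq_adjoint_iff]
  intro ξ η
  exact inner_permute σ.symm ξ η

lemma norm_permute_apply (σ : G ≃ G) (ξ : ell2 G) : ‖permute σ ξ‖ = ‖ξ‖ := by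
  have h : ⟪permute σ ξ, permute σ ξ⟫ = ⟪ξ, ξ⟫ := by
    rw [inner_permute]
    congr 1
    apply ext_fun
    intro x
    simp only [permute_apply, Equiv.apply_symm_apply]
  rw [@norm_eq_sqrt_re_inner ℂ, @norm_eq_sqrt_re_inner ℂ, h]

/-- Expansion in point masses. -/
lemma hasSum_dl (ξ : ell2 G) : HasSum (fun x => ξ x • dl x) ξ := by
  classical
  have h := lp.hasSum_single (E := fun _ : G => ℂ) (p := 2) (by norm_num) ξ
  have h2 : (fun x => ξ x • dl x) = fun x => lp.single 2 x (ξ x) := by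
    funext x
    rw [dl, ← lp.single_smul, smul_eq_mul, mul_one]
  rw [h2]
  exact h

/-- Evaluation of an operator. -/
lemma hasSum_apply_aux (T : ell2 G →L[ℂ] ell2 G) (ξ : ell2 G) (y : G) :
    HasSum (fun x => ξ x * T (dl x) y) (T ξ y) := by
  have h := (hasSum_dl ξ).mapL T
  have h2 := h.mapL (lp.evalCLM ℂ (fun _ : G => ℂ) 2 y)
  have h3 : (fun x => ξ x * T (dl x) y) =
      fun b => (lp.evalCLM ℂ (fun _ : G => ℂ) 2 y) (T (ξ b • dl b)) := by
    funext x
    rw [map_smul]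
    rfl
  rw [h3]
  exact h2

/-- Operators that agree on point masses are equal. -/
lemma ext_dl {T S : ell2 G →L[ℂ] ell2 G} (h : ∀ x, T (dl x) = S (dl x)) : T = S := by
  ext ξ : 1
  apply ext_fun
  intro y
  refine (hasSum_apply_aux T ξ y).unique ?_
  simp only [h]
  exact hasSum_apply_aux S ξ y

variable [Group G]

/-- The right regular representation: `(ρ_g ξ)(x) = ξ (x g)`. -/
noncomputable def rho (g : G) : ell2 G →L[ℂ] ell2 G := permute (Equiv.mulRight g)

lemma rho_apply (g : G) (ξ : ell2 G) (x : G) : rho g ξ x = ξ (x * g) := rfl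

lemma lam_apply (g : G) (ξ : ell2 G) (x : G) : lam g ξ x = ξ (g⁻¹ * x) := rfl

lemma lam_dl (g x : G) : lam g (dl x) = dl (g * x) := by
  rw [lam, permute_dl]
  simp

lemma rho_dl (g x : G) : rho g (dl x) = dl (x * g⁻¹) := by
  rw [rho, permute_dl]
  simp

lemma rho_one (ξ : ell2 G) : rho 1 ξ = ξ := by
  apply ext_fun
  intro x
  rw [rho_apply, mul_one]

lemma rho_mul (g h : G) (ξ : ell2 G) : rho (g * h) ξ = rho g (rho h ξ) := by
  apply ext_fun
  intro x
  rw [rho_apply, rho_apply, rho_apply, mul_assoc]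

lemma inner_rho_left (g : G) (ξ η : ell2 G) : ⟪rho g ξ, η⟫ = ⟪ξ, rho g⁻¹ η⟫ := by
  rw [rho, inner_permute]
  rfl

lemma inner_rho_rho (g : G) (ξ η : ell2 G) : ⟪rho g ξ, rho g η⟫ = ⟪ξ, η⟫ := by
  rw [inner_rho_left, ← rho_mul, inv_mul_cancel, rho_one]

lemma norm_rho (g : G) (ξ : ell2 G) : ‖rho g ξ‖ = ‖ξ‖ := norm_permute_apply _ _

lemma star_lam (g : G) : star (lam g) = lam g⁻¹ := by
  rw [lam, star_permute]
  rfl

lemma lam_mul (g h : G) : lam g * lam h = lam (g * h) := by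
  ext ξ : 1
  apply ext_fun
  intro x
  show ξ (h⁻¹ * (g⁻¹ * x)) = ξ ((g * h)⁻¹ * x)
  rw [mul_inv_rev, mul_assoc]

lemma lam_one : lam (1 : G) = 1 := by
  ext ξ : 1
  apply ext_fun
  intro x
  show ξ ((1 : G)⁻¹ * x) = ξ x
  rw [inv_one, one_mul]

lemma lam_rho_comm (g h : G) : lam g * rho h = rho h * lam g := by
  ext ξ : 1
  apply ext_fun
  intro x
  show ξ (g⁻¹ * x * h) = ξ (g⁻¹ * (x * h))
  rw [mul_assoc]

/-- Commutation with right translations. -/
def RInv (T : ell2 G →L[ℂ] ell2 G) : Prop := ∀ (h : G) (ξ : ell2 G), T (rho h ξ) = rho h (T ξ)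

lemma rInv_of_mem {T : ell2 G →L[ℂ] ell2 G} (hT : T ∈ (groupVN G).toStarSubalgebra) : RInv T := by
  intro h ξ
  have h1 : rho h ∈ StarSubalgebra.centralizer ℂ (Set.range (lam (G := G))) := by
    rw [StarSubalgebra.mem_centralizer_iff]
    rintro _ ⟨g, rfl⟩
    rw [star_lam]
    exact ⟨lam_rho_comm g h, lam_rho_comm g⁻¹ h⟩
  have h2 := (StarSubalgebra.mem_centralizer_iff ℂ).mp hT (rho h) h1
  have h3 := congrArg (fun S : ell2 G →L[ℂ] ell2 G => S ξ) h2.1
  exact h3.symm

lemma lam_mem (g : G) : lam g ∈ (groupVN G).toStarSubalgebra := by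
  show lam g ∈ StarSubalgebra.centralizer ℂ
      (StarSubalgebra.centralizer ℂ (Set.range (lam (G := G))) : Set (ell2 G →L[ℂ] ell2 G))
  rw [StarSubalgebra.mem_centralizer_iff]
  intro S hS
  have h1 := (StarSubalgebra.mem_centralizer_iff ℂ).mp hS (lam g) ⟨g, rfl⟩
  refine ⟨h1.1.symm, ?_⟩
  have h2 := congrArg star h1.2
  rw [star_mul, star_mul, star_star] at h2
  exact h2

/-- Anything commuting with all `λ_g` commutes with the group von Neumann algebra. -/
lemma comm_of_mem {T S : ell2 G →L[ℂ] ell2 G} (hT : T ∈ (groupVN G).toStarSubalgebra)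
    (hS : ∀ g : G, lam g * S = S * lam g) : T * S = S * T := by
  have h1 : S ∈ StarSubalgebra.centralizer ℂ (Set.range (lam (G := G))) := by
    rw [StarSubalgebra.mem_centralizer_iff]
    rintro _ ⟨g, rfl⟩
    rw [star_lam]
    exact ⟨hS g, hS g⁻¹⟩
  exact ((StarSubalgebra.mem_centralizer_iff ℂ).mp hT S h1).1.symm

/-- Fourier coefficients. -/
noncomputable def hat (T : ell2 G →L[ℂ] ell2 G) (g : G) : ℂ := T (dl 1) g

lemma apply_dl {T : ell2 G →L[ℂ] ell2 G} (hT : RInv T) (x y : G) :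
    T (dl x) y = hat T (y * x⁻¹) := by
  have h : dl x = rho x⁻¹ (dl (1 : G)) := by
    rw [rho_dl, one_mul, inv_inv]
  rw [h, hT, rho_apply, hat]

lemma ext_hat {T S : ell2 G →L[ℂ] ell2 G} (hT : RInv T) (hS : RInv S)
    (h : ∀ g, hat T g = hat S g) : T = S := by
  apply ext_dl
  intro x
  apply ext_fun
  intro y
  rw [apply_dl hT, apply_dl hS, h]

/-- The convolution formula. -/
lemma hasSum_apply {T : ell2 G →L[ℂ] ell2 G} (hT : RInv T) (ξ : ell2 G) (y : G) :
    HasSum (fun x => hat T (y * x⁻¹) * ξ x) (T ξ y) := by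
  have h := hasSum_apply_aux T ξ y
  have h2 : (fun x => hat T (y * x⁻¹) * ξ x) = fun x => ξ x * T (dl x) y := by
    funext x
    rw [apply_dl hT, mul_comm]
  rw [h2]
  exact h

lemma RInv.one : RInv (1 : ell2 G →L[ℂ] ell2 G) := fun _ _ => rfl

lemma RInv.mul {T S : ell2 G →L[ℂ] ell2 G} (hT : RInv T) (hS : RInv S) : RInv (T * S) := by
  intro h ξ
  show T (S (rho h ξ)) = rho h (T (S ξ))
  rw [hS, hT]

lemma RInv.add {T S : ell2 G →L[ℂ] ell2 G} (hT : RInv T) (hS : RInv S) : RInv (T + S) := by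
  intro h ξ
  show T (rho h ξ) + S (rho h ξ) = rho h (T ξ + S ξ)
  rw [hS, hT, map_add]

omit [Group G] in
lemma inner_star (T : ell2 G →L[ℂ] ell2 G) (ξ η : ell2 G) : ⟪(star T) ξ, η⟫ = ⟪ξ, T η⟫ := by
  rw [ContinuousLinearMap.star_eq_adjoint, ContinuousLinearMap.adjoint_inner_left]

omit [Group G] in
lemma inner_star' (T : ell2 G →L[ℂ] ell2 G) (ξ η : ell2 G) : ⟪ξ, (star T) η⟫ = ⟪T ξ, η⟫ := by
  rw [ContinuousLinearMap.star_eq_adjoint, ContinuousLinearMap.adjoint_inner_right]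

lemma RInv.star {T : ell2 G →L[ℂ] ell2 G} (hT : RInv T) : RInv (star T) := by
  intro h ξ
  apply ext_inner_right ℂ
  intro η
  rw [inner_star, inner_rho_left, inner_rho_left, inner_star, hT]

lemma hat_star {T : ell2 G →L[ℂ] ell2 G} (hT : RInv T) (g : G) :
    hat (star T) g = conj (hat T g⁻¹) := by
  rw [hat, ← inner_dl_left, inner_star', inner_dl_right, apply_dl hT, one_mul]

lemma hat_lam (g x : G) : hat (lam g) x = dl g x := by
  rw [hat, lam_dl, mul_one]

end Pool.Agent.MPa0a75b
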