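import Mathlib
import Pool.Agent.MPa0a75b.Group

set_option autoImplicit false

/-!
# Operators supported on a subgroup
-/

namespace Pool.Agent.MPa0a75b

open Filter Topology
open scoped ComplexInnerProductSpace ComplexConjugate

universe u v

variable {G : Type u}

/-! ### Cutting down vectors -/

open scoped Classical in
/-- The restriction of a vector to a set. -/
noncomputable def cut (S : Set G) (ξ : ell2 G) : ell2 G :=
  ⟨fun x => if x ∈ S then ξ x else 0, by
    have h := (lp.memℓp ξ).summable (by norm_num)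
    apply memℓp_gen
    refine h.of_nonneg_of_le (fun x => by positivity) (fun x => ?_)
    split_ifs
    · exact le_rfl
    · rw [norm_zero, Real.zero_rpow (by norm_num)]
      positivity⟩

lemma cut_of_mem {S : Set G} {x : G} (hx : x ∈ S) (ξ : ell2 G) : cut S ξ x = ξ x := by
  classical
  exact if_pos hx

lemma cut_of_notMem {S : Set G} {x : G} (hx : x ∉ S) (ξ : ell2 G) : cut S ξ x = 0 := by
  classical
  exact if_neg hx

lemma inner_cut_left (S : Set G) (ξ η : ell2 G) : ⟪cut S ξ, η⟫ = ⟪cut S ξ, cut S η⟫ := by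
  rw [lp.inner_eq_tsum, lp.inner_eq_tsum]
  congr 1
  funext x
  by_cases hx : x ∈ S
  · rw [cut_of_mem hx, cut_of_mem hx]
  · rw [cut_of_notMem hx, inner_zero_left, inner_zero_left]

lemma inner_cut_disjoint {S T : Set G} (h : Disjoint S T) (ξ η : ell2 G) :
    ⟪cut S ξ, cut T η⟫ = 0 := by
  rw [lp.inner_eq_tsum]
  have h0 : ∀ x : G, ⟪cut S ξ x, cut T η x⟫ = 0 := by
    intro x
    by_cases hx : x ∈ S
    · rw [cut_of_notMem (Set.disjoint_left.mp h hx), inner_zero_right]
    · rw [cut_of_notMem hx, inner_zero_left]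
  simp only [h0, tsum_zero]

/-- A vector cannot have much mass on infinitely many disjoint sets. -/
lemma finite_of_mass {ι : Type*} (S : ι → Set G) (hS : Pairwise fun i j => Disjoint (S i) (S j))
    (η : ell2 G) {ε : ℝ} (hε : 0 < ε) (h : ∀ i, ε ≤ ‖cut (S i) η‖) : Finite ι := by
  have hpos : ∀ i, 0 < ‖cut (S i) η‖ := fun i => hε.trans_le (h i)
  have hon : Orthonormal ℂ (fun i => ((‖cut (S i) η‖⁻¹ : ℝ) : ℂ) • cut (S i) η) := by
    refine ⟨fun i => ?_, fun i j hij => ?_⟩
    · rw [norm_smul, Complex.norm_real, norm_inv, norm_norm, inv_mul_cancel₀ (hpos i).ne']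
    · show ⟪((‖cut (S i) η‖⁻¹ : ℝ) : ℂ) • cut (S i) η, ((‖cut (S j) η‖⁻¹ : ℝ) : ℂ) • cut (S j) η⟫ = 0
      rw [inner_smul_left, inner_smul_right, inner_cut_disjoint (hS hij), mul_zero, mul_zero]
  have hin : ∀ i, ‖⟪((‖cut (S i) η‖⁻¹ : ℝ) : ℂ) • cut (S i) η, η⟫‖ = ‖cut (S i) η‖ := by
    intro i
    rw [inner_smul_left, inner_cut_left, inner_self_eq_norm_sq_to_K, norm_mul]
    simp only [Complex.conj_ofReal, Complex.norm_real, norm_inv, norm_norm, norm_pow,
      Complex.coe_algebraMap]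
    field_simp [(hpos i).ne']
  have hsum := hon.inner_products_summable η
  have ht := hsum.tendsto_cofinite_zero
  have hev := ht.eventually_lt_const (show (0 : ℝ) < ε ^ 2 by positivity)
  rw [Filter.eventually_cofinite] at hev
  have huniv : {x | ¬‖⟪((‖cut (S x) η‖⁻¹ : ℝ) : ℂ) • cut (S x) η, η⟫‖ ^ 2 < ε ^ 2} = Set.univ := by
    apply Set.eq_univ_of_forall
    intro i
    rw [Set.mem_ofPred_eq, hin, not_lt]
    exact pow_le_pow_left₀ hε.le (h i) 2
  rw [huniv] at hev
  exact Set.finite_univ_iff.mp hev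

/-- Square summable functions vanish at infinity. -/
lemma tendsto_cofinite_apply (η : ell2 G) : Tendsto (fun x => η x) cofinite (𝓝 0) := by
  have h := (lp.memℓp η).summable (by norm_num)
  have h2 := h.tendsto_cofinite_zero
  rw [tendsto_zero_iff_norm_tendsto_zero]
  have h3 : Tendsto (fun x => (‖η x‖ ^ (2 : ENNReal).toReal) ^ ((2 : ℝ)⁻¹)) cofinite
      (𝓝 ((0 : ℝ) ^ ((2 : ℝ)⁻¹))) := h2.rpow_const (Or.inr (by norm_num))
  rw [Real.zero_rpow (by norm_num)] at h3
  have h4 : (fun x => (‖η x‖ ^ (2 : ENNReal).toReal) ^ ((2 : ℝ)⁻¹)) = fun x => ‖η x‖ := by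
    funext x
    rw [← Real.rpow_mul (norm_nonneg _)]
    norm_num
  rwa [h4] at h3

/-- Vectors in `ℓ²` have countable support. -/
lemma countable_support (η : ell2 G) : {x | η x ≠ 0}.Countable := by
  have h := (lp.memℓp η).summable (by norm_num)
  have h2 := h.countable_support
  refine h2.mono ?_
  intro x hx
  rw [Function.mem_support]
  have : 0 < ‖η x‖ := norm_pos_iff.mpr hx
  positivity

variable [Group G]

/-- Matrix coefficients of the right regular representation vanish at infinity. -/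
lemma coeff_tendsto (ξ η : ell2 G) : Tendsto (fun h => ⟪rho h ξ, η⟫) cofinite (𝓝 0) := by
  rw [Metric.tendsto_nhds]
  intro ε hε
  have hsum := hasSum_dl ξ
  rw [HasSum, Metric.tendsto_nhds] at hsum
  obtain ⟨F, hF⟩ := (hsum (ε / 2 / (‖η‖ + 1)) (by positivity)).exists
  have h1 : Tendsto (fun h : G => ⟪rho h (∑ x ∈ F, ξ x • dl x), η⟫) cofinite (𝓝 0) := by
    have h2 : (fun h : G => ⟪rho h (∑ x ∈ F, ξ x • dl x), η⟫) =
        fun h : G => ∑ x ∈ F, conj (ξ x) * η (x * h⁻¹) := by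
      funext h
      rw [map_sum, sum_inner]
      apply Finset.sum_congr rfl
      intro x _
      rw [map_smul, inner_smul_left, rho_dl, inner_dl_left]
    rw [h2]
    have h3 : (0 : ℂ) = ∑ x ∈ F, conj (ξ x) * 0 := by simp
    rw [h3]
    apply tendsto_finsetSum
    intro x _
    apply Tendsto.const_mul
    apply (tendsto_cofinite_apply η).comp
    apply Function.Injective.tendsto_cofinite
    intro a b hab
    exact inv_injective (mul_left_cancel hab)
  rw [Metric.tendsto_nhds] at h1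
  filter_upwards [h1 (ε / 2) (by positivity)] with h hh
  rw [dist_zero_right] at hh ⊢
  have h4 : ⟪rho h ξ, η⟫ = ⟪rho h (ξ - ∑ x ∈ F, ξ x • dl x), η⟫ +
      ⟪rho h (∑ x ∈ F, ξ x • dl x), η⟫ := by
    rw [← inner_add_left, ← map_add, sub_add_cancel]
  rw [h4]
  have h5 : ‖⟪rho h (ξ - ∑ x ∈ F, ξ x • dl x), η⟫‖ ≤ ε / 2 := by
    refine (norm_inner_le_norm _ _).trans ?_
    rw [norm_rho, norm_sub_rev, ← dist_eq_norm]
    calc dist (∑ x ∈ F, ξ x • dl x) ξ * ‖η‖ ≤ (ε / 2 / (‖η‖ + 1)) * ‖η‖ :=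
          mul_le_mul_of_nonneg_right hF.le (norm_nonneg _)
      _ ≤ (ε / 2 / (‖η‖ + 1)) * (‖η‖ + 1) :=
          mul_le_mul_of_nonneg_left (by linarith) (by positivity)
      _ = ε / 2 := by field_simp
  calc ‖⟪rho h (ξ - ∑ x ∈ F, ξ x • dl x), η⟫ + ⟪rho h (∑ x ∈ F, ξ x • dl x), η⟫‖
      ≤ ‖⟪rho h (ξ - ∑ x ∈ F, ξ x • dl x), η⟫‖ + ‖⟪rho h (∑ x ∈ F, ξ x • dl x), η⟫‖ :=
        norm_add_le _ _
    _ < ε := by linarith

/-! ### Operators supported on a subgroup -/

/-- The operator `T` has its Fourier coefficients supported on the subgroup `K`. -/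
def SuppIn (K : Subgroup G) (T : ell2 G →L[ℂ] ell2 G) : Prop := ∀ g, g ∉ K → hat T g = 0

lemma SuppIn.mono {K L : Subgroup G} (h : K ≤ L) {T : ell2 G →L[ℂ] ell2 G} (hT : SuppIn K T) :
    SuppIn L T := fun g hg => hT g fun hgK => hg (h hgK)

lemma suppIn_one (K : Subgroup G) : SuppIn K (1 : ell2 G →L[ℂ] ell2 G) := by
  intro g hg
  show dl (1 : G) g = 0
  apply dl_ne
  rintro rfl
  exact hg K.one_mem

lemma suppIn_lam {K : Subgroup G} {k : G} (hk : k ∈ K) : SuppIn K (lam k) := by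
  intro g hg
  rw [hat_lam]
  apply dl_ne
  rintro rfl
  exact hg hk

lemma SuppIn.add {K : Subgroup G} {T S : ell2 G →L[ℂ] ell2 G} (hT : SuppIn K T)
    (hS : SuppIn K S) : SuppIn K (T + S) := by
  intro g hg
  show hat T g + hat S g = 0
  rw [hT g hg, hS g hg, add_zero]

lemma SuppIn.star {K : Subgroup G} {T : ell2 G →L[ℂ] ell2 G} (hR : RInv T) (hT : SuppIn K T) :
    SuppIn K (star T) := by
  intro g hg
  rw [hat_star hR, hT g⁻¹ (fun h => hg (by simpa using K.inv_mem h)), map_zero]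

/-- The action on supported vectors. -/
lemma SuppIn.apply {K : Subgroup G} {T : ell2 G →L[ℂ] ell2 G} (hR : RInv T) (hT : SuppIn K T)
    {ξ : ell2 G} (hξ : ∀ x, x ∉ K → ξ x = 0) {y : G} (hy : y ∉ K) : T ξ y = 0 := by
  refine (hasSum_apply hR ξ y).unique ?_
  have h : (fun x => hat T (y * x⁻¹) * ξ x) = fun _ => 0 := by
    funext x
    by_cases hx : x ∈ K
    · rw [hT, zero_mul]
      intro h
      apply hy
      have := K.mul_mem h hx
      rwa [inv_mul_cancel_right] at this
    · rw [hξ x hx, mul_zero]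
  rw [h]
  exact hasSum_zero

lemma SuppIn.mul {K : Subgroup G} {T S : ell2 G →L[ℂ] ell2 G} (hR : RInv T) (hT : SuppIn K T)
    (hS : SuppIn K S) : SuppIn K (T * S) := fun _ hg => hT.apply hR hS hg

/-- Supported operators commute with the cut. -/
lemma SuppIn.apply_cut {K : Subgroup G} {T : ell2 G →L[ℂ] ell2 G} (hR : RInv T)
    (hT : SuppIn K T) (ξ : ell2 G) : T (cut K ξ) = cut K (T ξ) := by
  apply ext_fun
  intro y
  by_cases hy : y ∈ (K : Set G)
  · rw [cut_of_mem hy]
    refine (hasSum_apply hR _ y).unique ?_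
    have h : (fun x => hat T (y * x⁻¹) * cut (K : Set G) ξ x) = fun x => hat T (y * x⁻¹) * ξ x := by
      funext x
      by_cases hx : x ∈ (K : Set G)
      · rw [cut_of_mem hx]
      · rw [hT, zero_mul, zero_mul]
        intro h
        apply hx
        have := K.mul_mem (K.inv_mem h) hy
        simpa using this
    rw [h]
    exact hasSum_apply hR ξ y
  · rw [cut_of_notMem hy]
    exact hT.apply hR (fun x hx => cut_of_notMem hx ξ) hy

/-- The coset estimate. -/
lemma SuppIn.norm_apply_le {K : Subgroup G} {T : ell2 G →L[ℂ] ell2 G} (hR : RInv T)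
    (hT : SuppIn K T) (η : ell2 G) (y : G) :
    ‖T η y‖ ≤ ‖T‖ * ‖cut {x | y * x⁻¹ ∈ K} η‖ := by
  have h1 : T η y = T (cut {x | y * x⁻¹ ∈ K} η) y := by
    refine (hasSum_apply hR η y).unique ?_
    have h : (fun x => hat T (y * x⁻¹) * η x) =
        fun x => hat T (y * x⁻¹) * cut {x | y * x⁻¹ ∈ K} η x := by
      funext x
      by_cases hx : x ∈ {x | y * x⁻¹ ∈ K}
      · rw [cut_of_mem hx]
      · rw [hT _ hx, zero_mul, zero_mul]
    rw [h]
    exact hasSum_apply hR _ y
  rw [h1]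
  exact (lp.norm_apply_le_norm (by norm_num) _ y).trans (T.le_opNorm _)

/-- An operator commuting with `λ_k`, `k ∈ K`, commutes with all operators supported on `K`. -/
lemma SuppIn.comm {K : Subgroup G} {T Y : ell2 G →L[ℂ] ell2 G} (hR : RInv T) (hY : RInv Y)
    (hT : SuppIn K T) (h : ∀ k ∈ K, Y * lam k = lam k * Y) : Y * T = T * Y := by
  apply ext_hat (hY.mul hR) (hR.mul hY)
  intro g
  have h1 : HasSum (fun x => hat Y (g * x⁻¹) * hat T x) (hat (Y * T) g) :=
    hasSum_apply hY (T (dl 1)) g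
  have h2 : HasSum (fun x => hat T (g * x⁻¹) * hat Y x) (hat (T * Y) g) :=
    hasSum_apply hR (Y (dl 1)) g
  let σ : G ≃ G :=
    { toFun := fun t => t⁻¹ * g
      invFun := fun x => g * x⁻¹
      left_inv := fun t => by simp
      right_inv := fun x => by simp }
  have h3 := (Equiv.hasSum_iff σ).mpr h2
  refine h1.unique ?_
  have h4 : (fun x => hat Y (g * x⁻¹) * hat T x) =
      (fun x => hat T (g * x⁻¹) * hat Y x) ∘ σ := by
    funext t
    show hat Y (g * t⁻¹) * hat T t = hat T (g * (t⁻¹ * g)⁻¹) * hat Y (t⁻¹ * g)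
    have h5 : g * (t⁻¹ * g)⁻¹ = t := by group
    rw [h5]
    by_cases ht : t ∈ K
    · have h6 := congrArg (fun S : ell2 G →L[ℂ] ell2 G => S (dl 1) g) (h t ht)
      have h7 : (Y * lam t) (dl 1) g = hat Y (g * t⁻¹) := by
        show Y (lam t (dl 1)) g = _
        rw [lam_dl, mul_one, apply_dl hY]
      have h8 : (lam t * Y) (dl 1) g = hat Y (t⁻¹ * g) := rfl
      simp only [h7, h8] at h6
      rw [h6, mul_comm]
    · rw [hT t ht, mul_zero, zero_mul]
  rw [h4]
  exact h3

end Pool.Agent.MPa0a75b
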