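import Mathlib
import Pool.Agent.MPa0a75b.Supp
import Pool.Agent.MPa0a75b.MatUnits

set_option autoImplicit false

/-!
# The main contradiction
-/

namespace Pool.Agent.MPa0a75b

open Filter Topology
open scoped ComplexInnerProductSpace ComplexConjugate

universe u v

variable {G : Type u} [Group G]

/-- An increasing sequence of subgroups `K n` and of matrix units `e n` supported on `K n`,
such that `e (n + 1)` commutes with `K n`. -/
structure Tower (G : Type u) [Group G] where
  K : ℕ → Subgroup G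
  mono : ∀ n, K n ≤ K (n + 1)
  e : ℕ → Fin 2 → Fin 2 → (ell2 G →L[ℂ] ell2 G)
  units : ∀ n, IsMatUnits (e n)
  rinv : ∀ n a b, RInv (e n a b)
  supp : ∀ n a b, SuppIn (K n) (e n a b)
  comm : ∀ n, ∀ k ∈ K n, ∀ a b, lam k * e (n + 1) a b = e (n + 1) a b * lam k
  icc : ∀ n, ∀ h ∈ K n, h ≠ 1 → {x | ∃ k ∈ K (n + 1), k * h * k⁻¹ = x}.Infinite

namespace Tower

variable (t : Tower G)

lemma monotone : Monotone t.K := monotone_nat_of_le_succ t.mono

/-- `e (n + 1)` commutes with everything supported on `K n`. -/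
lemma comm_supp (n : ℕ) (a b : Fin 2) {T : ell2 G →L[ℂ] ell2 G} (hR : RInv T)
    (hT : SuppIn (t.K n) T) : Commute (t.e (n + 1) a b) T :=
  hT.comm hR (t.rinv _ _ _) fun k hk => (t.comm n k hk a b).symm

lemma comm_succ (n : ℕ) (a b c d : Fin 2) : Commute (t.e n a b) (t.e (n + 1) c d) :=
  (t.comm_supp n c d (t.rinv n a b) (t.supp n a b)).symm

/-- The swap unitaries. -/
noncomputable def z (n : ℕ) : ell2 G →L[ℂ] ell2 G := swap (t.e n) (t.e (n + 1))

lemma z_rinv (n : ℕ) : RInv (t.z n) := by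
  unfold z swap
  simp only [Fin.sum_univ_two]
  exact ((((t.rinv _ _ _).mul (t.rinv _ _ _)).add ((t.rinv _ _ _).mul (t.rinv _ _ _))).add
    (((t.rinv _ _ _).mul (t.rinv _ _ _)).add ((t.rinv _ _ _).mul (t.rinv _ _ _))))

lemma e_supp_succ (n : ℕ) (a b : Fin 2) : SuppIn (t.K (n + 1)) (t.e n a b) :=
  (t.supp n a b).mono (t.mono n)

lemma z_supp (n : ℕ) : SuppIn (t.K (n + 1)) (t.z n) := by
  unfold z swap
  simp only [Fin.sum_univ_two]
  have h : ∀ a b c d, SuppIn (t.K (n + 1)) (t.e n a b * t.e (n + 1) c d) := fun a b c d =>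
    (t.e_supp_succ n a b).mul (t.rinv _ _ _) (t.supp _ _ _)
  exact ((h _ _ _ _).add (h _ _ _ _)).add ((h _ _ _ _).add (h _ _ _ _))

lemma z_mul_z (n : ℕ) : t.z n * t.z n = 1 :=
  swap_mul_swap (t.units n) (t.units (n + 1)) (t.comm_succ n)

lemma star_z (n : ℕ) : star (t.z n) = t.z n :=
  star_swap (t.units n) (t.units (n + 1)) (t.comm_succ n)

lemma e_mul_z (n : ℕ) (a b : Fin 2) : t.e n a b * t.z n = t.z n * t.e (n + 1) a b :=
  (swap_mul_right (t.units n) (t.units (n + 1)) a b).symm

lemma z_comm {n : ℕ} {T : ell2 G →L[ℂ] ell2 G} (h1 : ∀ a b, Commute (t.e n a b) T)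
    (h2 : ∀ a b, Commute (t.e (n + 1) a b) T) : Commute (t.z n) T := by
  unfold z swap
  apply Commute.sum_left
  intro a _
  apply Commute.sum_left
  intro b _
  exact (h1 a b).mul_left (h2 b a)

/-- The products of swaps. -/
noncomputable def w : ℕ → (ell2 G →L[ℂ] ell2 G)
  | 0 => 1
  | n + 1 => w n * t.z n

lemma w_succ (n : ℕ) : t.w (n + 1) = t.w n * t.z n := rfl

lemma w_rinv (n : ℕ) : RInv (t.w n) := by
  induction n with
  | zero => exact RInv.one
  | succ n ih => exact ih.mul (t.z_rinv n)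

lemma w_supp (n : ℕ) : SuppIn (t.K n) (t.w n) := by
  induction n with
  | zero => exact suppIn_one _
  | succ n ih => exact (ih.mono (t.mono n)).mul (t.w_rinv n) (t.z_supp n)

lemma w_unitary (n : ℕ) : star (t.w n) * t.w n = 1 ∧ t.w n * star (t.w n) = 1 := by
  induction n with
  | zero => exact ⟨by simp [w], by simp [w]⟩
  | succ n ih =>
    rw [w_succ, star_mul, star_z]
    constructor
    · calc t.z n * star (t.w n) * (t.w n * t.z n) = t.z n * (star (t.w n) * t.w n) * t.z n := by
            simp only [mul_assoc]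
        _ = 1 := by rw [ih.1, mul_one, z_mul_z]
    · calc t.w n * t.z n * (t.z n * star (t.w n)) = t.w n * (t.z n * t.z n) * star (t.w n) := by
            simp only [mul_assoc]
        _ = 1 := by rw [z_mul_z, mul_one, ih.2]

lemma e_mul_w (n : ℕ) (a b : Fin 2) : t.e 0 a b * t.w n = t.w n * t.e n a b := by
  induction n with
  | zero => simp [w]
  | succ n ih => rw [w_succ, ← mul_assoc, ih, mul_assoc, e_mul_z, mul_assoc]

/-- For `k ∈ K n` the conjugates `w m k (w m)*` do not depend on `m > n`. -/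
lemma w_conj {n : ℕ} {k : G} (hk : k ∈ t.K n) (m : ℕ) (hm : n + 1 ≤ m) :
    t.w m * lam k * star (t.w m) = t.w (n + 1) * lam k * star (t.w (n + 1)) := by
  induction m, hm using Nat.le_induction with
  | base => rfl
  | succ m hm ih =>
    rw [← ih, w_succ, star_mul, star_z]
    obtain ⟨m, rfl⟩ : ∃ m', m = m' + 1 := ⟨m - 1, by omega⟩
    have hc : Commute (t.z (m + 1)) (lam k) := by
      apply t.z_comm
      · intro a b
        exact (t.comm m k (t.monotone (by omega) hk) a b).symm
      · intro a b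
        exact (t.comm (m + 1) k (t.monotone (by omega) hk) a b).symm
    calc t.w (m + 1) * t.z (m + 1) * lam k * (t.z (m + 1) * star (t.w (m + 1)))
        = t.w (m + 1) * (t.z (m + 1) * lam k) * t.z (m + 1) * star (t.w (m + 1)) := by
          simp only [mul_assoc]
      _ = t.w (m + 1) * (lam k * t.z (m + 1)) * t.z (m + 1) * star (t.w (m + 1)) := by
          rw [hc.eq]
      _ = t.w (m + 1) * lam k * (t.z (m + 1) * t.z (m + 1)) * star (t.w (m + 1)) := by
          simp only [mul_assoc]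
      _ = t.w (m + 1) * lam k * star (t.w (m + 1)) := by rw [z_mul_z, mul_one]

lemma w_rel {n : ℕ} {k : G} (hk : k ∈ t.K n) (m : ℕ) (hm : n + 1 ≤ m) :
    t.w m * lam k = (t.w (n + 1) * lam k * star (t.w (n + 1))) * t.w m := by
  rw [← t.w_conj hk m hm, mul_assoc, (t.w_unitary m).1, mul_one]

/-- The union of the subgroups. -/
def Kinf : Subgroup G := ⨆ n, t.K n

lemma mem_Kinf {k : G} : k ∈ t.Kinf ↔ ∃ n, k ∈ t.K n :=
  Subgroup.mem_iSup_of_directed t.monotone.directed_le

lemma K_le (n : ℕ) : t.K n ≤ t.Kinf := le_iSup t.K n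

end Tower

end Pool.Agent.MPa0a75b
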