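import Mathlib
import Pool.Agent.MPa0a75b.Tower

set_option autoImplicit false

/-!
# The main contradiction
-/

namespace Pool.Agent.MPa0a75b

open Filter Topology
open scoped ComplexInnerProductSpace ComplexConjugate

universe u v

variable {G : Type u} [Group G]

omit [Group G] in
lemma IsMatUnits.norm_le {e : Fin 2 → Fin 2 → (ell2 G →L[ℂ] ell2 G)} (he : IsMatUnits e)
    (a b : Fin 2) : ‖e a b‖ ≤ 1 := by
  have h1 : ∀ a b, ‖e a b‖ * ‖e a b‖ = ‖e b b‖ := by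
    intro a b
    rw [← CStarRing.norm_star_mul_self, he.star_eq, he.mul_same]
  have h2 : ‖e b b‖ ≤ 1 := by
    have h3 := h1 b b
    by_contra h4
    push Not at h4
    nlinarith
  have h5 := h1 a b
  by_contra h6
  push Not at h6
  nlinarith

/-- The data of the main contradiction. -/
structure Datum (G : Type u) [Group G] extends Tower G where
  W : ell2 G →L[ℂ] ell2 G
  W_rinv : RInv W
  W_rel : ∀ n, ∀ k ∈ K n, W * lam k =
    toTower.w (n + 1) * lam k * star (toTower.w (n + 1)) * W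

namespace Datum

variable (t : Datum G)

lemma star_w_e (n : ℕ) (a b : Fin 2) :
    star (t.w n) * t.e 0 a b = t.e n a b * star (t.w n) := by
  have h := t.e_mul_w n a b
  calc star (t.w n) * t.e 0 a b = star (t.w n) * (t.e 0 a b * t.w n) * star (t.w n) := by
        rw [mul_assoc, mul_assoc, (t.w_unitary n).2, mul_one]
    _ = (star (t.w n) * t.w n) * t.e n a b * star (t.w n) := by
        rw [h]
        simp only [mul_assoc]
    _ = t.e n a b * star (t.w n) := by rw [(t.w_unitary n).1, one_mul]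

lemma W_supp (n : ℕ) {T : ell2 G →L[ℂ] ell2 G} (hR : RInv T) (hT : SuppIn (t.K n) T) :
    W t * T = t.w (n + 1) * T * star (t.w (n + 1)) * W t := by
  have h1 : (star (t.w (n + 1)) * W t) * T = T * (star (t.w (n + 1)) * W t) := by
    apply hT.comm hR ((t.w_rinv _).star.mul t.W_rinv)
    intro k hk
    calc star (t.w (n + 1)) * W t * lam k = star (t.w (n + 1)) * (W t * lam k) := mul_assoc _ _ _
      _ = (star (t.w (n + 1)) * t.w (n + 1)) * lam k * (star (t.w (n + 1)) * W t) := by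
        rw [t.W_rel n k hk]
        simp only [mul_assoc]
      _ = lam k * (star (t.w (n + 1)) * W t) := by rw [(t.w_unitary _).1, one_mul]
  calc W t * T = (t.w (n + 1) * star (t.w (n + 1))) * W t * T := by
        rw [(t.w_unitary _).2, one_mul]
    _ = t.w (n + 1) * ((star (t.w (n + 1)) * W t) * T) := by simp only [mul_assoc]
    _ = t.w (n + 1) * (T * (star (t.w (n + 1)) * W t)) := by rw [h1]
    _ = t.w (n + 1) * T * star (t.w (n + 1)) * W t := by simp only [mul_assoc]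

lemma W_mul (n : ℕ) {Y : ell2 G →L[ℂ] ell2 G} (hR : RInv Y) (hY : SuppIn (t.K n) Y)
    (hc : ∀ a b, Commute (t.e 0 a b) Y) :
    W t * (star (t.w n) * Y * t.w n) = Y * W t := by
  have hXR : RInv (star (t.w n) * Y * t.w n) := ((t.w_rinv n).star.mul hR).mul (t.w_rinv n)
  have hXS : SuppIn (t.K n) (star (t.w n) * Y * t.w n) :=
    (((t.w_supp n).star (t.w_rinv n)).mul (t.w_rinv n).star hY).mul
      ((t.w_rinv n).star.mul hR) (t.w_supp n)
  have hXe : ∀ a b, Commute (t.e n a b) (star (t.w n) * Y * t.w n) := by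
    intro a b
    show t.e n a b * (star (t.w n) * Y * t.w n) = (star (t.w n) * Y * t.w n) * t.e n a b
    calc t.e n a b * (star (t.w n) * Y * t.w n) = (t.e n a b * star (t.w n)) * Y * t.w n := by
          simp only [mul_assoc]
      _ = star (t.w n) * (t.e 0 a b * Y) * t.w n := by
          rw [← t.star_w_e n a b]
          simp only [mul_assoc]
      _ = star (t.w n) * (Y * t.e 0 a b) * t.w n := by rw [(hc a b).eq]
      _ = star (t.w n) * Y * (t.e 0 a b * t.w n) := by simp only [mul_assoc]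
      _ = star (t.w n) * Y * t.w n * t.e n a b := by
          rw [t.e_mul_w n a b]
          simp only [mul_assoc]
  have hz : Commute (t.z n) (star (t.w n) * Y * t.w n) :=
    t.z_comm hXe fun a b => t.comm_supp n a b hXR hXS
  rw [t.W_supp n hXR hXS, t.w_succ, star_mul, t.star_z]
  calc t.w n * t.z n * (star (t.w n) * Y * t.w n) * (t.z n * star (t.w n)) * W t
      = t.w n * (t.z n * (star (t.w n) * Y * t.w n)) * (t.z n * star (t.w n)) * W t := by
        simp only [mul_assoc]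
    _ = t.w n * ((star (t.w n) * Y * t.w n) * t.z n) * (t.z n * star (t.w n)) * W t := by
        rw [hz.eq]
    _ = (t.w n * star (t.w n)) * Y * (t.w n * (t.z n * t.z n) * star (t.w n)) * W t := by
        simp only [mul_assoc]
    _ = Y * W t := by
        rw [t.z_mul_z, mul_one, (t.w_unitary n).2, one_mul, mul_one]

/-- The adjoint of `W`. -/
noncomputable def V : ell2 G →L[ℂ] ell2 G := star t.W

lemma V_rinv : RInv t.V := t.W_rinv.star

lemma V_mul (n : ℕ) {Y : ell2 G →L[ℂ] ell2 G} (hR : RInv Y) (hY : SuppIn (t.K n) Y)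
    (hc : ∀ a b, Commute (t.e 0 a b) Y) :
    t.V * Y = (star (t.w n) * Y * t.w n) * t.V := by
  have h := t.W_mul n hR.star (hY.star hR) (fun a b => by
    have h1 := (hc b a).eq
    have h2 := congrArg star h1
    rw [star_mul, star_mul, (t.units 0).star_eq] at h2
    exact h2.symm)
  have h3 := congrArg star h
  rw [star_mul, star_mul, star_mul, star_mul, star_star, star_star] at h3
  rw [V, ← h3]
  simp only [mul_assoc]

/-- The matrix entries of `λ_k` with respect to `e 0`. -/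
noncomputable def y (k : G) (a b : Fin 2) : ell2 G →L[ℂ] ell2 G :=
  ∑ c, t.e 0 c a * lam k * t.e 0 b c

lemma y_eq (k : G) (a b : Fin 2) : t.y k a b =
    t.e 0 0 a * lam k * t.e 0 b 0 + t.e 0 1 a * lam k * t.e 0 b 1 := by
  rw [y, Fin.sum_univ_two]

lemma y_comm (k : G) (a b c d : Fin 2) : Commute (t.e 0 c d) (t.y k a b) := by
  show t.e 0 c d * t.y k a b = t.y k a b * t.e 0 c d
  have h1 : t.e 0 c d * t.y k a b = t.e 0 c a * lam k * t.e 0 b d := by
    rw [y, Finset.mul_sum]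
    simp only [← mul_assoc, (t.units 0).mul_eq]
    simp
  have h2 : t.y k a b * t.e 0 c d = t.e 0 c a * lam k * t.e 0 b d := by
    rw [y, Finset.sum_mul]
    simp only [mul_assoc, (t.units 0).mul_eq]
    simp
  rw [h1, h2]

lemma lam_eq (k : G) : lam k = ∑ a, ∑ b, t.y k a b * t.e 0 a b := by
  have h : ∀ a b, t.y k a b * t.e 0 a b = t.e 0 a a * lam k * t.e 0 b b := by
    intro a b
    rw [y, Finset.sum_mul]
    simp only [mul_assoc, (t.units 0).mul_eq]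
    simp
  simp only [h, Fin.sum_univ_two]
  have hs := (t.units 0).sum_one
  calc lam k = (t.e 0 0 0 + t.e 0 1 1) * lam k * (t.e 0 0 0 + t.e 0 1 1) := by
        rw [hs, one_mul, mul_one]
    _ = _ := by
        simp only [add_mul, mul_add]
        abel

lemma lam_rinv (k : G) : RInv (lam k : ell2 G →L[ℂ] ell2 G) := rInv_of_mem (lam_mem k)

lemma y_rinv (k : G) (a b : Fin 2) : RInv (t.y k a b) := by
  rw [y_eq]
  exact (((t.rinv _ _ _).mul (lam_rinv k)).mul (t.rinv _ _ _)).add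
    (((t.rinv _ _ _).mul (lam_rinv k)).mul (t.rinv _ _ _))

lemma y_supp {n : ℕ} {k : G} (hk : k ∈ t.K n) (a b : Fin 2) : SuppIn (t.K n) (t.y k a b) := by
  have h0 : ∀ a b, SuppIn (t.K n) (t.e 0 a b) := fun a b =>
    (t.supp 0 a b).mono (t.monotone (Nat.zero_le n))
  have h : ∀ c, SuppIn (t.K n) (t.e 0 c a * lam k * t.e 0 b c) := fun c =>
    ((h0 c a).mul (t.rinv _ _ _) (suppIn_lam hk)).mul
      ((t.rinv _ _ _).mul (lam_rinv k)) (h0 b c)
  rw [y_eq]
  exact (h 0).add (h 1)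

lemma norm_lam_le (k : G) : ‖(lam k : ell2 G →L[ℂ] ell2 G)‖ ≤ 1 := by
  apply ContinuousLinearMap.opNorm_le_bound _ zero_le_one
  intro ξ
  rw [one_mul]
  exact (norm_permute_apply _ ξ).le

lemma y_norm (k : G) (a b : Fin 2) : ‖t.y k a b‖ ≤ 2 := by
  have h : ∀ c, ‖t.e 0 c a * lam k * t.e 0 b c‖ ≤ 1 := by
    intro c
    calc ‖t.e 0 c a * lam k * t.e 0 b c‖ ≤ ‖t.e 0 c a‖ * ‖(lam k : ell2 G →L[ℂ] ell2 G)‖ *
          ‖t.e 0 b c‖ := (norm_mul_le _ _).trans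
            (mul_le_mul_of_nonneg_right (norm_mul_le _ _) (norm_nonneg _))
      _ ≤ 1 * 1 * 1 := by
          gcongr
          · exact (t.units 0).norm_le _ _
          · exact norm_lam_le k
          · exact (t.units 0).norm_le _ _
      _ = 1 := by norm_num
  rw [y_eq]
  calc _ ≤ ‖t.e 0 0 a * lam k * t.e 0 b 0‖ + ‖t.e 0 1 a * lam k * t.e 0 b 1‖ := norm_add_le _ _
    _ ≤ 1 + 1 := add_le_add (h 0) (h 1)
    _ = 2 := by norm_num

lemma norm_w_le (n : ℕ) : ‖t.w n‖ ≤ 1 := by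
  have h : ‖t.w n‖ * ‖t.w n‖ ≤ 1 := by
    rw [← CStarRing.norm_star_mul_self, (t.w_unitary n).1]
    exact ContinuousLinearMap.norm_id_le
  nlinarith [norm_nonneg (t.w n)]

lemma norm_star_w_le (n : ℕ) : ‖star (t.w n)‖ ≤ 1 := by
  have h : ‖star (t.w n)‖ * ‖star (t.w n)‖ ≤ 1 := by
    rw [← CStarRing.norm_star_mul_self, star_star, (t.w_unitary n).2]
    exact ContinuousLinearMap.norm_id_le
  nlinarith [norm_nonneg (star (t.w n))]

lemma x_norm (n : ℕ) (k : G) (a b : Fin 2) : ‖star (t.w n) * t.y k a b * t.w n‖ ≤ 2 := by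
  calc ‖star (t.w n) * t.y k a b * t.w n‖ ≤ ‖star (t.w n)‖ * ‖t.y k a b‖ * ‖t.w n‖ :=
        (norm_mul_le _ _).trans (mul_le_mul_of_nonneg_right (norm_mul_le _ _) (norm_nonneg _))
    _ ≤ 1 * 2 * 1 := by
        gcongr
        · exact t.norm_star_w_le n
        · exact t.y_norm k a b
        · exact t.norm_w_le n
    _ = 2 := by norm_num

/-- The vectors `V e_{ab} δ_1`. -/
noncomputable def eta (a b : Fin 2) : ell2 G := t.V (t.e 0 a b (dl 1))

/-- The key estimate. -/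
lemma key (g : G) {k : G} (hk : k ∈ t.Kinf) :
    ∃ a b, ‖hat t.V g‖ / 8 ≤ ‖cut {x | g * k * x⁻¹ ∈ t.Kinf} (t.eta a b)‖ := by
  obtain ⟨n, hk⟩ := t.mem_Kinf.mp hk
  by_contra hcon
  push Not at hcon
  have h1 : hat t.V g = ∑ a, ∑ b, (star (t.w n) * t.y k a b * t.w n) (t.eta a b) (g * k) := by
    have h2 : t.V * lam k = ∑ a, ∑ b, (star (t.w n) * t.y k a b * t.w n) * (t.V * t.e 0 a b) := by
      rw [t.lam_eq k, Finset.mul_sum]
      apply Finset.sum_congr rfl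
      intro a _
      rw [Finset.mul_sum]
      apply Finset.sum_congr rfl
      intro b _
      rw [← mul_assoc, t.V_mul n (t.y_rinv k a b) (t.y_supp hk a b)
        (fun c d => t.y_comm k a b c d)]
      simp only [mul_assoc]
    have h3 : (t.V * lam k) (dl 1) (g * k) = hat t.V g := by
      show t.V (lam k (dl 1)) (g * k) = _
      rw [lam_dl, mul_one, apply_dl t.V_rinv, mul_inv_cancel_right]
    rw [← h3, h2]
    simp only [Fin.sum_univ_two]
    rfl
  have h4 : ∀ a b, ‖(star (t.w n) * t.y k a b * t.w n) (t.eta a b) (g * k)‖ ≤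
      2 * ‖cut {x | g * k * x⁻¹ ∈ t.Kinf} (t.eta a b)‖ := by
    intro a b
    have hR : RInv (star (t.w n) * t.y k a b * t.w n) :=
      ((t.w_rinv n).star.mul (t.y_rinv k a b)).mul (t.w_rinv n)
    have hS : SuppIn t.Kinf (star (t.w n) * t.y k a b * t.w n) :=
      ((((t.w_supp n).star (t.w_rinv n)).mul (t.w_rinv n).star (t.y_supp hk a b)).mul
      ((t.w_rinv n).star.mul (t.y_rinv k a b)) (t.w_supp n)).mono (t.K_le n)
    exact (hS.norm_apply_le hR _ _).trans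
      (mul_le_mul_of_nonneg_right (t.x_norm n k a b) (norm_nonneg _))
  have h5 : ‖hat t.V g‖ ≤ ∑ a, ∑ b, 2 * ‖cut {x | g * k * x⁻¹ ∈ t.Kinf} (t.eta a b)‖ := by
    rw [h1]
    refine (norm_sum_le _ _).trans (Finset.sum_le_sum fun a _ => ?_)
    exact (norm_sum_le _ _).trans (Finset.sum_le_sum fun b _ => h4 a b)
  simp only [Fin.sum_univ_two] at h5
  have := hcon 0 0
  have := hcon 0 1
  have := hcon 1 0
  have := hcon 1 1
  linarith

/-- The right cosets `K g k`, `k ∈ K`, are finite in number. -/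
lemma finite_cosets {g : G} (hg : hat t.V g ≠ 0) :
    {S : Set G | ∃ k ∈ t.Kinf, S = {x | g * k * x⁻¹ ∈ t.Kinf}}.Finite := by
  have hpos : 0 < ‖hat t.V g‖ / 8 := by positivity
  have hdisj : ∀ S ∈ {S : Set G | ∃ k ∈ t.Kinf, S = {x | g * k * x⁻¹ ∈ t.Kinf}},
      ∀ T ∈ {S : Set G | ∃ k ∈ t.Kinf, S = {x | g * k * x⁻¹ ∈ t.Kinf}}, S ≠ T → Disjoint S T := by
    rintro _ ⟨k, hk, rfl⟩ _ ⟨l, hl, rfl⟩ hne
    rw [Set.disjoint_left]
    intro x hx hx'
    apply hne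
    have h1 : g * k * (g * l)⁻¹ ∈ t.Kinf := by
      have := t.Kinf.mul_mem hx (t.Kinf.inv_mem hx')
      have h2 : g * k * x⁻¹ * (g * l * x⁻¹)⁻¹ = g * k * (g * l)⁻¹ := by group
      rwa [h2] at this
    ext u
    constructor
    · intro hu
      have := t.Kinf.mul_mem (t.Kinf.inv_mem h1) hu
      have h2 : (g * k * (g * l)⁻¹)⁻¹ * (g * k * u⁻¹) = g * l * u⁻¹ := by group
      rwa [h2] at this
    · intro hu
      have := t.Kinf.mul_mem h1 hu
      have h2 : (g * k * (g * l)⁻¹) * (g * l * u⁻¹) = g * k * u⁻¹ := by group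
      rwa [h2] at this
  have hfin : ∀ a b, {S : Set G | (∃ k ∈ t.Kinf, S = {x | g * k * x⁻¹ ∈ t.Kinf}) ∧
      ‖hat t.V g‖ / 8 ≤ ‖cut S (t.eta a b)‖}.Finite := by
    intro a b
    rw [← Set.finite_coe_iff]
    exact finite_of_mass (fun S => S.1) (fun S T hST => hdisj S.1 S.2.1 T.1 T.2.1
        (fun h => hST (Subtype.ext h))) (t.eta a b) hpos (fun S => S.2.2)
  have hsub : {S : Set G | ∃ k ∈ t.Kinf, S = {x | g * k * x⁻¹ ∈ t.Kinf}} ⊆
      ⋃ a, ⋃ b, {S : Set G | (∃ k ∈ t.Kinf, S = {x | g * k * x⁻¹ ∈ t.Kinf}) ∧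
      ‖hat t.V g‖ / 8 ≤ ‖cut S (t.eta a b)‖} := by
    rintro _ ⟨k, hk, rfl⟩
    obtain ⟨a, b, hab⟩ := t.key g hk
    simp only [Set.mem_iUnion]
    exact ⟨a, b, ⟨k, hk, rfl⟩, hab⟩
  exact (Set.finite_iUnion fun a => Set.finite_iUnion fun b => hfin a b).subset hsub

/-! ### The vector `ξ` -/

/-- The conjugates `b_k`. -/
noncomputable def B (n : ℕ) (k : G) : ell2 G →L[ℂ] ell2 G :=
  t.w (n + 1) * lam k * star (t.w (n + 1))

lemma B_rinv (n : ℕ) (k : G) : RInv (t.B n k) :=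
  ((t.w_rinv _).mul (lam_rinv k)).mul (t.w_rinv _).star

lemma B_supp {n : ℕ} {k : G} (hk : k ∈ t.K n) : SuppIn t.Kinf (t.B n k) := by
  have h : SuppIn (t.K (n + 1)) (t.B n k) :=
    ((t.w_supp _).mul (t.w_rinv _) (suppIn_lam (t.mono n hk))).mul
      ((t.w_rinv _).mul (lam_rinv k)) ((t.w_supp _).star (t.w_rinv _))
  exact h.mono (t.K_le _)

lemma B_comm {n : ℕ} {k : G} (hk : k ∈ t.K n) (a b : Fin 2) : Commute (t.e 0 a b) (t.B n k) := by
  show t.e 0 a b * t.B n k = t.B n k * t.e 0 a b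
  unfold B
  calc t.e 0 a b * (t.w (n + 1) * lam k * star (t.w (n + 1)))
      = (t.e 0 a b * t.w (n + 1)) * lam k * star (t.w (n + 1)) := by simp only [mul_assoc]
    _ = t.w (n + 1) * (t.e (n + 1) a b * lam k) * star (t.w (n + 1)) := by
        rw [t.e_mul_w]
        simp only [mul_assoc]
    _ = t.w (n + 1) * (lam k * t.e (n + 1) a b) * star (t.w (n + 1)) := by
        rw [t.comm n k hk a b]
    _ = t.w (n + 1) * lam k * (t.e (n + 1) a b * star (t.w (n + 1))) := by simp only [mul_assoc]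
    _ = t.w (n + 1) * lam k * star (t.w (n + 1)) * t.e 0 a b := by
        rw [← t.star_w_e]
        simp only [mul_assoc]

lemma B_unitary (n : ℕ) (k : G) : star (t.B n k) * t.B n k = 1 := by
  unfold B
  rw [star_mul, star_mul, star_star, star_lam]
  calc t.w (n + 1) * (lam k⁻¹ * star (t.w (n + 1))) * (t.w (n + 1) * lam k * star (t.w (n + 1)))
      = t.w (n + 1) * (lam k⁻¹ * ((star (t.w (n + 1)) * t.w (n + 1)) * lam k)) *
          star (t.w (n + 1)) := by simp only [mul_assoc]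
    _ = 1 := by
        rw [(t.w_unitary _).1, one_mul, lam_mul, inv_mul_cancel, lam_one, mul_one,
          (t.w_unitary _).2]

/-- The vector `ξ`. -/
noncomputable def xi (g : G) : ell2 G := cut (t.Kinf : Set G) (t.W (dl g⁻¹))

lemma xi_one (g : G) : t.xi g 1 = hat t.W g := by
  rw [xi, cut_of_mem (t.Kinf.one_mem), apply_dl t.W_rinv, one_mul, inv_inv]

lemma cut_rho {l : G} (hl : l ∈ t.Kinf) (ζ : ell2 G) :
    cut (t.Kinf : Set G) (rho l ζ) = rho l (cut (t.Kinf : Set G) ζ) := by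
  apply ext_fun
  intro x
  rw [rho_apply]
  by_cases hx : x ∈ (t.Kinf : Set G)
  · rw [cut_of_mem hx, cut_of_mem (show x * l ∈ (t.Kinf : Set G) from t.Kinf.mul_mem hx hl),
      rho_apply]
  · rw [cut_of_notMem hx, cut_of_notMem]
    intro h
    apply hx
    have := t.Kinf.mul_mem h (t.Kinf.inv_mem hl)
    rwa [mul_inv_cancel_right] at this

lemma B_xi {g l : G} (hl : l ∈ t.Kinf) {n : ℕ} (hk : g⁻¹ * l * g ∈ t.K n) :
    t.B n (g⁻¹ * l * g) (t.xi g) = rho l⁻¹ (t.xi g) := by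
  have h1 : t.B n (g⁻¹ * l * g) * t.W = t.W * lam (g⁻¹ * l * g) := (t.W_rel n _ hk).symm
  have h2 : t.B n (g⁻¹ * l * g) (t.W (dl g⁻¹)) = rho l⁻¹ (t.W (dl g⁻¹)) := by
    have h3 : (t.B n (g⁻¹ * l * g) * t.W) (dl g⁻¹) = (t.W * lam (g⁻¹ * l * g)) (dl g⁻¹) := by
      rw [h1]
    have h4 : (t.W * lam (g⁻¹ * l * g)) (dl g⁻¹) = rho l⁻¹ (t.W (dl g⁻¹)) := by
      show t.W (lam (g⁻¹ * l * g) (dl g⁻¹)) = _
      rw [lam_dl, ← t.W_rinv, rho_dl]
      congr 2
      group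
    rw [← h4, ← h3]
    rfl
  rw [xi, (t.B_supp hk).apply_cut (t.B_rinv n _), h2, t.cut_rho (t.Kinf.inv_mem hl)]

/-- Invariance of the matrix coefficients. -/
lemma coeff_inv {g l : G} (hl : l ∈ t.Kinf) (hk : g⁻¹ * l * g ∈ t.Kinf) (a b : Fin 2) (h : G) :
    ⟪rho (l * h * l⁻¹) (t.xi g), t.e 0 a b (t.xi g)⟫ = ⟪rho h (t.xi g), t.e 0 a b (t.xi g)⟫ := by
  obtain ⟨n, hk⟩ := t.mem_Kinf.mp hk
  have hB := t.B_xi hl hk
  have hc : ∀ ζ, t.e 0 a b (t.B n (g⁻¹ * l * g) ζ) = t.B n (g⁻¹ * l * g) (t.e 0 a b ζ) := by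
    intro ζ
    exact congrArg (fun S : ell2 G →L[ℂ] ell2 G => S ζ) (t.B_comm hk a b).eq
  have hu : ∀ ζ ζ', ⟪t.B n (g⁻¹ * l * g) ζ, t.B n (g⁻¹ * l * g) ζ'⟫ = ⟪ζ, ζ'⟫ := by
    intro ζ ζ'
    rw [← inner_star']
    have := congrArg (fun S : ell2 G →L[ℂ] ell2 G => S ζ') (t.B_unitary n (g⁻¹ * l * g))
    change star (t.B n (g⁻¹ * l * g)) (t.B n (g⁻¹ * l * g) ζ') = ζ' at this
    rw [this]
  rw [rho_mul, rho_mul, ← inner_rho_rho l⁻¹, ← rho_mul l⁻¹ l, inv_mul_cancel, rho_one]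
  rw [← t.rinv 0 a b, ← hB, hc, ← t.B_rinv n, hu]

/-- The coefficients vanish off `1`. -/
lemma coeff_zero {g : G} (hg : hat t.W g ≠ 0) {h : G} (hh : h ∈ t.Kinf) (h1 : h ≠ 1)
    (a b : Fin 2) : ⟪rho h (t.xi g), t.e 0 a b (t.xi g)⟫ = 0 := by
  by_contra hne
  have hV : hat t.V g⁻¹ ≠ 0 := by
    rw [V, hat_star t.W_rinv, inv_inv]
    intro h0
    exact hg ((map_eq_zero _).mp h0)
  have hfin := t.finite_cosets hV
  -- infinitely many conjugates of `h`
  obtain ⟨n, hn⟩ := t.mem_Kinf.mp hh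
  have hinf := t.icc n h hn h1
  have hinf' : {x | ∃ k ∈ t.Kinf, k * h * k⁻¹ = x}.Infinite :=
    hinf.mono (by
      rintro x ⟨k, hk, rfl⟩
      exact ⟨k, t.K_le _ hk, rfl⟩)
  -- choose the conjugators
  have hch : ∀ x : {x | ∃ k ∈ t.Kinf, k * h * k⁻¹ = x}, ∃ k ∈ t.Kinf, k * h * k⁻¹ = x.1 :=
    fun x => x.2
  choose s hsK hs using hch
  -- pigeonhole
  let q : {x | ∃ k ∈ t.Kinf, k * h * k⁻¹ = x} →
      {S : Set G | ∃ k ∈ t.Kinf, S = {x | g⁻¹ * k * x⁻¹ ∈ t.Kinf}} :=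
    fun x => ⟨{y | g⁻¹ * (s x)⁻¹ * y⁻¹ ∈ t.Kinf}, (s x)⁻¹, t.Kinf.inv_mem (hsK x), rfl⟩
  have hI : Infinite {x | ∃ k ∈ t.Kinf, k * h * k⁻¹ = x} := hinf'.to_subtype
  have hF : Finite {S : Set G | ∃ k ∈ t.Kinf, S = {x | g⁻¹ * k * x⁻¹ ∈ t.Kinf}} :=
    hfin.to_subtype
  obtain ⟨S, hS⟩ := Finite.exists_infinite_fiber q
  have hSne : (q ⁻¹' {S}).Nonempty := Set.nonempty_coe_sort.mp inferInstance
  obtain ⟨x₀, hx₀⟩ := hSne
  have hx₀' : q x₀ = S := hx₀
  -- the elements `l = s x₀⁻¹ s x`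
  have hlK : ∀ x, (s x₀)⁻¹ * s x ∈ t.Kinf := fun x =>
    t.Kinf.mul_mem (t.Kinf.inv_mem (hsK x₀)) (hsK x)
  have hlg : ∀ x ∈ q ⁻¹' {S}, g⁻¹ * ((s x₀)⁻¹ * s x) * g ∈ t.Kinf := by
    intro x hx
    have hx' : q x = S := hx
    have h2 : (q x).1 = (q x₀).1 := by rw [hx', hx₀']
    have h3 : g⁻¹ * (s x₀)⁻¹ ∈ (q x₀).1 := by
      show g⁻¹ * (s x₀)⁻¹ * (g⁻¹ * (s x₀)⁻¹)⁻¹ ∈ t.Kinf
      rw [mul_inv_cancel]
      exact t.Kinf.one_mem
    rw [← h2] at h3
    have h4 : g⁻¹ * (s x)⁻¹ * (g⁻¹ * (s x₀)⁻¹)⁻¹ ∈ t.Kinf := h3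
    have h5 := t.Kinf.inv_mem h4
    have h6 : (g⁻¹ * (s x)⁻¹ * (g⁻¹ * (s x₀)⁻¹)⁻¹)⁻¹ = g⁻¹ * ((s x₀)⁻¹ * s x) * g := by group
    rwa [h6] at h5
  -- the coefficient function tends to zero
  have ht := coeff_tendsto (t.xi g) (t.e 0 a b (t.xi g))
  rw [Metric.tendsto_nhds] at ht
  have hev := ht ‖⟪rho h (t.xi g), t.e 0 a b (t.xi g)⟫‖ (norm_pos_iff.mpr hne)
  rw [Filter.eventually_cofinite] at hev
  have hinj : Function.Injective fun x : (q ⁻¹' {S} : Set _) =>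
      (s x₀)⁻¹ * s x.1 * h * ((s x₀)⁻¹ * s x.1)⁻¹ := by
    intro x y hxy
    have h2 : ∀ x : (q ⁻¹' {S} : Set _), (s x₀)⁻¹ * s x.1 * h * ((s x₀)⁻¹ * s x.1)⁻¹ =
        (s x₀)⁻¹ * x.1.1 * s x₀ := by
      intro x
      rw [← hs x.1]
      group
    have h3 : (s x₀)⁻¹ * x.1.1 * s x₀ = (s x₀)⁻¹ * y.1.1 * s x₀ := by
      rw [← h2, ← h2]
      exact hxy
    have h4 : x.1.1 = y.1.1 := mul_left_cancel (mul_right_cancel h3)
    exact Subtype.ext (Subtype.ext h4)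
  have hrange := Set.infinite_range_of_injective hinj
  apply hrange
  apply hev.subset
  rintro _ ⟨x, rfl⟩
  show ¬ dist ⟪rho ((s x₀)⁻¹ * s x.1 * h * ((s x₀)⁻¹ * s x.1)⁻¹) (t.xi g),
    t.e 0 a b (t.xi g)⟫ 0 < _
  rw [t.coeff_inv (hlK x.1) (hlg x.1 x.2), dist_zero_right]
  exact lt_irrefl _

/-- Bessel's inequality gives the contradiction. -/
theorem contradiction_of_ne {g : G} (hg : hat t.W g ≠ 0) : False := by
  have hxi : t.xi g ≠ 0 := by
    intro h
    apply hg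
    rw [← t.xi_one g, h]
    rfl
  have hsum : t.xi g = t.e 0 0 0 (t.xi g) + t.e 0 1 1 (t.xi g) := by
    have := congrArg (fun S : ell2 G →L[ℂ] ell2 G => S (t.xi g)) (t.units 0).sum_one
    exact this.symm
  obtain ⟨a, ha⟩ : ∃ a, t.e 0 a a (t.xi g) ≠ 0 := by
    by_contra hcon
    push Not at hcon
    apply hxi
    rw [hsum, hcon, hcon, add_zero]
  -- adjoint relations
  have hadj : ∀ i j, ∀ ζ, ⟪ζ, (t.e 0 a i) (t.e 0 j a (t.xi g))⟫ =
      ⟪t.e 0 i a ζ, t.e 0 j a (t.xi g)⟫ := by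
    intro i j ζ
    rw [← (t.units 0).star_eq i a, inner_star']
  have hmul : ∀ i j, (t.e 0 a i) (t.e 0 j a (t.xi g)) = if i = j then t.e 0 a a (t.xi g) else 0 := by
    intro i j
    have := congrArg (fun S : ell2 G →L[ℂ] ell2 G => S (t.xi g)) ((t.units 0).mul_eq a i j a)
    change (t.e 0 a i) (t.e 0 j a (t.xi g)) = _ at this
    rw [this]
    split_ifs <;> rfl
  set r : ℝ := ‖t.e 0 a a (t.xi g)‖ with hr
  have hrpos : 0 < r := norm_pos_iff.mpr ha
  -- inner products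
  have hin : ∀ (i j : Fin 2) (h k : G),
      ⟪rho h (t.e 0 i a (t.xi g)), rho k (t.e 0 j a (t.xi g))⟫ =
        ⟪rho (k⁻¹ * h) (t.xi g), t.e 0 a i (t.e 0 j a (t.xi g))⟫ := by
    intro i j h k
    rw [hadj, ← t.rinv, ← t.rinv, ← inner_rho_rho k⁻¹, ← t.rinv, ← t.rinv, ← rho_mul, ← rho_mul,
      inv_mul_cancel, rho_one]
  have hnorm : ∀ i, ‖t.e 0 i a (t.xi g)‖ = r := by
    intro i
    have h2 : ⟪t.e 0 i a (t.xi g), t.e 0 i a (t.xi g)⟫ =
        ⟪t.e 0 a a (t.xi g), t.e 0 a a (t.xi g)⟫ := by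
      rw [← hadj, ← hadj, hmul, hmul, if_pos rfl, if_pos rfl]
    rw [hr, @norm_eq_sqrt_re_inner ℂ, @norm_eq_sqrt_re_inner ℂ, h2]
  have hon : Orthonormal ℂ (fun x : Fin 2 × t.Kinf =>
      ((r⁻¹ : ℝ) : ℂ) • rho x.2.1 (t.e 0 x.1 a (t.xi g))) := by
    refine ⟨fun x => ?_, fun x y hxy => ?_⟩
    · rw [norm_smul, Complex.norm_real, norm_rho, hnorm, norm_inv, Real.norm_of_nonneg hrpos.le,
        inv_mul_cancel₀ hrpos.ne']
    · show ⟪((r⁻¹ : ℝ) : ℂ) • rho x.2.1 (t.e 0 x.1 a (t.xi g)),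
        ((r⁻¹ : ℝ) : ℂ) • rho y.2.1 (t.e 0 y.1 a (t.xi g))⟫ = 0
      rw [inner_smul_left, inner_smul_right, hin, hmul]
      by_cases hij : x.1 = y.1
      · rw [if_pos hij, t.coeff_zero hg (t.Kinf.mul_mem (t.Kinf.inv_mem y.2.2) x.2.2), mul_zero,
          mul_zero]
        intro h3
        apply hxy
        exact Prod.ext hij (Subtype.ext (inv_mul_eq_one.mp h3).symm)
      · rw [if_neg hij, inner_zero_right, mul_zero, mul_zero]
  have hfib : ∀ i : Fin 2, HasSum (fun k : t.Kinf =>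
      ‖⟪((r⁻¹ : ℝ) : ℂ) • rho k.1 (t.e 0 i a (t.xi g)), dl (1 : G)⟫‖ ^ 2) 1 := by
    intro i
    have h1 := lp.hasSum_norm (E := fun _ : G => ℂ) (p := 2) (by norm_num) (t.e 0 i a (t.xi g))
    have h2 : HasSum (fun x : G => ‖t.e 0 i a (t.xi g) x‖ ^ 2) (r ^ 2) := by
      have h3 : (fun x : G => ‖t.e 0 i a (t.xi g) x‖ ^ 2) =
          fun x : G => ‖t.e 0 i a (t.xi g) x‖ ^ (2 : ENNReal).toReal := by
        funext x
        norm_num
      rw [h3, ← hnorm i]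
      have h4 : ‖t.e 0 i a (t.xi g)‖ ^ 2 = ‖t.e 0 i a (t.xi g)‖ ^ (2 : ENNReal).toReal := by
        norm_num
      rw [h4]
      exact h1
    have h5 : Function.support (fun x : G => ‖t.e 0 i a (t.xi g) x‖ ^ 2) ⊆ (t.Kinf : Set G) := by
      intro x hx
      by_contra hxK
      apply hx
      show ‖t.e 0 i a (t.xi g) x‖ ^ 2 = 0
      have hS : SuppIn t.Kinf (t.e 0 i a) := (t.supp 0 i a).mono (t.K_le 0)
      have hz : t.e 0 i a (t.xi g) x = 0 :=
        hS.apply (t.rinv 0 i a) (fun y hy => cut_of_notMem (S := (t.Kinf : Set G)) hy _) hxK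
      rw [hz, norm_zero]
      norm_num
    have h6 := (hasSum_subtype_iff_of_support_subset h5).mpr h2
    have h7 := h6.mul_left ((r ^ 2)⁻¹)
    rw [inv_mul_cancel₀ (by positivity)] at h7
    have h8 : (fun k : t.Kinf =>
        ‖⟪((r⁻¹ : ℝ) : ℂ) • rho k.1 (t.e 0 i a (t.xi g)), dl (1 : G)⟫‖ ^ 2) =
        fun k : (t.Kinf : Set G) => (r ^ 2)⁻¹ * ‖t.e 0 i a (t.xi g) k.1‖ ^ 2 := by
      funext k
      rw [inner_smul_left, inner_dl_right, rho_apply, one_mul, norm_mul, mul_pow]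
      simp only [Complex.conj_ofReal, Complex.norm_real, norm_inv, RCLike.norm_conj]
      rw [Real.norm_of_nonneg hrpos.le, inv_pow]
    rw [h8]
    exact h7
  have hsm := hon.inner_products_summable (dl (1 : G))
  have hle := hon.tsum_inner_products_le (dl (1 : G))
  have hfw := hsm.hasSum.prod_fiberwise hfib
  have htwo : ∑' x : Fin 2 × t.Kinf, ‖⟪((r⁻¹ : ℝ) : ℂ) • rho x.2.1 (t.e 0 x.1 a (t.xi g)),
      dl (1 : G)⟫‖ ^ 2 = 2 := by
    refine hfw.unique ?_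
    have := hasSum_fintype (fun _ : Fin 2 => (1 : ℝ))
    simpa using this
  rw [htwo, norm_dl] at hle
  norm_num at hle

/-- The intertwiner vanishes. -/
theorem W_eq_zero : t.W = 0 := by
  apply ext_hat t.W_rinv (fun _ _ => by simp)
  intro g
  by_contra hg
  exact t.contradiction_of_ne (g := g) (fun h => hg (by rw [h]; rfl))

end Datum

end Pool.Agent.MPa0a75b
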