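import Mathlib
import Pool.Agent.MPa0a75b.Main

set_option autoImplicit false

/-!
# Group von Neumann algebras are not rich
-/

namespace Pool.Agent.MPa0a75b

open Filter Topology
open scoped ComplexInnerProductSpace ComplexConjugate

universe u v

/-- The properties of tracial ultrapowers used in the proof. -/
structure Rich (M : Type u) [Ring M] [StarRing M] [Algebra ℂ M] where
  P : Type
  p₀ : P
  E : P → Fin 2 → Fin 2 → M
  U : Set M
  lt : P → P → Prop
  units : ∀ p, IsMatUnits (E p)
  one_mem : (1 : M) ∈ U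
  swap_mem : ∀ p q, lt p q → ∀ w ∈ U, w * swap (E p) (E q) ∈ U
  exists_commute : ∀ (p : P) (S : ℕ → M), ∃ q, lt p q ∧ ∀ n a b, S n * E q a b = E q a b * S n
  diag : ∀ w : ℕ → M, (∀ m, w m ∈ U) → ∀ a b : ℕ → M,
    (∀ j, ∃ N, ∀ m, N ≤ m → w m * a j = b j * w m) → ∃ W, W ≠ 0 ∧ ∀ j, W * a j = b j * W
  center : ∀ z : M, (∀ x, z * x = x * z) → ∃ c : ℂ, z = algebraMap ℂ M c

/-- Richness is invariant under isomorphism. -/
def Rich.map {M : Type u} [Ring M] [StarRing M] [Algebra ℂ M] {N : Type v} [Ring N] [StarRing N]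
    [Algebra ℂ N] (r : Rich M) (φ : M ≃⋆ₐ[ℂ] N) : Rich N where
  P := r.P
  p₀ := r.p₀
  E p a b := φ (r.E p a b)
  U := φ '' r.U
  lt := r.lt
  units p :=
    { mul_same := fun a b c => by rw [← map_mul, (r.units p).mul_same]
      mul_ne := fun a b c d h => by rw [← map_mul, (r.units p).mul_ne a b c d h, map_zero]
      star_eq := fun a b => by rw [← map_star, (r.units p).star_eq]
      sum_one := by rw [← map_add, (r.units p).sum_one, map_one] }
  one_mem := ⟨1, r.one_mem, map_one φ⟩
  swap_mem := by
    rintro p q hpq _ ⟨w, hw, rfl⟩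
    refine ⟨_, r.swap_mem p q hpq w hw, ?_⟩
    rw [map_mul]
    congr 1
    unfold swap
    simp only [map_sum, map_mul]
  exists_commute := by
    intro p S
    obtain ⟨q, hq, h⟩ := r.exists_commute p (fun n => φ.symm (S n))
    refine ⟨q, hq, fun n a b => ?_⟩
    have := congrArg φ (h n a b)
    rw [map_mul, map_mul] at this
    simpa using this
  diag := by
    intro w hw a b h
    choose w' hw' hww' using hw
    obtain ⟨W, hW, hrel⟩ := r.diag w' hw' (fun j => φ.symm (a j)) (fun j => φ.symm (b j)) (by
      intro j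
      obtain ⟨N, hN⟩ := h j
      refine ⟨N, fun m hm => ?_⟩
      have h1 := congrArg φ.symm (hN m hm)
      rw [map_mul, map_mul, ← hww'] at h1
      simpa using h1)
    refine ⟨φ W, fun h0 => hW ?_, fun j => ?_⟩
    · have := congrArg φ.symm h0
      simpa using this
    · have := congrArg φ (hrel j)
      rw [map_mul, map_mul] at this
      simpa using this
  center := by
    intro z hz
    obtain ⟨c, hc⟩ := r.center (φ.symm z) (by
      intro x
      have := congrArg φ.symm (hz (φ x))
      rw [map_mul, map_mul] at this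
      simpa using this)
    refine ⟨c, ?_⟩
    have := congrArg φ hc
    rw [Algebra.algebraMap_eq_smul_one, map_smul, map_one, ← Algebra.algebraMap_eq_smul_one]
      at this
    simpa using this

section countable

variable {G : Type u} [Group G]

lemma countable_closure {s : Set G} (hs : s.Countable) :
    ((Subgroup.closure s : Subgroup G) : Set G).Countable := by
  have h1 : Countable (s ∪ s⁻¹ : Set G) := (hs.union (by
    rw [← Set.image_inv_eq_inv]
    exact hs.image _)).to_subtype
  have h2 : (Set.range fun l : List (s ∪ s⁻¹ : Set G) => (l.map Subtype.val).prod).Countable :=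
    Set.countable_range _
  refine h2.mono ?_
  intro x hx
  have hx' : x ∈ Submonoid.closure (s ∪ s⁻¹) := by
    rw [← Subgroup.closure_toSubmonoid]
    exact hx
  obtain ⟨l, hl, rfl⟩ := Submonoid.exists_list_of_mem_closure hx'
  refine ⟨l.attach.map fun y => ⟨y.1, hl y.1 y.2⟩, ?_⟩
  show ((l.attach.map _).map Subtype.val).prod = l.prod
  rw [List.map_map]
  congr 1
  exact List.attach_map_subtype_val l

end countable

section

variable {G : Type u} [Group G]

/-- A factor: the group has infinite conjugacy classes. -/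
lemma icc_of_center
    (hc : ∀ z : (groupVN G).toStarSubalgebra, (∀ x, z * x = x * z) →
      ∃ c : ℂ, z = algebraMap ℂ _ c) {h : G} (hh : h ≠ 1) :
    {x | ∃ g : G, g * h * g⁻¹ = x}.Infinite := by
  intro hfin
  have hmem : ∀ (s : Finset G), (∑ x ∈ s, lam x) ∈ (groupVN G).toStarSubalgebra :=
    fun s => sum_mem fun x _ => lam_mem x
  set s := hfin.toFinset with hs
  have hcomm : ∀ g : G, lam g * (∑ x ∈ s, lam x) = (∑ x ∈ s, lam x) * lam g := by
    intro g
    rw [Finset.mul_sum, Finset.sum_mul]
    refine Finset.sum_nbij' (fun x => g * x * g⁻¹) (fun x => g⁻¹ * x * g) ?_ ?_ ?_ ?_ ?_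
    · intro x hx
      rw [hs, Set.Finite.mem_toFinset] at hx ⊢
      obtain ⟨k, rfl⟩ := hx
      exact ⟨g * k, by group⟩
    · intro x hx
      rw [hs, Set.Finite.mem_toFinset] at hx ⊢
      obtain ⟨k, rfl⟩ := hx
      exact ⟨g⁻¹ * k, by group⟩
    · intro x _
      group
    · intro x _
      group
    · intro x _
      rw [lam_mul, lam_mul]
      congr 1
      group
  obtain ⟨c, hc⟩ := hc ⟨∑ x ∈ s, lam x, hmem s⟩ (by
    intro x
    apply Subtype.ext
    exact (comm_of_mem x.2 hcomm).symm)
  have h1 : (∑ x ∈ s, lam x : ell2 G →L[ℂ] ell2 G) = c • 1 := by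
    have := congrArg Subtype.val hc
    rw [Algebra.algebraMap_eq_smul_one] at this
    exact this
  have h2 := congrArg (fun T : ell2 G →L[ℂ] ell2 G => hat T h) h1
  have h3 : hat (∑ x ∈ s, lam x : ell2 G →L[ℂ] ell2 G) h = ∑ x ∈ s, dl x h := by
    unfold hat
    rw [sum_apply, lp.coeFn_sum, Finset.sum_apply]
    apply Finset.sum_congr rfl
    intro x _
    rw [lam_dl, mul_one]
  have h4 : ∑ x ∈ s, dl x h = 1 := by
    rw [Finset.sum_eq_single h, dl_self]
    · intro b _ hb
      exact dl_ne (Ne.symm hb)
    · intro hn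
      exfalso
      apply hn
      rw [hs, Set.Finite.mem_toFinset]
      exact ⟨1, by group⟩
  have h5 : hat (c • 1 : ell2 G →L[ℂ] ell2 G) h = 0 := by
    show c • dl (1 : G) h = 0
    rw [dl_ne hh, smul_zero]
  simp only [h3, h4, h5] at h2
  exact one_ne_zero h2

end

end Pool.Agent.MPa0a75b
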