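import Mathlib
import Pool.Agent.MPa0a75b.Rich

set_option autoImplicit false

/-!
# Building a tower from a rich structure
-/

namespace Pool.Agent.MPa0a75b

open Filter Topology
open scoped ComplexInnerProductSpace ComplexConjugate

universe u v

variable {G : Type u} [Group G] (r : Rich (groupVN G).toStarSubalgebra)

/-- The matrix units as operators. -/
noncomputable def opE (p : r.P) (a b : Fin 2) : ell2 G →L[ℂ] ell2 G := (r.E p a b).1

lemma opE_rinv (p : r.P) (a b : Fin 2) : RInv (opE r p a b) := rInv_of_mem (r.E p a b).2

lemma opE_units (p : r.P) : IsMatUnits (opE r p) where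
  mul_same a b c := congrArg Subtype.val ((r.units p).mul_same a b c)
  mul_ne a b c d h := congrArg Subtype.val ((r.units p).mul_ne a b c d h)
  star_eq a b := congrArg Subtype.val ((r.units p).star_eq a b)
  sum_one := congrArg Subtype.val ((r.units p).sum_one)

/-- The union of the supports of the matrix units. -/
def suppE (p : r.P) : Set G := ⋃ a, ⋃ b, {x | hat (opE r p a b) x ≠ 0}

lemma suppE_countable (p : r.P) : (suppE r p).Countable :=
  Set.countable_iUnion fun a => Set.countable_iUnion fun b =>
    countable_support (opE r p a b (dl 1))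

lemma suppIn_of_subset {K : Subgroup G} {p : r.P} (h : suppE r p ⊆ K) (a b : Fin 2) :
    SuppIn K (opE r p a b) := by
  intro g hg
  by_contra hne
  apply hg
  apply h
  simp only [suppE, Set.mem_iUnion]
  exact ⟨a, b, hne⟩

/-- States of the construction. -/
structure St where
  K : Subgroup G
  p : r.P
  countable : (K : Set G).Countable
  supp : ∀ a b, SuppIn K (opE r p a b)

/-- The transition relation. -/
structure Step (s t : St r) : Prop where
  le : s.K ≤ t.K
  lt : r.lt s.p t.p
  comm : ∀ k ∈ s.K, ∀ a b, lam k * opE r t.p a b = opE r t.p a b * lam k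
  icc : ∀ h ∈ s.K, h ≠ 1 → {x | ∃ k ∈ t.K, k * h * k⁻¹ = x}.Infinite

lemma exists_init : Nonempty (St r) :=
  ⟨⟨Subgroup.closure (suppE r r.p₀), r.p₀, countable_closure (suppE_countable r r.p₀),
    suppIn_of_subset r Subgroup.subset_closure⟩⟩

lemma exists_step (s : St r) : ∃ t : St r, Step r s t := by
  have hcK : Countable s.K := s.countable.to_subtype
  obtain ⟨f, hf⟩ := exists_surjective_nat s.K
  obtain ⟨q, hq, hcomm⟩ := r.exists_commute s.p (fun n => ⟨lam (f n).1, lam_mem _⟩)
  -- conjugators
  have hch : ∀ h : G, ∃ c : ℕ → G, h ≠ 1 → Function.Injective fun i => c i * h * (c i)⁻¹ := by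
    intro h
    by_cases hh : h = 1
    · exact ⟨fun _ => 1, fun hn => absurd hh hn⟩
    · have hinf := icc_of_center r.center hh
      have hx : ∀ i : ℕ, ∃ g : G, g * h * g⁻¹ = (hinf.natEmbedding _ i).1 := fun i =>
        (hinf.natEmbedding _ i).2
      choose c hc using hx
      refine ⟨c, fun _ i j hij => ?_⟩
      have h1 : (hinf.natEmbedding _ i).1 = (hinf.natEmbedding _ j).1 := by
        rw [← hc, ← hc]
        exact hij
      exact (hinf.natEmbedding _).injective (Subtype.ext h1)
  choose c hc using hch
  have hcount : ((s.K : Set G) ∪ suppE r q ∪ ⋃ h ∈ (s.K : Set G), Set.range (c h)).Countable :=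
    (s.countable.union (suppE_countable r q)).union
      (s.countable.biUnion fun h _ => Set.countable_range _)
  refine ⟨⟨Subgroup.closure ((s.K : Set G) ∪ suppE r q ∪ ⋃ h ∈ (s.K : Set G), Set.range (c h)), q,
    countable_closure hcount, suppIn_of_subset r ?_⟩, ?_, hq, ?_, ?_⟩
  · exact (Set.subset_union_right.trans Set.subset_union_left).trans Subgroup.subset_closure
  · exact (Set.subset_union_left.trans Set.subset_union_left).trans Subgroup.subset_closure
  · intro k hk a b
    obtain ⟨n, hn⟩ := hf ⟨k, hk⟩
    have h1 := congrArg Subtype.val (hcomm n a b)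
    have h2 : (f n).1 = k := congrArg Subtype.val hn
    rw [← h2]
    exact h1
  · intro h hh h1
    refine (Set.infinite_range_of_injective (hc h h1)).mono ?_
    rintro _ ⟨i, rfl⟩
    refine ⟨c h i, ?_, rfl⟩
    apply Subgroup.subset_closure
    apply Set.mem_union_right
    simp only [Set.mem_iUnion]
    exact ⟨h, hh, i, rfl⟩

/-- The sequence of states. -/
noncomputable def states : ℕ → St r
  | 0 => (exists_init r).some
  | n + 1 => (exists_step r (states n)).choose

lemma states_step (n : ℕ) : Step r (states r n) (states r (n + 1)) :=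
  (exists_step r (states r n)).choose_spec

/-- The tower. -/
noncomputable def tower : Tower G where
  K n := (states r n).K
  mono n := (states_step r n).le
  e n := opE r (states r n).p
  units n := opE_units r _
  rinv n := opE_rinv r _
  supp n := (states r n).supp
  comm n := (states_step r n).comm
  icc n := (states_step r n).icc

/-- The products of swaps as elements of the group von Neumann algebra. -/
noncomputable def ww : ℕ → (groupVN G).toStarSubalgebra
  | 0 => 1
  | n + 1 => ww n * swap (r.E (states r n).p) (r.E (states r (n + 1)).p)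

lemma ww_mem (n : ℕ) : ww r n ∈ r.U := by
  induction n with
  | zero => exact r.one_mem
  | succ n ih => exact r.swap_mem _ _ (states_step r n).lt _ ih

lemma coe_swap (e f : Fin 2 → Fin 2 → (groupVN G).toStarSubalgebra) :
    ((swap e f : (groupVN G).toStarSubalgebra) : ell2 G →L[ℂ] ell2 G) =
      swap (fun a b => (e a b).1) (fun a b => (f a b).1) := by
  unfold swap
  simp only [Fin.sum_univ_two]
  rfl

lemma coe_ww (n : ℕ) : (ww r n).1 = (tower r).w n := by
  induction n with
  | zero => rfl
  | succ n ih =>
    rw [Tower.w_succ, ← ih]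
    show (ww r n * swap (r.E (states r n).p) (r.E (states r (n + 1)).p)).1 = _
    rw [MulMemClass.coe_mul, coe_swap]
    rfl

include r in
/-- A group von Neumann algebra is not rich. -/
theorem false_of_rich : False := by
  -- enumerate the relations
  have hcount : ∀ n, Countable ((tower r).K n) := fun n => (states r n).countable.to_subtype
  obtain ⟨f, hf⟩ := exists_surjective_nat (Σ n, (tower r).K n)
  have hBmem : ∀ j, (tower r).w ((f j).1 + 1) * lam (f j).2.1 * star ((tower r).w ((f j).1 + 1)) ∈
      (groupVN G).toStarSubalgebra := by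
    intro j
    rw [← coe_ww]
    exact mul_mem (mul_mem (ww r _).2 (lam_mem _)) (star_mem (ww r _).2)
  obtain ⟨W, hW, hrel⟩ := r.diag (ww r) (ww_mem r) (fun j => ⟨lam (f j).2.1, lam_mem _⟩)
    (fun j => ⟨_, hBmem j⟩) (by
      intro j
      refine ⟨(f j).1 + 1, fun m hm => ?_⟩
      apply Subtype.ext
      show (ww r m).1 * lam (f j).2.1 = _ * (ww r m).1
      rw [coe_ww]
      exact (tower r).w_rel (f j).2.2 m hm)
  let D : Datum G :=
    { toTower := tower r
      W := W.1
      W_rinv := rInv_of_mem W.2
      W_rel := by
        intro n k hk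
        obtain ⟨j, hj⟩ := hf ⟨n, k, hk⟩
        have h1 := congrArg Subtype.val (hrel j)
        have h2 : W.1 * lam (f j).2.1 = (tower r).w ((f j).1 + 1) * lam (f j).2.1 *
            star ((tower r).w ((f j).1 + 1)) * W.1 := h1
        rw [hj] at h2
        exact h2 }
  exact hW (Subtype.ext D.W_eq_zero)

end Pool.Agent.MPa0a75b
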