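import Mathlib
import Pool.Agent.MPa0a75b.MatUnits

set_option autoImplicit false

/-!
# Tracial von Neumann algebras
-/

namespace Pool.Agent.MPa0a75b

open Filter Topology
open scoped ComplexOrder ComplexConjugate

universe u v

/-- A faithful tracial state `tr` on a unital C⋆-algebra `R` such that the closed unit ball of `R`
is complete for the norm `‖x‖₂ = tr(x* x)^(1/2)`. A C⋆-algebra with such a trace is the same
thing as a von Neumann algebra with a faithful normal tracial state. -/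
structure TracialVN (R : Type u) [CStarAlgebra R] where
  /-- the trace -/
  tr : R →ₗ[ℂ] ℂ
  tr_one : tr 1 = 1
  tr_nonneg : ∀ x, 0 ≤ tr (star x * x)
  faithful : ∀ x, tr (star x * x) = 0 → x = 0
  tr_comm : ∀ x y, tr (x * y) = tr (y * x)
  complete : ∀ u : ℕ → R, (∀ n, ‖u n‖ ≤ 1) →
    (∀ ε : ℝ, 0 < ε → ∃ N : ℕ, ∀ m ≥ N, ∀ n ≥ N,
      Real.sqrt (tr (star (u m - u n) * (u m - u n))).re < ε) →
    ∃ x, ‖x‖ ≤ 1 ∧ ∀ ε : ℝ, 0 < ε → ∃ N : ℕ, ∀ n ≥ N,
      Real.sqrt (tr (star (u n - x) * (u n - x))).re < ε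

namespace TracialVN

variable {R : Type u} [CStarAlgebra R] (τ : TracialVN R)

/-- The norm `‖x‖₂ = tr(x* x)^(1/2)`. -/
noncomputable def norm2 (x : R) : ℝ := Real.sqrt (τ.tr (star x * x)).re

lemma norm2_nonneg (x : R) : 0 ≤ τ.norm2 x := Real.sqrt_nonneg _

lemma re_nonneg (x : R) : 0 ≤ (τ.tr (star x * x)).re := (Complex.nonneg_iff.mp (τ.tr_nonneg x)).1

lemma im_zero (x : R) : (τ.tr (star x * x)).im = 0 :=
  (Complex.nonneg_iff.mp (τ.tr_nonneg x)).2.symm

lemma norm2_sq (x : R) : τ.norm2 x ^ 2 = (τ.tr (star x * x)).re := Real.sq_sqrt (τ.re_nonneg x)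

lemma tr_star (x : R) : τ.tr (star x) = conj (τ.tr x) := by
  have h1 := τ.im_zero (1 + x)
  have h2 := τ.im_zero (1 + Complex.I • x)
  have h3 := τ.im_zero x
  have e1 : star (1 + x) * (1 + x) = 1 + x + star x + star x * x := by
    rw [star_add, star_one]
    noncomm_ring
  have e2 : star (1 + Complex.I • x) * (1 + Complex.I • x) =
      1 + Complex.I • x - Complex.I • star x + star x * x := by
    rw [star_add, star_one, star_smul, Complex.star_def, Complex.conj_I, add_mul, mul_add, mul_add,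
      one_mul, mul_one, smul_mul_smul_comm, one_mul, neg_mul, Complex.I_mul_I, neg_neg, one_smul,
      neg_smul]
    abel
  rw [e1, map_add, map_add, map_add, τ.tr_one] at h1
  rw [e2, map_add, map_sub, map_add, map_smul, map_smul, τ.tr_one] at h2
  simp only [Complex.add_im, Complex.sub_im, Complex.one_im, smul_eq_mul, Complex.mul_im,
    Complex.I_re, Complex.I_im, zero_mul, one_mul, zero_add, h3, add_zero] at h1 h2
  apply Complex.ext
  · rw [Complex.conj_re]
    linarith
  · rw [Complex.conj_im]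
    linarith

/-- The inner product. -/
@[reducible] noncomputable def core : PreInnerProductSpace.Core ℂ R where
  inner x y := τ.tr (star x * y)
  conj_inner_symm x y := by
    show conj (τ.tr (star y * x)) = τ.tr (star x * y)
    rw [← τ.tr_star, star_mul, star_star]
  re_inner_nonneg x := τ.re_nonneg x
  add_left x y z := by
    show τ.tr (star (x + y) * z) = τ.tr (star x * z) + τ.tr (star y * z)
    rw [star_add, add_mul, map_add]
  smul_left x y r := by
    show τ.tr (star (r • x) * y) = conj r * τ.tr (star x * y)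
    rw [star_smul, smul_mul_assoc, map_smul]
    rfl

lemma norm2_add_le (x y : R) : τ.norm2 (x + y) ≤ τ.norm2 x + τ.norm2 y :=
  @norm_add_le R
    (@InnerProductSpace.Core.toSeminormedAddCommGroup ℂ R _ _ _ τ.core).toSeminormedAddGroup x y

lemma norm2_neg (x : R) : τ.norm2 (-x) = τ.norm2 x := by
  unfold norm2
  rw [star_neg, neg_mul_neg]

lemma norm2_sub_le (x y : R) : τ.norm2 (x - y) ≤ τ.norm2 x + τ.norm2 y := by
  rw [sub_eq_add_neg, ← τ.norm2_neg y]
  exact τ.norm2_add_le x (-y)

lemma norm2_zero : τ.norm2 0 = 0 := by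
  unfold norm2
  rw [mul_zero, map_zero, Complex.zero_re, Real.sqrt_zero]

lemma norm2_one : τ.norm2 1 = 1 := by
  unfold norm2
  rw [mul_one, star_one, τ.tr_one, Complex.one_re, Real.sqrt_one]

lemma norm2_star (x : R) : τ.norm2 (star x) = τ.norm2 x := by
  unfold norm2
  rw [star_star, τ.tr_comm]

lemma eq_zero_of_norm2 {x : R} (h : τ.norm2 x = 0) : x = 0 := by
  apply τ.faithful
  apply Complex.ext
  · have := τ.norm2_sq x
    rw [h] at this
    rw [← this]
    simp
  · rw [τ.im_zero]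
    rfl

lemma norm2_smul (c : ℂ) (x : R) : τ.norm2 (c • x) = ‖c‖ * τ.norm2 x := by
  have h1 : star (c • x) * (c • x) = ((‖c‖ ^ 2 : ℝ) : ℂ) • (star x * x) := by
    rw [star_smul, smul_mul_smul_comm]
    congr 1
    rw [Complex.star_def, Complex.conj_mul']
    push_cast
    rfl
  unfold norm2
  rw [h1, map_smul, smul_eq_mul, Complex.re_ofReal_mul, Real.sqrt_mul (by positivity),
    Real.sqrt_sq (norm_nonneg _)]

lemma norm2_mul_le (a x : R) : τ.norm2 (a * x) ≤ ‖a‖ * τ.norm2 x := by
  let _ := CStarAlgebra.spectralOrder R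
  have _ := CStarAlgebra.spectralOrderedRing R
  have h1 : star a * a ≤ algebraMap ℝ R (‖a‖ ^ 2) := CStarAlgebra.star_mul_le_algebraMap_norm_sq
  obtain ⟨b, hb⟩ := CStarAlgebra.nonneg_iff_eq_star_mul_self.mp (sub_nonneg.mpr h1)
  have h2 : star (b * x) * (b * x) + star (a * x) * (a * x) = (‖a‖ ^ 2 : ℝ) • (star x * x) := by
    calc star (b * x) * (b * x) + star (a * x) * (a * x)
        = star x * (star b * b) * x + star x * (star a * a) * x := by
          rw [star_mul, star_mul]
          simp only [mul_assoc]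
      _ = star x * (algebraMap ℝ R (‖a‖ ^ 2)) * x := by
          rw [← hb]
          noncomm_ring
      _ = (‖a‖ ^ 2 : ℝ) • (star x * x) := by
          rw [Algebra.algebraMap_eq_smul_one, mul_smul_comm, mul_one, smul_mul_assoc]
  have h3 := congrArg (fun y => (τ.tr y).re) h2
  have h4 : (τ.tr ((‖a‖ ^ 2 : ℝ) • (star x * x))).re = ‖a‖ ^ 2 * (τ.tr (star x * x)).re := by
    have : ((‖a‖ ^ 2 : ℝ) • (star x * x)) = (((‖a‖ ^ 2 : ℝ) : ℂ)) • (star x * x) := by
      rw [Complex.coe_smul]
    rw [this, map_smul, smul_eq_mul, Complex.re_ofReal_mul]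
  simp only [map_add, Complex.add_re, h4] at h3
  have h5 := τ.re_nonneg (b * x)
  apply le_of_sq_le_sq _ (mul_nonneg (norm_nonneg _) (τ.norm2_nonneg _))
  rw [mul_pow, τ.norm2_sq, τ.norm2_sq]
  linarith

lemma norm2_mul_le' (x a : R) : τ.norm2 (x * a) ≤ τ.norm2 x * ‖a‖ := by
  rw [← τ.norm2_star, star_mul, ← τ.norm2_star x, mul_comm _ ‖a‖, ← norm_star a]
  exact τ.norm2_mul_le _ _

lemma norm2_unitary_mul {u : R} (hu : star u * u = 1) (x : R) : τ.norm2 (u * x) = τ.norm2 x := by
  unfold norm2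
  rw [star_mul, mul_assoc, ← mul_assoc (star u), hu, one_mul]

lemma norm2_mul_unitary {u : R} (hu : u * star u = 1) (x : R) : τ.norm2 (x * u) = τ.norm2 x := by
  rw [← τ.norm2_star, star_mul, τ.norm2_unitary_mul (by rwa [star_star]), τ.norm2_star]

/-- `R` is the hyperfinite II₁ factor: it is generated, in the norm `‖·‖₂`, by a commuting
sequence of copies of the `2 × 2` matrix algebra. -/
def IsHyperfinite : Prop :=
  ∃ e : ℕ → Fin 2 → Fin 2 → R, (∀ n, IsMatUnits (e n)) ∧
    (∀ m n, m ≠ n → ∀ a b c d, e m a b * e n c d = e n c d * e m a b) ∧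
    ∀ (x : R) (ε : ℝ), 0 < ε →
      ∃ y ∈ Algebra.adjoin ℂ {z | ∃ n a b, z = e n a b}, τ.norm2 (x - y) < ε

end TracialVN

end Pool.Agent.MPa0a75b
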