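import Mathlib
import Pool.Agent.MPa0a75b.Trace

set_option autoImplicit false

/-!
# Definitions used in the statement for MP_a0a75b_an
-/

namespace Pool.Agent.MPa0a75b

open Filter Topology

universe u v w

/-- Bounded sequences, the elements of `ℓ^∞(ℕ, R)`. -/
def IsBdd {R : Type u} [CStarAlgebra R] (x : ℕ → R) : Prop := ∃ C : ℝ, ∀ n, ‖x n‖ ≤ C

/-- The unital `*`-algebra `M` is (a model of) the tracial ultrapower
`R^ω = ℓ^∞(ℕ, R) / {x : lim_ω ‖x n‖₂ = 0}`, with quotient map `π`: the map `π` restricted to the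
bounded sequences is a unital `*`-homomorphism onto `M`, and its kernel consists of the bounded
sequences `x` with `lim_ω ‖x n‖₂ = 0`. (The values of `π` at unbounded sequences are
irrelevant.) -/
structure IsUltrapowerMap {R : Type u} [CStarAlgebra R] (τ : TracialVN R) (ω : Ultrafilter ℕ)
    {M : Type v} [Ring M] [StarRing M] [Algebra ℂ M] (π : (ℕ → R) → M) : Prop where
  map_one : π 1 = 1
  map_add : ∀ x y, IsBdd x → IsBdd y → π (x + y) = π x + π y
  map_mul : ∀ x y, IsBdd x → IsBdd y → π (x * y) = π x * π y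
  map_smul : ∀ (c : ℂ) x, IsBdd x → π (c • x) = c • π x
  map_star : ∀ x, IsBdd x → π (star x) = star (π x)
  surjective : ∀ m, ∃ x, IsBdd x ∧ π x = m
  ker : ∀ x, IsBdd x → (π x = 0 ↔ Tendsto (fun n => τ.norm2 (x n)) (ω : Filter ℕ) (𝓝 0))

/-- The group von Neumann algebra `L(G)`, acting on a Hilbert space `H` with orthonormal basis
`(b x)_{x ∈ G}` (that is, on `ℓ²(G)`): the double commutant of the set of the operators `λ_g`,
`g ∈ G`, where `λ_g (b x) = b (g x)`. -/
def groupVonNeumann {G : Type u} [Group G] {H : Type v} [NormedAddCommGroup H]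
    [InnerProductSpace ℂ H] (b : HilbertBasis G ℂ H) : Set (H →L[ℂ] H) :=
  Set.centralizer (Set.centralizer {T | ∃ g : G, ∀ x : G, T (b x) = b (g * x)})

/-- The unital `*`-algebra `M` is `*`-isomorphic to the group von Neumann algebra
`groupVonNeumann b`. -/
def IsGroupVonNeumann (M : Type w) [Ring M] [StarRing M] [Algebra ℂ M] {G : Type u} [Group G]
    {H : Type v} [NormedAddCommGroup H] [InnerProductSpace ℂ H] [CompleteSpace H]
    (b : HilbertBasis G ℂ H) : Prop :=
  ∃ ι : M →⋆ₐ[ℂ] (H →L[ℂ] H), Function.Injective ι ∧ Set.range ι = groupVonNeumann b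

end Pool.Agent.MPa0a75b
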