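import Mathlib
import Pool.Agent.MPa0a75b.Trace

set_option autoImplicit false

/-!
# The hyperfinite II₁ factor: asymptotic centrality and averaging
-/

namespace Pool.Agent.MPa0a75b

open Filter Topology
open scoped ComplexOrder ComplexConjugate

universe u v

variable {R : Type u} [CStarAlgebra R]

lemma IsMatUnits.norm_le' {e : Fin 2 → Fin 2 → R} (he : IsMatUnits e) (a b : Fin 2) :
    ‖e a b‖ ≤ 1 := by
  have h1 : ∀ a b, ‖e a b‖ * ‖e a b‖ = ‖e b b‖ := by
    intro a b
    rw [← CStarRing.norm_star_mul_self, he.star_eq, he.mul_same]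
  have h2 : ‖e b b‖ ≤ 1 := by
    have h3 := h1 b b
    by_contra h4
    push Not at h4
    nlinarith
  have h5 := h1 a b
  by_contra h6
  push Not at h6
  nlinarith

/-- Unitary elements. -/
def IsUni (u : R) : Prop := star u * u = 1 ∧ u * star u = 1

lemma IsUni.one : IsUni (1 : R) := ⟨by simp, by simp⟩

lemma IsUni.mul {u v : R} (hu : IsUni u) (hv : IsUni v) : IsUni (u * v) := by
  constructor
  · rw [star_mul]
    calc star v * star u * (u * v) = star v * (star u * u) * v := by simp only [mul_assoc]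
      _ = 1 := by rw [hu.1, mul_one, hv.1]
  · rw [star_mul]
    calc u * v * (star v * star u) = u * (v * star v) * star u := by simp only [mul_assoc]
      _ = 1 := by rw [hv.2, mul_one, hu.2]

/-- The unitary orbit. -/
def orbit (y : R) : Set R := {z | ∃ u, IsUni u ∧ z = u * y * star u}

/-- The convex hull of the unitary orbit. -/
noncomputable def hull (y : R) : Set R := convexHull ℝ (orbit y)

lemma conj_mem_hull {u : R} (hu : IsUni u) {y z : R} (hz : z ∈ hull y) :
    u * z * star u ∈ hull y := by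
  let f : R →ₗ[ℝ] R := (LinearMap.mulLeft ℝ u).comp (LinearMap.mulRight ℝ (star u))
  have hf : ∀ z, f z = u * z * star u := fun z => by simp [f, mul_assoc]
  have h1 : f '' hull y ⊆ hull y := by
    unfold hull
    rw [f.image_convexHull]
    apply convexHull_mono
    rintro _ ⟨_, ⟨v, hv, rfl⟩, rfl⟩
    refine ⟨u * v, hu.mul hv, ?_⟩
    rw [hf, star_mul]
    simp only [mul_assoc]
  rw [← hf]
  exact h1 ⟨z, hz, rfl⟩

lemma hull_subset {y z : R} (hz : z ∈ hull y) : hull z ⊆ hull y := by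
  apply convexHull_min _ (convex_convexHull ℝ _)
  rintro _ ⟨u, hu, rfl⟩
  exact conj_mem_hull hu hz

lemma self_mem_hull (y : R) : y ∈ hull y :=
  subset_convexHull ℝ _ ⟨1, IsUni.one, by simp⟩

lemma avg_mem_hull {u : R} (hu : IsUni u) (y : R) :
    (1 / 2 : ℝ) • (y + u * y * star u) ∈ hull y := by
  rw [smul_add]
  exact (convex_convexHull ℝ (orbit y)) (self_mem_hull y)
    (subset_convexHull ℝ _ ⟨u, hu, rfl⟩) (by norm_num) (by norm_num) (by norm_num)

section

variable {e : Fin 2 → Fin 2 → R} (he : IsMatUnits e)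

include he

lemma uni_Z : IsUni (e 0 0 - e 1 1) := by
  have h1 : star (e 0 0 - e 1 1) = e 0 0 - e 1 1 := by
    rw [star_sub, he.star_eq, he.star_eq]
  have h2 : (e 0 0 - e 1 1) * (e 0 0 - e 1 1) = 1 := by
    simp only [sub_mul, mul_sub, he.mul_eq]
    simp
    exact he.sum_one
  exact ⟨by rw [h1, h2], by rw [h1, h2]⟩

lemma uni_X : IsUni (e 0 1 + e 1 0) := by
  have h1 : star (e 0 1 + e 1 0) = e 0 1 + e 1 0 := by
    rw [star_add, he.star_eq, he.star_eq, add_comm]
  have h2 : (e 0 1 + e 1 0) * (e 0 1 + e 1 0) = 1 := by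
    simp only [add_mul, mul_add, he.mul_eq]
    simp
    rw [add_comm]
    exact he.sum_one
  exact ⟨by rw [h1, h2], by rw [h1, h2]⟩

/-- Averaging removes one tensor factor. -/
lemma avg_matUnits {y : Fin 2 → Fin 2 → R} (hc : ∀ a b c d, Commute (e a b) (y c d)) :
    (1 / 2 : ℝ) • (y 0 0 + y 1 1) ∈ hull (∑ a, ∑ b, y a b * e a b) := by
  have hZ := uni_Z he
  have hX := uni_X he
  have hZs : star (e 0 0 - e 1 1) = e 0 0 - e 1 1 := by
    rw [star_sub, he.star_eq, he.star_eq]
  have hXs : star (e 0 1 + e 1 0) = e 0 1 + e 1 0 := by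
    rw [star_add, he.star_eq, he.star_eq, add_comm]
  have hmove : ∀ a b c d s t i j, e a b * (y i j * e c d) * e s t =
      y i j * (e a b * e c d * e s t) := by
    intro a b c d s t i j
    rw [← mul_assoc, (hc a b i j).eq]
    simp only [mul_assoc]
  have h1 : (e 0 0 - e 1 1) * (∑ a, ∑ b, y a b * e a b) * star (e 0 0 - e 1 1) =
      y 0 0 * e 0 0 - y 0 1 * e 0 1 - y 1 0 * e 1 0 + y 1 1 * e 1 1 := by
    rw [hZs]
    simp only [Fin.sum_univ_two, sub_mul, mul_sub, mul_add, add_mul, hmove]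
    simp [he.mul_eq]
    abel
  have h2 : (1 / 2 : ℝ) • ((∑ a, ∑ b, y a b * e a b) +
      (e 0 0 - e 1 1) * (∑ a, ∑ b, y a b * e a b) * star (e 0 0 - e 1 1)) =
      y 0 0 * e 0 0 + y 1 1 * e 1 1 := by
    rw [h1]
    simp only [Fin.sum_univ_two]
    have h3 : y 0 0 * e 0 0 + y 0 1 * e 0 1 + (y 1 0 * e 1 0 + y 1 1 * e 1 1) +
        (y 0 0 * e 0 0 - y 0 1 * e 0 1 - y 1 0 * e 1 0 + y 1 1 * e 1 1) =
        (2 : ℝ) • (y 0 0 * e 0 0 + y 1 1 * e 1 1) := by
      rw [two_smul]
      abel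
    rw [h3, smul_smul]
    norm_num
  have h3 : (e 0 1 + e 1 0) * (y 0 0 * e 0 0 + y 1 1 * e 1 1) * star (e 0 1 + e 1 0) =
      y 0 0 * e 1 1 + y 1 1 * e 0 0 := by
    rw [hXs]
    simp only [mul_add, add_mul, hmove]
    simp [he.mul_eq]
  have h4 : (1 / 2 : ℝ) • ((y 0 0 * e 0 0 + y 1 1 * e 1 1) +
      (e 0 1 + e 1 0) * (y 0 0 * e 0 0 + y 1 1 * e 1 1) * star (e 0 1 + e 1 0)) =
      (1 / 2 : ℝ) • (y 0 0 + y 1 1) := by
    rw [h3]
    congr 1
    calc y 0 0 * e 0 0 + y 1 1 * e 1 1 + (y 0 0 * e 1 1 + y 1 1 * e 0 0)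
        = (y 0 0 + y 1 1) * (e 0 0 + e 1 1) := by noncomm_ring
      _ = y 0 0 + y 1 1 := by rw [he.sum_one, mul_one]
  have h5 := avg_mem_hull hZ (∑ a, ∑ b, y a b * e a b)
  rw [h2] at h5
  have h6 := avg_mem_hull hX (y 0 0 * e 0 0 + y 1 1 * e 1 1)
  rw [h4] at h6
  exact hull_subset h5 h6

end

section seq

variable {e : ℕ → Fin 2 → Fin 2 → R} (he : ∀ n, IsMatUnits (e n))
  (hcomm : ∀ m n, m ≠ n → ∀ a b c d, e m a b * e n c d = e n c d * e m a b)

/-- The algebra generated by the first `N` systems. -/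
def alg (e : ℕ → Fin 2 → Fin 2 → R) (N : ℕ) : Subalgebra ℂ R :=
  Algebra.adjoin ℂ {z | ∃ n < N, ∃ a b, z = e n a b}

lemma alg_mono {M N : ℕ} (h : M ≤ N) : alg e M ≤ alg e N := by
  apply Algebra.adjoin_mono
  rintro z ⟨n, hn, a, b, rfl⟩
  exact ⟨n, by omega, a, b, rfl⟩

lemma mem_alg_of_mem_adjoin {y : R} (hy : y ∈ Algebra.adjoin ℂ {z | ∃ n a b, z = e n a b}) :
    ∃ N, y ∈ alg e N := by
  induction hy using Algebra.adjoin_induction with
  | mem z hz =>
    obtain ⟨n, a, b, rfl⟩ := hz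
    exact ⟨n + 1, Algebra.subset_adjoin ⟨n, by omega, a, b, rfl⟩⟩
  | algebraMap c => exact ⟨0, Subalgebra.algebraMap_mem _ c⟩
  | add x y _ _ hx hy =>
    obtain ⟨M, hM⟩ := hx
    obtain ⟨N, hN⟩ := hy
    exact ⟨max M N, add_mem (alg_mono (le_max_left _ _) hM) (alg_mono (le_max_right _ _) hN)⟩
  | mul x y _ _ hx hy =>
    obtain ⟨M, hM⟩ := hx
    obtain ⟨N, hN⟩ := hy
    exact ⟨max M N, mul_mem (alg_mono (le_max_left _ _) hM) (alg_mono (le_max_right _ _) hN)⟩

include hcomm

lemma alg_comm {N m : ℕ} (hm : N ≤ m) {y : R} (hy : y ∈ alg e N) (a b : Fin 2) :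
    e m a b * y = y * e m a b := by
  unfold alg at hy
  induction hy using Algebra.adjoin_induction with
  | mem z hz =>
    obtain ⟨n, hn, c, d, rfl⟩ := hz
    exact hcomm m n (by omega) a b c d
  | algebraMap c => exact (Algebra.commutes c (e m a b)).symm
  | add x y _ _ hx hy => rw [mul_add, add_mul, hx, hy]
  | mul x y _ _ hx hy => rw [← mul_assoc, hx, mul_assoc, hy, mul_assoc]

include he

/-- Decomposition along the last tensor factor. -/
lemma alg_decomp {N : ℕ} {y : R} (hy : y ∈ alg e (N + 1)) :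
    ∃ z : Fin 2 → Fin 2 → R, (∀ a b, z a b ∈ alg e N) ∧ y = ∑ a, ∑ b, z a b * e N a b := by
  unfold alg at hy
  induction hy using Algebra.adjoin_induction with
  | mem w hw =>
    obtain ⟨n, hn, c, d, rfl⟩ := hw
    rcases Nat.lt_succ_iff_lt_or_eq.mp hn with h | h
    · refine ⟨fun a b => if a = b then e n c d else 0, fun a b => ?_, ?_⟩
      · show (if a = b then e n c d else 0) ∈ alg e N
        split_ifs
        · exact Algebra.subset_adjoin ⟨n, h, c, d, rfl⟩
        · exact zero_mem _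
      · simp only [Fin.sum_univ_two]
        simp
        rw [← mul_add, (he N).sum_one, mul_one]
    · refine ⟨fun a b => if a = c ∧ b = d then 1 else 0, fun a b => ?_, ?_⟩
      · show (if a = c ∧ b = d then (1 : R) else 0) ∈ alg e N
        split_ifs
        · exact one_mem _
        · exact zero_mem _
      · subst h
        simp only [Fin.sum_univ_two]
        fin_cases c <;> fin_cases d <;> simp
  | algebraMap c =>
    refine ⟨fun a b => if a = b then algebraMap ℂ R c else 0, fun a b => ?_, ?_⟩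
    · show (if a = b then algebraMap ℂ R c else 0) ∈ alg e N
      split_ifs
      · exact Subalgebra.algebraMap_mem _ c
      · exact zero_mem _
    · simp only [Fin.sum_univ_two]
      simp
      rw [← mul_add, (he N).sum_one, mul_one]
  | add x y _ _ hx hy =>
    obtain ⟨z, hz, rfl⟩ := hx
    obtain ⟨w, hw, rfl⟩ := hy
    refine ⟨fun a b => z a b + w a b, fun a b => add_mem (hz a b) (hw a b), ?_⟩
    simp only [add_mul, Finset.sum_add_distrib]
  | mul x y _ _ hx hy =>
    obtain ⟨z, hz, rfl⟩ := hx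
    obtain ⟨w, hw, rfl⟩ := hy
    refine ⟨fun a d => ∑ b, z a b * w b d, fun a d =>
      sum_mem fun b _ => mul_mem (hz a b) (hw b d), ?_⟩
    have h : ∀ a b c d, z a b * e N a b * (w c d * e N c d) =
        z a b * w c d * (e N a b * e N c d) := by
      intro a b c d
      have h1 := alg_comm hcomm le_rfl (hw c d) a b
      calc z a b * e N a b * (w c d * e N c d) = z a b * (e N a b * w c d) * e N c d := by
            simp only [mul_assoc]
        _ = z a b * w c d * (e N a b * e N c d) := by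
            rw [h1]
            simp only [mul_assoc]
    simp only [Fin.sum_univ_two, add_mul, mul_add, h, (he N).mul_eq]
    simp
    abel

/-- The Dixmier property for elements of the algebra generated by the matrix units. -/
lemma exists_scalar_mem_hull {N : ℕ} {y : R} (hy : y ∈ alg e N) :
    ∃ c : ℂ, algebraMap ℂ R c ∈ hull y := by
  induction N generalizing y with
  | zero =>
    have h1 : alg e 0 = ⊥ := by
      unfold alg
      have : {z : R | ∃ n < 0, ∃ a b, z = e n a b} = ∅ := by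
        ext z
        simp
      rw [this, Algebra.adjoin_empty]
    rw [h1, Algebra.mem_bot] at hy
    obtain ⟨c, rfl⟩ := hy
    exact ⟨c, self_mem_hull _⟩
  | succ N ih =>
    obtain ⟨z, hz, rfl⟩ := alg_decomp he hcomm hy
    have h1 := avg_matUnits (he N) (y := z) (fun a b c d => alg_comm hcomm le_rfl (hz c d) a b)
    have h2 : (1 / 2 : ℝ) • (z 0 0 + z 1 1) ∈ alg e N := by
      have h3 : (1 / 2 : ℝ) • (z 0 0 + z 1 1) = (1 / 2 : ℂ) • (z 0 0 + z 1 1) := by
        rw [← Complex.coe_smul]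
        norm_num
      rw [h3]
      exact Subalgebra.smul_mem _ (add_mem (hz 0 0) (hz 1 1)) _
    obtain ⟨c, hc⟩ := ih h2
    exact ⟨c, hull_subset h1 hc⟩

end seq

namespace TracialVN

variable (τ : TracialVN R)

lemma tr_hull {y z : R} (hz : z ∈ hull y) : τ.tr z = τ.tr y := by
  have h1 : hull y ⊆ {z | τ.tr z = τ.tr y} := by
    apply convexHull_min
    · rintro _ ⟨u, hu, rfl⟩
      show τ.tr (u * y * star u) = τ.tr y
      rw [τ.tr_comm, ← mul_assoc, hu.1, one_mul]
    · intro a ha b hb s t hs ht hst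
      show τ.tr (s • a + t • b) = τ.tr y
      have e1 : ∀ (s : ℝ) (a : R), s • a = (s : ℂ) • a := fun s a => (Complex.coe_smul s a).symm
      rw [e1, e1, map_add, map_smul, map_smul]
      change τ.tr a = τ.tr y at ha
      change τ.tr b = τ.tr y at hb
      rw [ha, hb, ← add_smul, ← Complex.ofReal_add, hst, Complex.ofReal_one, one_smul]
  exact h1 hz

lemma exists_of_hull {y z : R} (hz : z ∈ hull y) :
    ∃ u, IsUni u ∧ τ.norm2 (y - z) ≤ τ.norm2 (u * y - y * u) := by
  have hconv : ConvexOn ℝ (convexHull ℝ (orbit y)) (fun z => τ.norm2 (y - z)) := by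
    refine ⟨convex_convexHull ℝ _, ?_⟩
    intro a _ b _ s t hs ht hst
    show τ.norm2 (y - (s • a + t • b)) ≤ s • τ.norm2 (y - a) + t • τ.norm2 (y - b)
    have h1 : y - (s • a + t • b) = s • (y - a) + t • (y - b) := by
      have h2 : y = s • y + t • y := by rw [← add_smul, hst, one_smul]
      rw [smul_sub, smul_sub]
      nth_rewrite 1 [h2]
      abel
    rw [h1]
    refine (τ.norm2_add_le _ _).trans (le_of_eq ?_)
    have e1 : ∀ (s : ℝ) (a : R), s • a = (s : ℂ) • a := fun s a => (Complex.coe_smul s a).symm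
    rw [e1, e1, τ.norm2_smul, τ.norm2_smul, Complex.norm_real, Complex.norm_real,
      Real.norm_of_nonneg hs, Real.norm_of_nonneg ht]
    rfl
  obtain ⟨_, ⟨u, hu, rfl⟩, h⟩ := hconv.exists_ge_of_mem_convexHull (subset_convexHull ℝ _) hz
  refine ⟨u, hu, h.trans (le_of_eq ?_)⟩
  have h2 : y * u - u * y = (y - u * y * star u) * u := by
    rw [sub_mul, mul_assoc (u * y), hu.1, mul_one]
  rw [← τ.norm2_mul_unitary hu.2, ← h2, ← τ.norm2_neg, neg_sub]

lemma abs_tr_le (x : R) : ‖τ.tr x‖ ≤ τ.norm2 x := by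
  have h := @InnerProductSpace.Core.norm_inner_le_norm ℂ R _ _ _ τ.core 1 x
  have h1 : ‖τ.tr (star 1 * x)‖ ≤ τ.norm2 1 * τ.norm2 x := h
  rwa [star_one, one_mul, τ.norm2_one, one_mul] at h1

/-- Uniform Dixmier averaging. -/
lemma avg (hR : τ.IsHyperfinite) (x : R) {ε : ℝ} (hε : 0 < ε) :
    ∃ u, IsUni u ∧ τ.norm2 (x - algebraMap ℂ R (τ.tr x)) ≤ τ.norm2 (u * x - x * u) + ε := by
  obtain ⟨e, he, hcomm, hdense⟩ := hR
  obtain ⟨y, hy, hxy⟩ := hdense x (ε / 4) (by positivity)
  obtain ⟨N, hN⟩ := mem_alg_of_mem_adjoin hy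
  obtain ⟨c, hc⟩ := exists_scalar_mem_hull he hcomm hN
  obtain ⟨u, hu, hle⟩ := τ.exists_of_hull hc
  have htr : c = τ.tr y := by
    rw [← τ.tr_hull hc, Algebra.algebraMap_eq_smul_one, map_smul, τ.tr_one, smul_eq_mul, mul_one]
  refine ⟨u, hu, ?_⟩
  have h1 : x - algebraMap ℂ R (τ.tr x) =
      (x - y) + (y - algebraMap ℂ R c) + algebraMap ℂ R (c - τ.tr x) := by
    rw [map_sub]
    abel
  have h2 : τ.norm2 (algebraMap ℂ R (c - τ.tr x)) ≤ ε / 4 := by
    rw [Algebra.algebraMap_eq_smul_one, τ.norm2_smul, τ.norm2_one, mul_one, htr, ← map_sub]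
    refine (τ.abs_tr_le _).trans ?_
    rw [← τ.norm2_neg, neg_sub]
    exact hxy.le
  have h3 : u * y - y * u = (u * x - x * u) - (u * (x - y) - (x - y) * u) := by noncomm_ring
  have h4 : τ.norm2 (u * y - y * u) ≤ τ.norm2 (u * x - x * u) + (ε / 4 + ε / 4) := by
    rw [h3]
    refine (τ.norm2_sub_le _ _).trans (add_le_add le_rfl ?_)
    refine (τ.norm2_sub_le _ _).trans (add_le_add ?_ ?_)
    · rw [τ.norm2_unitary_mul hu.1]
      exact hxy.le
    · rw [τ.norm2_mul_unitary hu.2]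
      exact hxy.le
  calc τ.norm2 (x - algebraMap ℂ R (τ.tr x))
      ≤ τ.norm2 (x - y) + τ.norm2 (y - algebraMap ℂ R c) + τ.norm2 (algebraMap ℂ R (c - τ.tr x)) := by
        rw [h1]
        exact (τ.norm2_add_le _ _).trans (add_le_add (τ.norm2_add_le _ _) le_rfl)
    _ ≤ ε / 4 + (τ.norm2 (u * x - x * u) + (ε / 4 + ε / 4)) + ε / 4 :=
        add_le_add (add_le_add hxy.le (hle.trans h4)) h2
    _ = τ.norm2 (u * x - x * u) + ε := by ring

end TracialVN

end Pool.Agent.MPa0a75b
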