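import Mathlib
import Pool.Agent.MPa0a75b.Hyper
import Pool.Agent.MPa0a75b.Rich

set_option autoImplicit false

/-!
# The tracial ultrapower
-/

namespace Pool.Agent.MPa0a75b

open Filter Topology
open scoped ComplexOrder ComplexConjugate

universe u v

variable {R : Type u} [CStarAlgebra R]

/-- The `*`-algebra of bounded sequences in `R`, with pointwise operations. -/
def bddSeq (R : Type u) [CStarAlgebra R] : StarSubalgebra ℂ (ℕ → R) where
  carrier := {x | ∃ C : ℝ, ∀ n, ‖x n‖ ≤ C}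
  mul_mem' := by
    rintro x y ⟨C, hC⟩ ⟨D, hD⟩
    exact ⟨C * D, fun n => (norm_mul_le _ _).trans
      (mul_le_mul (hC n) (hD n) (norm_nonneg _) ((norm_nonneg _).trans (hC n)))⟩
  add_mem' := by
    rintro x y ⟨C, hC⟩ ⟨D, hD⟩
    exact ⟨C + D, fun n => (norm_add_le _ _).trans (add_le_add (hC n) (hD n))⟩
  algebraMap_mem' := fun c => ⟨‖algebraMap ℂ R c‖, fun _ => le_rfl⟩
  star_mem' := by
    rintro x ⟨C, hC⟩
    exact ⟨C, fun n => by
      show ‖star (x n)‖ ≤ C
      rw [norm_star]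
      exact hC n⟩

namespace TracialVN

variable (τ : TracialVN R) (ω : Ultrafilter ℕ)

/-- The ideal of the bounded sequences `x` with `lim_ω ‖x n‖₂ = 0`. -/
def nullIdeal : Ideal (bddSeq R) where
  carrier := {x | Tendsto (fun n => τ.norm2 (x.1 n)) ω (𝓝 0)}
  add_mem' := by
    intro x y hx hy
    have h : Tendsto (fun n => τ.norm2 (x.1 n) + τ.norm2 (y.1 n)) ω (𝓝 0) := by
      simpa using Tendsto.add hx hy
    exact squeeze_zero (fun n => τ.norm2_nonneg _) (fun n => τ.norm2_add_le _ _) h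
  zero_mem' := by
    show Tendsto (fun _ : ℕ => τ.norm2 (0 : R)) (ω : Filter ℕ) (𝓝 0)
    rw [τ.norm2_zero]
    exact tendsto_const_nhds
  smul_mem' := by
    intro c x hx
    obtain ⟨C, hC⟩ := c.2
    have h : Tendsto (fun n => C * τ.norm2 (x.1 n)) ω (𝓝 0) := by
      simpa using Tendsto.const_mul C hx
    exact squeeze_zero (fun n => τ.norm2_nonneg _) (fun n => (τ.norm2_mul_le _ _).trans
      (mul_le_mul_of_nonneg_right (hC n) (τ.norm2_nonneg _))) h

lemma mem_nullIdeal {x : bddSeq R} :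
    x ∈ τ.nullIdeal ω ↔ Tendsto (fun n => τ.norm2 (x.1 n)) ω (𝓝 0) := Iff.rfl

instance : (τ.nullIdeal ω).IsTwoSided where
  mul_mem_of_left := by
    intro x c hx
    obtain ⟨C, hC⟩ := c.2
    have h : Tendsto (fun n => τ.norm2 (x.1 n) * C) ω (𝓝 0) := by
      simpa using Tendsto.mul_const C hx
    exact squeeze_zero (fun n => τ.norm2_nonneg _) (fun n => (τ.norm2_mul_le' _ _).trans
      (mul_le_mul_of_nonneg_left (hC n) (τ.norm2_nonneg _))) h

/-- The tracial ultrapower `R^ω = ℓ^∞(ℕ, R) / {x : lim_ω ‖x n‖₂ = 0}`. -/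
abbrev Ultrapower : Type u := bddSeq R ⧸ τ.nullIdeal ω

lemma star_mem_nullIdeal {x : bddSeq R} (hx : x ∈ τ.nullIdeal ω) : star x ∈ τ.nullIdeal ω := by
  rw [mem_nullIdeal] at hx ⊢
  have h : (fun n => τ.norm2 ((star x).1 n)) = fun n => τ.norm2 (x.1 n) := by
    funext n
    exact τ.norm2_star _
  rw [h]
  exact hx

/-- The involution of the ultrapower, `[x]* = [x*]`. -/
noncomputable instance : StarRing (τ.Ultrapower ω) where
  star := Quotient.map' star (by
    intro x y hxy
    rw [Submodule.quotientRel_def] at hxy ⊢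
    have h1 : star (x - y) = star x - star y := Subtype.ext (star_sub x.1 y.1)
    have h2 := τ.star_mem_nullIdeal ω hxy
    rwa [h1] at h2)
  star_involutive := by
    rintro ⟨x⟩
    exact congrArg (Ideal.Quotient.mk (τ.nullIdeal ω)) (star_star x)
  star_mul := by
    rintro ⟨x⟩ ⟨y⟩
    exact congrArg (Ideal.Quotient.mk (τ.nullIdeal ω)) (star_mul x y)
  star_add := by
    rintro ⟨x⟩ ⟨y⟩
    exact congrArg (Ideal.Quotient.mk (τ.nullIdeal ω)) (star_add x y)

lemma star_mk (x : bddSeq R) : star (Ideal.Quotient.mk (τ.nullIdeal ω) x) =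
    Ideal.Quotient.mk (τ.nullIdeal ω) (star x) := rfl

end TracialVN

end Pool.Agent.MPa0a75b
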