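import Mathlib
import Pool.Agent.MPa0a75b.Ultra

set_option autoImplicit false

/-!
# The tracial ultrapower is rich
-/

namespace Pool.Agent.MPa0a75b

open Filter Topology
open scoped ComplexOrder ComplexConjugate

universe u v

variable {R : Type u} [CStarAlgebra R]

namespace TracialVN

variable (τ : TracialVN R) (ω : Ultrafilter ℕ)

include τ in
lemma norm_one_R : ‖(1 : R)‖ = 1 := by
  have h : (1 : R) ≠ 0 := by
    intro h
    have h1 := τ.tr_one
    rw [h, map_zero] at h1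
    exact zero_ne_one h1
  have : Nontrivial R := ⟨⟨1, 0, h⟩⟩
  exact CStarRing.norm_one

include τ in
lemma norm_uni {u : R} (hu : IsUni u) : ‖u‖ ≤ 1 := by
  have h : ‖u‖ * ‖u‖ = 1 := by
    rw [← CStarRing.norm_star_mul_self, hu.1, τ.norm_one_R]
  nlinarith [norm_nonneg u]

/-- Asymptotic centrality of the matrix units. -/
lemma asymp {e : ℕ → Fin 2 → Fin 2 → R} (he : ∀ n, IsMatUnits (e n))
    (hcomm : ∀ m n, m ≠ n → ∀ a b c d, e m a b * e n c d = e n c d * e m a b)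
    (hdense : ∀ (x : R) (ε : ℝ), 0 < ε →
      ∃ y ∈ Algebra.adjoin ℂ {z | ∃ n a b, z = e n a b}, τ.norm2 (x - y) < ε)
    (x : R) {ε : ℝ} (hε : 0 < ε) :
    ∃ N, ∀ m, N ≤ m → ∀ a b, τ.norm2 (x * e m a b - e m a b * x) < ε := by
  obtain ⟨y, hy, hxy⟩ := hdense x (ε / 2) (by positivity)
  obtain ⟨N, hN⟩ := mem_alg_of_mem_adjoin hy
  refine ⟨N, fun m hm a b => ?_⟩
  have hc := alg_comm hcomm hm hN a b
  have h1 : x * e m a b - e m a b * x = (x - y) * e m a b - e m a b * (x - y) := by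
    rw [sub_mul, mul_sub, hc]
    abel
  rw [h1]
  calc τ.norm2 ((x - y) * e m a b - e m a b * (x - y))
      ≤ τ.norm2 ((x - y) * e m a b) + τ.norm2 (e m a b * (x - y)) := τ.norm2_sub_le _ _
    _ ≤ τ.norm2 (x - y) * ‖e m a b‖ + ‖e m a b‖ * τ.norm2 (x - y) :=
        add_le_add (τ.norm2_mul_le' _ _) (τ.norm2_mul_le _ _)
    _ ≤ τ.norm2 (x - y) * 1 + 1 * τ.norm2 (x - y) := by
        have := (he m).norm_le' a b
        have := τ.norm2_nonneg (x - y)
        gcongr
    _ < ε := by linarith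

/-- Bounded sequences given by a uniform bound. -/
def ofBdd (x : ℕ → R) (C : ℝ) (h : ∀ n, ‖x n‖ ≤ C) : bddSeq R := ⟨x, C, h⟩

/-- Free ultrafilters contain all final segments. -/
lemma eventually_ge {ω : Ultrafilter ℕ} (hω : ∀ n : ℕ, {n} ∉ ω) (N : ℕ) :
    ∀ᶠ i in (ω : Filter ℕ), N ≤ i := by
  induction N with
  | zero => exact Filter.Eventually.of_forall fun i => Nat.zero_le i
  | succ N ih =>
    have h1 : ∀ᶠ i in (ω : Filter ℕ), i ≠ N := by
      have := (Ultrafilter.compl_mem_iff_notMem (f := ω) (s := {N})).mpr (hω N)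
      filter_upwards [this] with i hi
      exact hi
    filter_upwards [ih, h1] with i hi hi'
    omega

lemma tendsto_inv {ω : Ultrafilter ℕ} (hω : ∀ n : ℕ, {n} ∉ ω) :
    Tendsto (fun i : ℕ => 1 / ((i : ℝ) + 1)) (ω : Filter ℕ) (𝓝 0) := by
  have h : (ω : Filter ℕ) ≤ atTop := by
    intro s hs
    obtain ⟨N, hN⟩ := Filter.mem_atTop_sets.mp hs
    filter_upwards [eventually_ge hω N] with i hi
    exact hN i hi
  exact tendsto_one_div_add_atTop_nhds_zero_nat.mono_left h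

/-- Matrix units of the ultrapower. -/
noncomputable def EE {e : ℕ → Fin 2 → Fin 2 → R} (he : ∀ n, IsMatUnits (e n)) (p : ℕ → ℕ)
    (a b : Fin 2) : τ.Ultrapower ω :=
  Ideal.Quotient.mk (τ.nullIdeal ω) (ofBdd (fun i => e (p i) a b) 1
    (fun i => (he (p i)).norm_le' a b))

lemma EE_units {e : ℕ → Fin 2 → Fin 2 → R} (he : ∀ n, IsMatUnits (e n)) (p : ℕ → ℕ) :
    IsMatUnits (τ.EE ω he p) where
  mul_same a b c := by
    unfold EE
    rw [← map_mul]
    congr 1
    apply Subtype.ext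
    funext i
    exact (he (p i)).mul_same a b c
  mul_ne a b c d h := by
    unfold EE
    rw [← map_mul, ← map_zero (Ideal.Quotient.mk (τ.nullIdeal ω))]
    congr 1
    apply Subtype.ext
    funext i
    exact (he (p i)).mul_ne a b c d h
  star_eq a b := by
    unfold EE
    rw [star_mk]
    congr 1
    apply Subtype.ext
    funext i
    exact (he (p i)).star_eq a b
  sum_one := by
    unfold EE
    rw [← map_add, ← map_one (Ideal.Quotient.mk (τ.nullIdeal ω))]
    congr 1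
    apply Subtype.ext
    funext i
    exact (he (p i)).sum_one

/-- Elements that lift to unitaries. -/
def UU : Set (τ.Ultrapower ω) :=
  {w | ∃ u : bddSeq R, (∀ i, IsUni (u.1 i)) ∧ w = Ideal.Quotient.mk (τ.nullIdeal ω) u}

lemma swap_isUni {e f : Fin 2 → Fin 2 → R} (he : IsMatUnits e) (hf : IsMatUnits f)
    (hc : ∀ a b c d, Commute (e a b) (f c d)) : IsUni (swap e f) := by
  constructor
  · rw [star_swap he hf hc, swap_mul_swap he hf hc]
  · rw [star_swap he hf hc, swap_mul_swap he hf hc]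

lemma mk_eq_zero_iff {x : bddSeq R} : Ideal.Quotient.mk (τ.nullIdeal ω) x = 0 ↔
    Tendsto (fun n => τ.norm2 (x.1 n)) (ω : Filter ℕ) (𝓝 0) := by
  rw [Ideal.Quotient.eq_zero_iff_mem, mem_nullIdeal]

/-- The diagonal argument. -/
lemma diag_aux (hω : ∀ n : ℕ, {n} ∉ ω) (w : ℕ → τ.Ultrapower ω) (hw : ∀ m, w m ∈ τ.UU ω)
    (a b : ℕ → τ.Ultrapower ω) (h : ∀ j, ∃ N, ∀ m, N ≤ m → w m * a j = b j * w m) :
    ∃ W : τ.Ultrapower ω, W ≠ 0 ∧ ∀ j, W * a j = b j * W := by
  choose u hu hwu using hw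
  have hsa : ∀ j, ∃ x : bddSeq R, Ideal.Quotient.mk (τ.nullIdeal ω) x = a j := fun j =>
    Ideal.Quotient.mk_surjective (a j)
  have hsb : ∀ j, ∃ x : bddSeq R, Ideal.Quotient.mk (τ.nullIdeal ω) x = b j := fun j =>
    Ideal.Quotient.mk_surjective (b j)
  choose α hα using hsa
  choose β hβ using hsb
  choose N hN using h
  have hrel : ∀ j m, N j ≤ m → Tendsto (fun i => τ.norm2
      ((u m).1 i * (α j).1 i - (β j).1 i * (u m).1 i)) (ω : Filter ℕ) (𝓝 0) := by
    intro j m hm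
    have h1 := hN j m hm
    rw [hwu m, ← hα j, ← hβ j, ← map_mul, ← map_mul, ← sub_eq_zero, ← map_sub,
      mk_eq_zero_iff] at h1
    exact h1
  classical
  let P : ℕ → ℕ → Prop := fun i m => ∀ j ≤ m, N j ≤ m → τ.norm2
    ((u m).1 i * (α j).1 i - (β j).1 i * (u m).1 i) < 1 / ((m : ℝ) + 1)
  have hP : ∀ m, ∀ᶠ i in (ω : Filter ℕ), P i m := by
    intro m
    have h1 : ∀ j ∈ Set.Iic m, ∀ᶠ i in (ω : Filter ℕ), N j ≤ m → τ.norm2
        ((u m).1 i * (α j).1 i - (β j).1 i * (u m).1 i) < 1 / ((m : ℝ) + 1) := by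
      intro j _
      by_cases hj : N j ≤ m
      · filter_upwards [(hrel j m hj).eventually_lt_const
          (show (0 : ℝ) < 1 / ((m : ℝ) + 1) by positivity)] with i hi _
        exact hi
      · exact Filter.Eventually.of_forall fun i hjm => absurd hjm hj
    have h2 := (Filter.eventually_all_finite (Set.finite_Iic m)).mpr h1
    filter_upwards [h2] with i hi j hj
    exact hi j hj
  let s : ℕ → ℕ := fun i => Nat.findGreatest (P i) i
  let v : bddSeq R := ofBdd (fun i => (u (s i)).1 i) 1 (fun i => τ.norm_uni (hu (s i) i))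
  have hs : ∀ M, ∀ᶠ i in (ω : Filter ℕ), M ≤ s i ∧ P i (s i) := by
    intro M
    filter_upwards [hP M, eventually_ge hω M] with i hi hMi
    exact ⟨Nat.le_findGreatest hMi hi, Nat.findGreatest_spec hMi hi⟩
  refine ⟨Ideal.Quotient.mk (τ.nullIdeal ω) v, ?_, fun j => ?_⟩
  · intro h0
    rw [mk_eq_zero_iff] at h0
    have h1 : (fun n => τ.norm2 (v.1 n)) = fun _ => (1 : ℝ) := by
      funext i
      have h2 := hu (s i) i
      show τ.norm2 ((u (s i)).1 i) = 1
      rw [← mul_one ((u (s i)).1 i), τ.norm2_unitary_mul h2.1, τ.norm2_one]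
    rw [h1] at h0
    exact one_ne_zero (tendsto_nhds_unique tendsto_const_nhds h0)
  · rw [← hα j, ← hβ j, ← map_mul, ← map_mul, ← sub_eq_zero, ← map_sub, mk_eq_zero_iff]
    rw [Metric.tendsto_nhds]
    intro ε hε
    obtain ⟨M₀, hM₀⟩ := exists_nat_one_div_lt hε
    filter_upwards [hs (max (max j (N j)) M₀)] with i hi
    obtain ⟨hi1, hi2⟩ := hi
    have hj : j ≤ s i := (le_max_left _ _).trans ((le_max_left _ _).trans hi1)
    have hNj : N j ≤ s i := (le_max_right _ _).trans ((le_max_left _ _).trans hi1)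
    have hM : M₀ ≤ s i := (le_max_right _ _).trans hi1
    have h3 := hi2 j hj hNj
    rw [dist_zero_right, Real.norm_of_nonneg (τ.norm2_nonneg _)]
    calc τ.norm2 ((v * α j - β j * v : bddSeq R).1 i) < 1 / ((s i : ℝ) + 1) := h3
      _ ≤ 1 / ((M₀ : ℝ) + 1) := by
          apply one_div_le_one_div_of_le (by positivity)
          have : (M₀ : ℝ) ≤ s i := by exact_mod_cast hM
          linarith
      _ < ε := hM₀

/-- The ultrapower is a factor. -/
lemma center_aux (hR : τ.IsHyperfinite) (hω : ∀ n : ℕ, {n} ∉ ω) (z : τ.Ultrapower ω)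
    (hz : ∀ x, z * x = x * z) : ∃ c : ℂ, z = algebraMap ℂ (τ.Ultrapower ω) c := by
  obtain ⟨ζ, rfl⟩ := Ideal.Quotient.mk_surjective z
  have hch : ∀ i : ℕ, ∃ u, IsUni u ∧ τ.norm2 (ζ.1 i - algebraMap ℂ R (τ.tr (ζ.1 i))) ≤
      τ.norm2 (u * ζ.1 i - ζ.1 i * u) + 1 / ((i : ℝ) + 1) := fun i =>
    τ.avg hR (ζ.1 i) (by positivity)
  choose u hu hle using hch
  let U : bddSeq R := ofBdd u 1 (fun i => τ.norm_uni (hu i))
  have h1 := hz (Ideal.Quotient.mk (τ.nullIdeal ω) U)
  rw [← map_mul, ← map_mul, eq_comm, ← sub_eq_zero, ← map_sub, mk_eq_zero_iff] at h1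
  have h2 : Tendsto (fun i => τ.norm2 (ζ.1 i - algebraMap ℂ R (τ.tr (ζ.1 i)))) (ω : Filter ℕ)
      (𝓝 0) := by
    have h3 : Tendsto (fun i => τ.norm2 (u i * ζ.1 i - ζ.1 i * u i) + 1 / ((i : ℝ) + 1))
        (ω : Filter ℕ) (𝓝 0) := by
      have := Tendsto.add h1 (tendsto_inv hω)
      rw [add_zero] at this
      exact this
    exact squeeze_zero (fun i => τ.norm2_nonneg _) hle h3
  -- the limit of the traces
  obtain ⟨C, hC⟩ := ζ.2
  have hbd : ∀ i, τ.tr (ζ.1 i) ∈ Metric.closedBall (0 : ℂ) C := by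
    intro i
    rw [mem_closedBall_zero_iff]
    refine (τ.abs_tr_le _).trans ?_
    have h4 := τ.norm2_mul_le (ζ.1 i) 1
    rw [mul_one, τ.norm2_one, mul_one] at h4
    exact h4.trans (hC i)
  obtain ⟨c, -, hc⟩ := (isCompact_closedBall (0 : ℂ) C).ultrafilter_le_nhds
    (ω.map fun i => τ.tr (ζ.1 i)) (by
      rw [le_principal_iff]
      exact Filter.mem_map.mpr (Filter.Eventually.of_forall hbd))
  have hc' : Tendsto (fun i => τ.tr (ζ.1 i)) (ω : Filter ℕ) (𝓝 c) := hc
  refine ⟨c, ?_⟩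
  have h5 : algebraMap ℂ (τ.Ultrapower ω) c =
      Ideal.Quotient.mk (τ.nullIdeal ω) (algebraMap ℂ (bddSeq R) c) := rfl
  rw [h5, ← sub_eq_zero, ← map_sub, mk_eq_zero_iff]
  have h6 : Tendsto (fun i => τ.norm2 (ζ.1 i - algebraMap ℂ R (τ.tr (ζ.1 i))) +
      ‖τ.tr (ζ.1 i) - c‖) (ω : Filter ℕ) (𝓝 0) := by
    have h7 : Tendsto (fun i => ‖τ.tr (ζ.1 i) - c‖) (ω : Filter ℕ) (𝓝 0) :=
      tendsto_iff_norm_sub_tendsto_zero.mp hc'
    simpa using Tendsto.add h2 h7
  refine squeeze_zero (fun i => τ.norm2_nonneg _) (fun i => ?_) h6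
  show τ.norm2 (ζ.1 i - algebraMap ℂ R c) ≤ _
  have h8 : ζ.1 i - algebraMap ℂ R c = (ζ.1 i - algebraMap ℂ R (τ.tr (ζ.1 i))) +
      algebraMap ℂ R (τ.tr (ζ.1 i) - c) := by
    rw [map_sub]
    abel
  rw [h8]
  refine (τ.norm2_add_le _ _).trans (add_le_add le_rfl (le_of_eq ?_))
  rw [Algebra.algebraMap_eq_smul_one, τ.norm2_smul, τ.norm2_one, mul_one]

/-- The tracial ultrapower of the hyperfinite II₁ factor is rich. -/
theorem exists_rich (hR : τ.IsHyperfinite) (hω : ∀ n : ℕ, {n} ∉ ω) :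
    Nonempty (Rich (τ.Ultrapower ω)) := by
  have hR' := hR
  obtain ⟨e, he, hcomm, hdense⟩ := hR
  refine ⟨{ P := ℕ → ℕ, p₀ := fun _ => 0, E := τ.EE ω he, U := τ.UU ω,
            lt := fun p q => ∀ i, p i < q i, units := τ.EE_units ω he,
            one_mem := ⟨1, fun i => IsUni.one, rfl⟩,
            swap_mem := ?_, exists_commute := ?_, diag := τ.diag_aux ω hω,
            center := τ.center_aux ω hR' hω }⟩
  · rintro p q hpq _ ⟨u, hu, rfl⟩
    have hc : ∀ i, ∀ a b c d, Commute (e (p i) a b) (e (q i) c d) := fun i =>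
      hcomm (p i) (q i) (hpq i).ne
    have hsw : ∀ i, IsUni (swap (e (p i)) (e (q i))) := fun i =>
      swap_isUni (he _) (he _) (hc i)
    refine ⟨u * ofBdd (fun i => swap (e (p i)) (e (q i))) 1 (fun i => τ.norm_uni (hsw i)),
      fun i => (hu i).mul (hsw i), ?_⟩
    rw [map_mul]
    congr 1
  · intro p S
    have hsl : ∀ n, ∃ x : bddSeq R, Ideal.Quotient.mk (τ.nullIdeal ω) x = S n := fun n =>
      Ideal.Quotient.mk_surjective (S n)
    choose σ hσ using hsl
    have hch : ∀ i : ℕ, ∃ k, p i < k ∧ ∀ n ≤ i, ∀ a b,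
        τ.norm2 ((σ n).1 i * e k a b - e k a b * (σ n).1 i) < 1 / ((i : ℝ) + 1) := by
      intro i
      have h1 : ∀ n, ∃ N, ∀ m, N ≤ m → ∀ a b,
          τ.norm2 ((σ n).1 i * e m a b - e m a b * (σ n).1 i) < 1 / ((i : ℝ) + 1) := fun n =>
        τ.asymp he hcomm hdense ((σ n).1 i) (by positivity)
      choose N hN using h1
      refine ⟨max (p i + 1) ((Finset.range (i + 1)).sup N), ?_, fun n hn a b => ?_⟩
      · exact lt_of_lt_of_le (Nat.lt_succ_self _) (le_max_left _ _)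
      · apply hN n
        exact (Finset.le_sup (f := N) (Finset.mem_range.mpr (Nat.lt_succ_of_le hn))).trans
          (le_max_right _ _)
    choose q hq hqle using hch
    refine ⟨q, hq, fun n a b => ?_⟩
    rw [← hσ n]
    unfold EE
    rw [← map_mul, ← map_mul, ← sub_eq_zero, ← map_sub, mk_eq_zero_iff]
    have h2 : ∀ᶠ i in (ω : Filter ℕ), τ.norm2 ((σ n * ofBdd (fun i => e (q i) a b) 1
        (fun i => (he (q i)).norm_le' a b) - ofBdd (fun i => e (q i) a b) 1
        (fun i => (he (q i)).norm_le' a b) * σ n : bddSeq R).1 i) ≤ 1 / ((i : ℝ) + 1) := by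
      filter_upwards [eventually_ge hω n] with i hi
      exact (hqle i n hi a b).le
    exact squeeze_zero' (Filter.Eventually.of_forall fun i => τ.norm2_nonneg _) h2
      (tendsto_inv hω)

end TracialVN

end Pool.Agent.MPa0a75b
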