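import Mathlib
import Pool.Agent.MPa0a75b.Statement
import Pool.Agent.MPa0a75b.UltraRich
import Pool.Agent.MPa0a75b.Build

set_option autoImplicit false

/-!
# The ultrapower and the group von Neumann algebra up to isomorphism
-/

namespace Pool.Agent.MPa0a75b

open Filter Topology
open scoped ComplexInnerProductSpace ComplexConjugate

universe u v w t

section ultra

variable {R : Type u} [CStarAlgebra R] {τ : TracialVN R} {ω : Ultrafilter ℕ}

lemma isBdd_of_mem (x : bddSeq R) : IsBdd x.1 := x.2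

/-- The concrete ultrapower. -/
theorem exists_isUltrapowerMap (τ : TracialVN R) (ω : Ultrafilter ℕ) :
    ∃ (M : Type u) (_ : Ring M) (_ : StarRing M) (_ : Algebra ℂ M) (π : (ℕ → R) → M),
      IsUltrapowerMap τ ω π := by
  classical
  refine ⟨τ.Ultrapower ω, inferInstance, inferInstance, inferInstance,
    fun x => if h : IsBdd x then Ideal.Quotient.mk (τ.nullIdeal ω) ⟨x, h⟩ else 0, ?_⟩
  have hmem : ∀ x (hx : IsBdd x), (if h : IsBdd x then
      Ideal.Quotient.mk (τ.nullIdeal ω) ⟨x, h⟩ else 0) =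
      Ideal.Quotient.mk (τ.nullIdeal ω) ⟨x, hx⟩ := fun x hx => dif_pos hx
  refine ⟨?_, ?_, ?_, ?_, ?_, ?_, ?_⟩
  · show (if h : IsBdd (1 : ℕ → R) then Ideal.Quotient.mk (τ.nullIdeal ω) ⟨1, h⟩ else 0) = 1
    rw [hmem 1 (bddSeq R).one_mem]
    exact map_one (Ideal.Quotient.mk (τ.nullIdeal ω))
  · intro x y hx hy
    show (if h : IsBdd (x + y) then Ideal.Quotient.mk (τ.nullIdeal ω) ⟨x + y, h⟩ else 0) =
      (if h : IsBdd x then Ideal.Quotient.mk (τ.nullIdeal ω) ⟨x, h⟩ else 0) +
      (if h : IsBdd y then Ideal.Quotient.mk (τ.nullIdeal ω) ⟨y, h⟩ else 0)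
    rw [hmem x hx, hmem y hy, hmem (x + y) ((bddSeq R).add_mem hx hy), ← map_add]
    rfl
  · intro x y hx hy
    show (if h : IsBdd (x * y) then Ideal.Quotient.mk (τ.nullIdeal ω) ⟨x * y, h⟩ else 0) =
      (if h : IsBdd x then Ideal.Quotient.mk (τ.nullIdeal ω) ⟨x, h⟩ else 0) *
      (if h : IsBdd y then Ideal.Quotient.mk (τ.nullIdeal ω) ⟨y, h⟩ else 0)
    rw [hmem x hx, hmem y hy, hmem (x * y) ((bddSeq R).mul_mem hx hy), ← map_mul]
    rfl
  · intro c x hx
    show (if h : IsBdd (c • x) then Ideal.Quotient.mk (τ.nullIdeal ω) ⟨c • x, h⟩ else 0) =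
      c • (if h : IsBdd x then Ideal.Quotient.mk (τ.nullIdeal ω) ⟨x, h⟩ else 0)
    rw [hmem x hx, hmem (c • x) ((bddSeq R).smul_mem hx c)]
    rfl
  · intro x hx
    show (if h : IsBdd (star x) then Ideal.Quotient.mk (τ.nullIdeal ω) ⟨star x, h⟩ else 0) =
      star (if h : IsBdd x then Ideal.Quotient.mk (τ.nullIdeal ω) ⟨x, h⟩ else 0)
    rw [hmem x hx, hmem (star x) ((bddSeq R).star_mem' hx)]
    rfl
  · intro m
    obtain ⟨x, rfl⟩ := Ideal.Quotient.mk_surjective m
    exact ⟨x.1, x.2, hmem x.1 x.2⟩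
  · intro x hx
    show (if h : IsBdd x then Ideal.Quotient.mk (τ.nullIdeal ω) ⟨x, h⟩ else 0) = 0 ↔ _
    rw [hmem x hx, Ideal.Quotient.eq_zero_iff_mem]
    exact Iff.rfl

variable {M : Type v} [Ring M] [StarRing M] [Algebra ℂ M]

/-- Any model of the ultrapower is isomorphic to the concrete one. -/
theorem IsUltrapowerMap.nonempty_equiv {π : (ℕ → R) → M} (h : IsUltrapowerMap τ ω π) :
    Nonempty (τ.Ultrapower ω ≃⋆ₐ[ℂ] M) := by
  have hzero : π 0 = 0 := by
    have := h.map_smul 0 1 (bddSeq R).one_mem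
    rwa [zero_smul, zero_smul] at this
  let f : bddSeq R →+* M :=
    { toFun := fun x => π x.1
      map_one' := h.map_one
      map_mul' := fun x y => h.map_mul _ _ x.2 y.2
      map_zero' := hzero
      map_add' := fun x y => h.map_add _ _ x.2 y.2 }
  have hf : ∀ x ∈ τ.nullIdeal ω, f x = 0 := fun x hx => (h.ker x.1 x.2).2 hx
  let g : τ.Ultrapower ω →+* M := Ideal.Quotient.lift (τ.nullIdeal ω) f hf
  have hg : ∀ x, g (Ideal.Quotient.mk (τ.nullIdeal ω) x) = π x.1 := fun x => rfl
  have hbij : Function.Bijective g := by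
    constructor
    · rw [injective_iff_map_eq_zero]
      intro y hy
      obtain ⟨x, rfl⟩ := Ideal.Quotient.mk_surjective y
      rw [hg] at hy
      exact Ideal.Quotient.eq_zero_iff_mem.2 ((h.ker x.1 x.2).1 hy)
    · intro m
      obtain ⟨x, hx, rfl⟩ := h.surjective m
      exact ⟨Ideal.Quotient.mk (τ.nullIdeal ω) ⟨x, hx⟩, rfl⟩
  refine ⟨{ Equiv.ofBijective g hbij with
    map_mul' := fun x y => g.map_mul x y
    map_add' := fun x y => g.map_add x y
    map_star' := ?_
    map_smul' := ?_ }⟩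
  · intro y
    obtain ⟨x, rfl⟩ := Ideal.Quotient.mk_surjective y
    exact h.map_star x.1 x.2
  · intro c y
    obtain ⟨x, rfl⟩ := Ideal.Quotient.mk_surjective y
    exact h.map_smul c x.1 x.2

end ultra

section group

variable {G : Type u} [Group G] {H : Type v} [NormedAddCommGroup H] [InnerProductSpace ℂ H]
  [CompleteSpace H]

lemma coe_groupVN : ((groupVN G).toStarSubalgebra : Set (ell2 G →L[ℂ] ell2 G)) =
    Set.centralizer (Set.centralizer (Set.range (lam (G := G)))) := by
  have hstar : star (Set.range (lam (G := G))) = Set.range (lam (G := G)) := by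
    ext T
    rw [Set.mem_star]
    constructor
    · rintro ⟨g, hg⟩
      exact ⟨g⁻¹, by rw [← star_lam, hg, star_star]⟩
    · rintro ⟨g, rfl⟩
      exact ⟨g⁻¹, by rw [← star_lam]⟩
  show ((StarSubalgebra.centralizer ℂ (StarSubalgebra.centralizer ℂ (Set.range (lam (G := G))) :
      Set (ell2 G →L[ℂ] ell2 G)) : StarSubalgebra ℂ (ell2 G →L[ℂ] ell2 G)) :
      Set (ell2 G →L[ℂ] ell2 G)) = _
  rw [StarSubalgebra.coe_centralizer_centralizer, hstar, Set.union_self]

variable (b : HilbertBasis G ℂ H)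

/-- Conjugation by the coordinate unitary. -/
noncomputable def conjB : (H →L[ℂ] H) ≃⋆ₐ[ℂ] (ell2 G →L[ℂ] ell2 G) := b.repr.conjStarAlgEquiv

omit [Group G] in
lemma conjB_apply (T : H →L[ℂ] H) (ξ : ell2 G) : conjB b T ξ = b.repr (T (b.repr.symm ξ)) := rfl

omit [Group G] [CompleteSpace H] in
lemma repr_symm_dl (x : G) : b.repr.symm (dl x) = b x := by
  classical
  rw [LinearIsometryEquiv.symm_apply_eq, b.repr_self]
  unfold dl
  congr

lemma image_centralizer {A B : Type*} [Ring A] [Ring B] (e : A ≃ B)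
    (he : ∀ x y, e (x * y) = e x * e y) (S : Set A) :
    e '' Set.centralizer S = Set.centralizer (e '' S) := by
  ext y
  constructor
  · rintro ⟨x, hx, rfl⟩ _ ⟨s, hs, rfl⟩
    rw [← he, ← he, hx s hs]
  · intro hy
    refine ⟨e.symm y, ?_, e.apply_symm_apply y⟩
    intro s hs
    have := hy (e s) ⟨s, hs, rfl⟩
    apply e.injective
    rw [he, he, e.apply_symm_apply, this]

lemma image_lam : conjB b '' {T | ∃ g : G, ∀ x : G, T (b x) = b (g * x)} =
    Set.range (lam (G := G)) := by
  ext T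
  constructor
  · rintro ⟨S, ⟨g, hg⟩, rfl⟩
    refine ⟨g, ?_⟩
    apply ext_dl
    intro x
    rw [conjB_apply, repr_symm_dl, hg, lam_dl, ← repr_symm_dl,
      LinearIsometryEquiv.apply_symm_apply]
  · rintro ⟨g, rfl⟩
    refine ⟨(conjB b).symm (lam g), ⟨g, fun x => ?_⟩, (conjB b).apply_symm_apply _⟩
    have h1 : conjB b ((conjB b).symm (lam g)) = lam g := (conjB b).apply_symm_apply _
    have h2 := congrArg (fun S : ell2 G →L[ℂ] ell2 G => b.repr.symm (S (dl x))) h1
    simp only [conjB_apply, LinearIsometryEquiv.symm_apply_apply, repr_symm_dl, lam_dl] at h2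
    exact h2

lemma image_groupVonNeumann : conjB b '' groupVonNeumann b =
    ((groupVN G).toStarSubalgebra : Set (ell2 G →L[ℂ] ell2 G)) := by
  rw [coe_groupVN, groupVonNeumann]
  have h := fun S => image_centralizer (conjB b).toEquiv (fun x y => map_mul (conjB b) x y) S
  have h1 : conjB b '' Set.centralizer (Set.centralizer
      {T | ∃ g : G, ∀ x : G, T (b x) = b (g * x)}) = Set.centralizer (conjB b ''
      Set.centralizer {T | ∃ g : G, ∀ x : G, T (b x) = b (g * x)}) := h _
  have h2 : conjB b '' Set.centralizer {T | ∃ g : G, ∀ x : G, T (b x) = b (g * x)} =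
    Set.centralizer (conjB b '' {T | ∃ g : G, ∀ x : G, T (b x) = b (g * x)}) := h _
  rw [h1, h2, image_lam]

variable {b}

theorem IsGroupVonNeumann.nonempty_equiv {M : Type w} [Ring M] [StarRing M] [Algebra ℂ M]
    (h : IsGroupVonNeumann M b) : Nonempty (M ≃⋆ₐ[ℂ] (groupVN G).toStarSubalgebra) := by
  obtain ⟨ι, hinj, hrange⟩ := h
  have hmem : ∀ m, conjB b (ι m) ∈ (groupVN G).toStarSubalgebra := by
    intro m
    have : conjB b (ι m) ∈ ((groupVN G).toStarSubalgebra : Set (ell2 G →L[ℂ] ell2 G)) := by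
      rw [← image_groupVonNeumann b, ← hrange]
      exact ⟨ι m, ⟨m, rfl⟩, rfl⟩
    exact this
  let f : M → (groupVN G).toStarSubalgebra := fun m => ⟨conjB b (ι m), hmem m⟩
  have hbij : Function.Bijective f := by
    constructor
    · intro x y hxy
      have := congrArg Subtype.val hxy
      exact hinj ((conjB b).injective this)
    · rintro ⟨T, hT⟩
      have : T ∈ ((groupVN G).toStarSubalgebra : Set (ell2 G →L[ℂ] ell2 G)) := hT
      rw [← image_groupVonNeumann b, ← hrange] at this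
      obtain ⟨_, ⟨m, rfl⟩, hm⟩ := this
      exact ⟨m, Subtype.ext hm⟩
  refine ⟨{ Equiv.ofBijective f hbij with
    map_mul' := ?_
    map_add' := ?_
    map_star' := ?_
    map_smul' := ?_ }⟩
  · intro x y
    apply Subtype.ext
    show conjB b (ι (x * y)) = conjB b (ι x) * conjB b (ι y)
    rw [map_mul, map_mul]
  · intro x y
    apply Subtype.ext
    show conjB b (ι (x + y)) = conjB b (ι x) + conjB b (ι y)
    rw [map_add, map_add]
  · intro x
    apply Subtype.ext
    show conjB b (ι (star x)) = star (conjB b (ι x))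
    rw [map_star]
    exact (conjB b).map_star' (ι x)
  · intro c x
    apply Subtype.ext
    show conjB b (ι (c • x)) = c • (conjB b (ι x))
    rw [map_smul, map_smul]

end group

/-- The main theorem. -/
theorem not_isGroupVonNeumann {R : Type u} [CStarAlgebra R] {τ : TracialVN R}
    (hR : τ.IsHyperfinite) {ω : Ultrafilter ℕ} (hω : ∀ n : ℕ, {n} ∉ ω)
    {M : Type v} [Ring M] [StarRing M] [Algebra ℂ M] {π : (ℕ → R) → M}
    (hπ : IsUltrapowerMap τ ω π) {G : Type w} [Group G] {H : Type t} [NormedAddCommGroup H]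
    [InnerProductSpace ℂ H] [CompleteSpace H] (b : HilbertBasis G ℂ H) :
    ¬ IsGroupVonNeumann M b := by
  intro hM
  obtain ⟨r⟩ := τ.exists_rich ω hR hω
  obtain ⟨e⟩ := hπ.nonempty_equiv
  obtain ⟨e'⟩ := hM.nonempty_equiv
  exact false_of_rich ((r.map e).map e')

end Pool.Agent.MPa0a75b
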