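import Mathlib
import Pool.Agent.MPa0a75b.Group
import Pool.Agent.MPa0a75b.Trace

set_option autoImplicit false

/-!
# A model of the hyperfinite II₁ factor
-/

namespace Pool.Agent.MPa0a75b

open Filter Topology
open scoped ComplexInnerProductSpace ComplexConjugate

namespace Model

/-- The index group. -/
abbrev VV : Type := (ℕ →₀ ZMod 2) × (ℕ →₀ ZMod 2)

/-- The sign character. -/
noncomputable def chi (z : ZMod 2) : ℂ := if z = 0 then 1 else -1

lemma chi_zero : chi 0 = 1 := if_pos rfl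

lemma chi_one : chi 1 = -1 := if_neg (by decide)

lemma chi_add (x y : ZMod 2) : chi (x + y) = chi x * chi y := by
  fin_cases x <;> fin_cases y
  · show chi (0 + 0) = chi 0 * chi 0
    rw [add_zero, chi_zero, mul_one]
  · show chi (0 + 1) = chi 0 * chi 1
    rw [zero_add, chi_zero, one_mul]
  · show chi (1 + 0) = chi 1 * chi 0
    rw [add_zero, chi_zero, mul_one]
  · show chi (1 + 1) = chi 1 * chi 1
    have : (1 : ZMod 2) + 1 = 0 := by decide
    rw [this, chi_zero, chi_one]
    norm_num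

lemma chi_sq (x : ZMod 2) : chi x * chi x = 1 := by
  rw [← chi_add]
  have : x + x = 0 := by
    fin_cases x <;> decide
  rw [this, chi_zero]

lemma conj_chi (x : ZMod 2) : conj (chi x) = chi x := by
  unfold chi
  split_ifs <;> simp

lemma norm_chi (x : ZMod 2) : ‖chi x‖ = 1 := by
  unfold chi
  split_ifs <;> simp

/-- The pairing. -/
noncomputable def pr (b a : ℕ →₀ ZMod 2) : ZMod 2 := b.sum fun n x => x * a n

lemma pr_add_left (b b' a : ℕ →₀ ZMod 2) : pr (b + b') a = pr b a + pr b' a := by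
  unfold pr
  rw [Finsupp.sum_add_index']
  · intro n
    rw [zero_mul]
  · intro n x y
    rw [add_mul]

lemma pr_add_right (b a a' : ℕ →₀ ZMod 2) : pr b (a + a') = pr b a + pr b a' := by
  unfold pr
  rw [← Finsupp.sum_add]
  congr 1
  funext n x
  rw [Finsupp.add_apply, mul_add]

lemma pr_zero_left (a : ℕ →₀ ZMod 2) : pr 0 a = 0 := by
  unfold pr
  exact Finsupp.sum_zero_index

lemma pr_zero_right (b : ℕ →₀ ZMod 2) : pr b 0 = 0 := by
  unfold pr
  simp

lemma pr_single (m n : ℕ) : pr (Finsupp.single m 1) (Finsupp.single n 1) =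
    if m = n then 1 else 0 := by
  unfold pr
  rw [Finsupp.sum_single_index (by rw [zero_mul]), one_mul, Finsupp.single_apply]
  by_cases h : m = n
  · rw [if_pos h, if_pos h.symm]
  · rw [if_neg h, if_neg (Ne.symm h)]

/-- The bicharacter. -/
noncomputable def mu (v w : VV) : ℂ := chi (pr v.2 w.1)

lemma mu_add_left (u v w : VV) : mu (u + v) w = mu u w * mu v w := by
  unfold mu
  rw [Prod.snd_add, pr_add_left, chi_add]

lemma mu_add_right (u v w : VV) : mu u (v + w) = mu u v * mu u w := by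
  unfold mu
  rw [Prod.fst_add, pr_add_right, chi_add]

lemma mu_sq (v w : VV) : mu v w * mu v w = 1 := chi_sq _

lemma mu_zero_left (w : VV) : mu 0 w = 1 := by
  unfold mu
  rw [Prod.snd_zero, pr_zero_left, chi_zero]

lemma mu_zero_right (v : VV) : mu v 0 = 1 := by
  unfold mu
  rw [Prod.fst_zero, pr_zero_right, chi_zero]

lemma conj_mu (v w : VV) : conj (mu v w) = mu v w := conj_chi _

lemma add_self_eq (v : VV) : v + v = 0 := by
  have h : ∀ a : ℕ →₀ ZMod 2, a + a = 0 := by
    intro a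
    ext n
    rw [Finsupp.add_apply]
    generalize a n = x
    fin_cases x <;> rfl
  exact Prod.ext (h v.1) (h v.2)

/-- Multiplication of a vector by signs. -/
noncomputable def mulSign (s : VV → ZMod 2) : ell2 VV →L[ℂ] ell2 VV :=
  LinearMap.mkContinuous
    { toFun := fun ξ => ⟨fun x => chi (s x) * ξ x, by
        have h := (lp.memℓp ξ).summable (by norm_num)
        apply memℓp_gen
        have h2 : (fun x => ‖chi (s x) * ξ x‖ ^ (2 : ENNReal).toReal) =
            fun x => ‖ξ x‖ ^ (2 : ENNReal).toReal := by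
          funext x
          rw [norm_mul, norm_chi, one_mul]
        rw [h2]
        exact h⟩
      map_add' := fun ξ η => by
        apply ext_fun
        intro x
        exact mul_add _ _ _
      map_smul' := fun c ξ => by
        apply ext_fun
        intro x
        exact mul_left_comm _ _ _ } 1
    (by
      intro ξ
      rw [one_mul]
      apply lp.norm_le_of_tsum_le (by norm_num) (norm_nonneg _)
      rw [lp.norm_rpow_eq_tsum (by norm_num)]
      apply le_of_eq
      congr 1
      funext x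
      show ‖chi (s x) * ξ x‖ ^ (2 : ENNReal).toReal = _
      rw [norm_mul, norm_chi, one_mul])

lemma mulSign_apply (s : VV → ZMod 2) (ξ : ell2 VV) (x : VV) :
    mulSign s ξ x = chi (s x) * ξ x := rfl

lemma mulSign_dl (s : VV → ZMod 2) (x : VV) : mulSign s (dl x) = chi (s x) • dl x := by
  apply ext_fun
  intro y
  show chi (s y) * dl x y = chi (s x) * dl x y
  by_cases h : y = x
  · rw [h]
  · rw [dl_ne h, mul_zero, mul_zero]

/-- The twisted left translations. -/
noncomputable def lamT (v : VV) : ell2 VV →L[ℂ] ell2 VV :=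
  permute (Equiv.addRight (-v)) * mulSign (fun w => pr v.2 w.1)

/-- The twisted right translations. -/
noncomputable def rhoT (v : VV) : ell2 VV →L[ℂ] ell2 VV :=
  permute (Equiv.addRight (-v)) * mulSign (fun w => pr w.2 v.1)

lemma lamT_dl (v w : VV) : lamT v (dl w) = mu v w • dl (w + v) := by
  show permute _ (mulSign _ (dl w)) = _
  rw [mulSign_dl, map_smul, permute_dl]
  simp [mu]

lemma rhoT_dl (v w : VV) : rhoT v (dl w) = mu w v • dl (w + v) := by
  show permute _ (mulSign _ (dl w)) = _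
  rw [mulSign_dl, map_smul, permute_dl]
  simp [mu]

lemma rhoT_zero_dl (v : VV) : rhoT v (dl 0) = dl v := by
  rw [rhoT_dl, mu_zero_left, one_smul, zero_add]

lemma lamT_zero_dl (v : VV) : lamT v (dl 0) = dl v := by
  rw [lamT_dl, mu_zero_right, one_smul, zero_add]

lemma lamT_rhoT (u v : VV) : lamT u * rhoT v = rhoT v * lamT u := by
  apply ext_dl
  intro w
  show lamT u (rhoT v (dl w)) = rhoT v (lamT u (dl w))
  rw [rhoT_dl, lamT_dl, map_smul, map_smul, lamT_dl, rhoT_dl, smul_smul, smul_smul, mu_add_right,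
    mu_add_left, add_right_comm]
  congr 1
  ring

lemma lamT_mul (u v : VV) : lamT u * lamT v = mu u v • lamT (u + v) := by
  apply ext_dl
  intro w
  show lamT u (lamT v (dl w)) = mu u v • lamT (u + v) (dl w)
  rw [lamT_dl, map_smul, lamT_dl, lamT_dl, smul_smul, smul_smul, mu_add_right, mu_add_left,
    add_assoc, add_comm v u]
  congr 1
  ring

lemma lamT_zero : lamT 0 = 1 := by
  apply ext_dl
  intro w
  show lamT 0 (dl w) = dl w
  rw [lamT_dl, mu_zero_left, one_smul, add_zero]

lemma neg_eq_self (v : VV) : -v = v := neg_eq_of_add_eq_zero_left (add_self_eq v)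

lemma lamT_apply (v : VV) (ξ : ell2 VV) (x : VV) : lamT v ξ x = mu v (x + v) * ξ (x + v) := by
  show chi (pr v.2 (x + -v).1) * ξ (x + -v) = _
  rw [neg_eq_self]
  rfl

lemma rhoT_apply (v : VV) (ξ : ell2 VV) (x : VV) : rhoT v ξ x = mu (x + v) v * ξ (x + v) := by
  show chi (pr (x + -v).2 v.1) * ξ (x + -v) = _
  rw [neg_eq_self]
  rfl

lemma star_lamT (v : VV) : star (lamT v) = mu v v • lamT v := by
  apply ext_dl
  intro w
  apply ext_inner_right ℂ
  intro ζ
  rw [inner_star, inner_dl_left, lamT_apply]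
  show _ = ⟪mu v v • lamT v (dl w), ζ⟫
  rw [lamT_dl, smul_smul, inner_smul_left, inner_dl_left, map_mul, conj_mu, conj_mu, mu_add_right]
  ring

lemma star_rhoT (v : VV) : star (rhoT v) = mu v v • rhoT v := by
  apply ext_dl
  intro w
  apply ext_inner_right ℂ
  intro ζ
  rw [inner_star, inner_dl_left, rhoT_apply]
  show _ = ⟪mu v v • rhoT v (dl w), ζ⟫
  rw [rhoT_dl, smul_smul, inner_smul_left, inner_dl_left, map_mul, conj_mu, conj_mu, mu_add_left]
  ring

/-- The twisted group von Neumann algebra. -/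
noncomputable def N : StarSubalgebra ℂ (ell2 VV →L[ℂ] ell2 VV) :=
  StarSubalgebra.centralizer ℂ (Set.range rhoT)

lemma mem_N {T : ell2 VV →L[ℂ] ell2 VV} : T ∈ N ↔ ∀ v, rhoT v * T = T * rhoT v := by
  unfold N
  rw [StarSubalgebra.mem_centralizer_iff]
  constructor
  · intro h v
    exact (h _ ⟨v, rfl⟩).1
  · rintro h _ ⟨v, rfl⟩
    refine ⟨h v, ?_⟩
    rw [star_rhoT, smul_mul_assoc, h v, mul_smul_comm]

lemma isClosed_N : IsClosed (N : Set (ell2 VV →L[ℂ] ell2 VV)) := by
  have h : (N : Set (ell2 VV →L[ℂ] ell2 VV)) = Set.centralizer (Set.range rhoT) := by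
    ext T
    rw [SetLike.mem_coe, mem_N]
    constructor
    · rintro h _ ⟨v, rfl⟩
      exact h v
    · intro h v
      exact h _ ⟨v, rfl⟩
  rw [h]
  exact Set.isClosed_centralizer _

/-- The model, as a C⋆-algebra. -/
noncomputable instance : CStarAlgebra N := StarSubalgebra.cstarAlgebra N (h_closed := isClosed_N)

lemma apply_dl_of_mem {T : ell2 VV →L[ℂ] ell2 VV} (hT : T ∈ N) (v : VV) :
    T (dl v) = rhoT v (T (dl 0)) := by
  have h := congrArg (fun S : ell2 VV →L[ℂ] ell2 VV => S (dl 0)) (mem_N.1 hT v)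
  have h' : rhoT v (T (dl 0)) = T (rhoT v (dl 0)) := h
  rw [h', rhoT_zero_dl]

lemma lamT_mem (v : VV) : lamT v ∈ N := mem_N.2 fun w => (lamT_rhoT v w).symm

/-- The trace. -/
noncomputable def trN : N →ₗ[ℂ] ℂ where
  toFun T := T.1 (dl 0) 0
  map_add' _ _ := rfl
  map_smul' _ _ := rfl

lemma trN_apply (T : N) : trN T = T.1 (dl 0) 0 := rfl

lemma trN_star_mul (T : N) : trN (star T * T) = ⟪T.1 (dl 0), T.1 (dl 0)⟫ := by
  rw [trN_apply]
  show (star T.1) (T.1 (dl 0)) 0 = _
  rw [← inner_dl_left 0, inner_star']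

lemma sqrt_trN (T : N) : Real.sqrt (trN (star T * T)).re = ‖T.1 (dl 0)‖ := by
  rw [trN_star_mul, inner_self_eq_norm_sq_to_K]
  have : ((‖T.1 (dl 0)‖ : ℂ) ^ 2).re = ‖T.1 (dl 0)‖ ^ 2 := by
    rw [← Complex.ofReal_pow, Complex.ofReal_re]
  erw [this]
  exact Real.sqrt_sq (norm_nonneg _)

lemma trN_mul (S T : N) : trN (S * T) = ∑' x, mu x x * (S.1 (dl 0) x * T.1 (dl 0) x) := by
  rw [trN_apply]
  show S.1 (T.1 (dl 0)) 0 = _
  rw [← inner_dl_left 0, ← inner_star, lp.inner_eq_tsum]
  congr 1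
  funext x
  have h1 : (star S.1) (dl 0) x = conj (mu x x * S.1 (dl 0) x) := by
    rw [← inner_dl_left x, inner_star', ← inner_conj_symm, inner_dl_left, apply_dl_of_mem S.2,
      rhoT_apply, zero_add]
  rw [RCLike.inner_apply, h1, Complex.conj_conj]
  ring

lemma cauchy_apply {u : ℕ → ell2 VV →L[ℂ] ell2 VV} (hu : ∀ n, ‖u n‖ ≤ 1)
    (hc : ∀ v, CauchySeq fun n => u n (dl v)) (ξ : ell2 VV) : CauchySeq fun n => u n ξ := by
  rw [Metric.cauchySeq_iff]
  intro ε hε
  obtain ⟨s, hs⟩ := (Metric.tendsto_nhds.1 (hasSum_dl ξ) (ε / 4) (by positivity)).exists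
  have h1 : CauchySeq fun n => u n (∑ v ∈ s, ξ v • dl v) := by
    have h2 : (fun n => u n (∑ v ∈ s, ξ v • dl v)) = fun n => ∑ v ∈ s, ξ v • u n (dl v) := by
      funext n
      rw [map_sum]
      simp only [map_smul]
    rw [h2]
    have h3 : ∀ t : Finset VV, CauchySeq fun n => ∑ v ∈ t, ξ v • u n (dl v) := by
      intro t
      classical
      induction t using Finset.induction_on with
      | empty =>
        simp only [Finset.sum_empty]
        exact cauchySeq_const 0
      | insert a t ha ih =>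
        simp only [Finset.sum_insert ha]
        have h4 : CauchySeq fun n => ξ a • u n (dl a) :=
          (uniformContinuous_const_smul (ξ a)).comp_cauchySeq (hc a)
        exact h4.add ih
    exact h3 s
  rw [Metric.cauchySeq_iff] at h1
  obtain ⟨N, hN⟩ := h1 (ε / 2) (by positivity)
  refine ⟨N, fun m hm n hn => ?_⟩
  have h4 := hN m hm n hn
  set η := ∑ v ∈ s, ξ v • dl v
  have h5 : ∀ k, dist (u k ξ) (u k η) < ε / 4 := by
    intro k
    rw [dist_eq_norm, ← map_sub]
    refine lt_of_le_of_lt ((u k).le_of_opNorm_le (hu k) _) ?_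
    rw [one_mul, ← dist_eq_norm, dist_comm]
    exact hs
  calc dist (u m ξ) (u n ξ) ≤ dist (u m ξ) (u m η) + dist (u m η) (u n η) +
        dist (u n η) (u n ξ) := dist_triangle4 _ _ _ _
    _ < ε / 4 + ε / 2 + ε / 4 := by
        have := h5 m
        have h6 := h5 n
        rw [dist_comm] at h6
        linarith
    _ = ε := by ring

lemma exists_limit (u : ℕ → N) (hu : ∀ n, ‖u n‖ ≤ 1)
    (hc : CauchySeq fun n => (u n).1 (dl 0)) :
    ∃ x : N, ‖x‖ ≤ 1 ∧ Tendsto (fun n => (u n).1 (dl 0)) atTop (𝓝 (x.1 (dl 0))) := by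
  have h1 : ∀ v, CauchySeq fun n => (u n).1 (dl v) := by
    intro v
    have h2 : (fun n => (u n).1 (dl v)) = fun n => rhoT v ((u n).1 (dl 0)) := by
      funext n
      exact apply_dl_of_mem (u n).2 v
    rw [h2]
    exact hc.map (rhoT v).uniformContinuous
  have h3 : ∀ ξ, ∃ η, Tendsto (fun n => (u n).1 ξ) atTop (𝓝 η) := fun ξ =>
    cauchySeq_tendsto_of_complete (cauchy_apply (u := fun n => (u n).1) hu h1 ξ)
  choose f hf using h3
  let T : ell2 VV →L[ℂ] ell2 VV := ContinuousLinearMap.ofTendstoOfBoundedRange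
    (l := atTop) f (fun n => (u n).1) (tendsto_pi_nhds.2 hf) (by
      rw [isBounded_iff_forall_norm_le]
      refine ⟨1, ?_⟩
      rintro _ ⟨n, rfl⟩
      exact hu n)
  have hT : ∀ ξ, T ξ = f ξ := fun ξ => rfl
  have hmem : T ∈ N := by
    rw [mem_N]
    intro v
    ext1 ξ
    show rhoT v (T ξ) = T (rhoT v ξ)
    rw [hT, hT]
    have h4 := (((rhoT v).continuous.tendsto (f ξ)).comp (hf ξ))
    refine tendsto_nhds_unique h4 ?_
    have h5 : ((rhoT v) ∘ fun n => (u n).1 ξ) = fun n => (u n).1 (rhoT v ξ) := by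
      funext n
      have := congrArg (fun S : ell2 VV →L[ℂ] ell2 VV => S ξ) (mem_N.1 (u n).2 v)
      exact this
    rw [h5]
    exact hf _
  refine ⟨⟨T, hmem⟩, ?_, hf _⟩
  show ‖T‖ ≤ 1
  refine ContinuousLinearMap.opNorm_le_bound _ zero_le_one fun ξ => ?_
  refine le_of_tendsto (hf ξ).norm (Eventually.of_forall fun n => ?_)
  exact (u n).1.le_of_opNorm_le (hu n) ξ

open scoped ComplexOrder in
/-- The trace on the model. -/
noncomputable def tau : TracialVN N where
  tr := trN
  tr_one := by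
    rw [trN_apply]
    exact dl_self 0
  tr_nonneg := fun T => by
    rw [trN_star_mul, inner_self_eq_norm_sq_to_K]
    have : ((‖T.1 (dl 0)‖ : ℂ) ^ 2) = ((‖T.1 (dl 0)‖ ^ 2 : ℝ) : ℂ) := by
      rw [← Complex.ofReal_pow]
    erw [this]
    rw [Complex.zero_le_real]
    positivity
  faithful := fun T hT => by
    rw [trN_star_mul, inner_self_eq_zero] at hT
    apply Subtype.ext
    apply ext_dl
    intro v
    rw [apply_dl_of_mem T.2, hT, map_zero]
    rfl
  tr_comm := fun S T => by
    rw [trN_mul, trN_mul]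
    congr 1
    funext x
    ring
  complete := fun u hu hc => by
    simp only [sqrt_trN] at hc ⊢
    have h1 : CauchySeq fun n => (u n).1 (dl 0) := by
      rw [Metric.cauchySeq_iff]
      intro ε hε
      obtain ⟨N, hN⟩ := hc ε hε
      refine ⟨N, fun m hm n hn => ?_⟩
      rw [dist_eq_norm]
      exact hN m hm n hn
    obtain ⟨x, hx, hlim⟩ := exists_limit u hu h1
    refine ⟨x, hx, fun ε hε => ?_⟩
    obtain ⟨N, hN⟩ := Metric.tendsto_atTop.1 hlim ε hε
    refine ⟨N, fun n hn => ?_⟩
    have := hN n hn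
    rw [dist_eq_norm] at this
    exact this

lemma norm2_tau (T : N) : tau.norm2 T = ‖T.1 (dl 0)‖ := sqrt_trN T

/-- Matrix units from anticommuting reflections. -/
noncomputable def mk2 {A : Type*} [Ring A] [Algebra ℂ A] (X Z : A) : Fin 2 → Fin 2 → A :=
  fun a b => if a = 0 then (if b = 0 then (1 / 2 : ℂ) • (1 + Z) else (1 / 2 : ℂ) • (1 + Z) * X)
    else (if b = 0 then (1 / 2 : ℂ) • (1 - Z) * X else (1 / 2 : ℂ) • (1 - Z))

section mk2

variable {A : Type*} [Ring A] [StarRing A] [Algebra ℂ A] [StarModule ℂ A] {X Z : A}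

lemma isMatUnits_mk2 (hX : X * X = 1) (hZ : Z * Z = 1) (hXZ : Z * X = -(X * Z))
    (hsX : star X = X) (hsZ : star Z = Z) : IsMatUnits (mk2 X Z) := by
  set p : A := (1 / 2 : ℂ) • (1 + Z) with hp
  set q : A := (1 / 2 : ℂ) • (1 - Z) with hq
  have e00 : mk2 X Z 0 0 = p := by simp [mk2, hp]
  have e01 : mk2 X Z 0 1 = p * X := by simp [mk2, hp]
  have e10 : mk2 X Z 1 0 = q * X := by simp [mk2, hq]
  have e11 : mk2 X Z 1 1 = q := by simp [mk2, hq]
  have half : ∀ y : A, (1 / 2 * (1 / 2) : ℂ) • (y + y) = (1 / 2 : ℂ) • y := by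
    intro y
    rw [← two_smul ℂ y, smul_smul]
    norm_num
  have hpp : p * p = p := by
    rw [hp, smul_mul_smul_comm]
    have : (1 + Z) * (1 + Z) = (1 + Z) + (1 + Z) := by
      have e : (1 + Z) * (1 + Z) = 1 + Z + Z + Z * Z := by noncomm_ring
      rw [e, hZ]
      abel
    rw [this, half]
  have hqq : q * q = q := by
    rw [hq, smul_mul_smul_comm]
    have : (1 - Z) * (1 - Z) = (1 - Z) + (1 - Z) := by
      have e : (1 - Z) * (1 - Z) = 1 - Z - Z + Z * Z := by noncomm_ring
      rw [e, hZ]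
      abel
    rw [this, half]
  have hpq : p * q = 0 := by
    rw [hp, hq, smul_mul_smul_comm]
    have : (1 + Z) * (1 - Z) = 0 := by
      have e : (1 + Z) * (1 - Z) = 1 - Z * Z := by noncomm_ring
      rw [e, hZ, sub_self]
    rw [this, smul_zero]
  have hqp : q * p = 0 := by
    rw [hp, hq, smul_mul_smul_comm]
    have : (1 - Z) * (1 + Z) = 0 := by
      have e : (1 - Z) * (1 + Z) = 1 - Z * Z := by noncomm_ring
      rw [e, hZ, sub_self]
    rw [this, smul_zero]
  have hXp : X * p = q * X := by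
    rw [hp, hq, mul_smul_comm, smul_mul_assoc, mul_add, sub_mul, hXZ]
    congr 1
    noncomm_ring
  have hXq : X * q = p * X := by
    rw [hp, hq, mul_smul_comm, smul_mul_assoc, mul_sub, add_mul, hXZ]
    congr 1
    noncomm_ring
  have hsp : star p = p := by
    rw [hp, star_smul, star_add, star_one, hsZ]
    congr 1
    simp
  have hsq : star q = q := by
    rw [hq, star_smul, star_sub, star_one, hsZ]
    congr 1
    simp
  have hpp' : ∀ y, p * (p * y) = p * y := fun y => by rw [← mul_assoc, hpp]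
  have hqq' : ∀ y, q * (q * y) = q * y := fun y => by rw [← mul_assoc, hqq]
  have hpq' : ∀ y, p * (q * y) = 0 := fun y => by rw [← mul_assoc, hpq, zero_mul]
  have hqp' : ∀ y, q * (p * y) = 0 := fun y => by rw [← mul_assoc, hqp, zero_mul]
  have hXp' : ∀ y, X * (p * y) = q * (X * y) := fun y => by rw [← mul_assoc, hXp, mul_assoc]
  have hXq' : ∀ y, X * (q * y) = p * (X * y) := fun y => by rw [← mul_assoc, hXq, mul_assoc]
  refine ⟨?_, ?_, ?_, ?_⟩
  · simp only [Fin.forall_fin_two, e00, e01, e10, e11, mul_assoc, hpp, hqq, hXp, hXq,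
      hpp', hqq', hXp', hXq', hX, mul_one, and_self]
  · simp only [Fin.forall_fin_two, e00, e01, e10, e11, mul_assoc, hpp, hqq, hpq, hqp, hXp, hXq,
      hpp', hqq', hpq', hqp', hXp', hXq', hX, mul_one]
    simp
  · simp only [Fin.forall_fin_two, e00, e01, e10, e11, star_mul, hsp, hsq, hsX, hXp, hXq,
      and_self]
  · rw [e00, e11, hp, hq, ← smul_add]
    have : (1 + Z) + (1 - Z) = (2 : ℂ) • (1 : A) := by
      rw [two_smul]
      abel
    rw [this, smul_smul]
    norm_num

omit [StarRing A] [StarModule ℂ A] in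
lemma commute_mk2 {X' Z' : A} (h1 : Commute X X') (h2 : Commute X Z') (h3 : Commute Z X')
    (h4 : Commute Z Z') (a b c d : Fin 2) : Commute (mk2 X Z a b) (mk2 X' Z' c d) := by
  have key : ∀ {Y : A}, Commute Y X' → Commute Y Z' → Commute Y (mk2 X' Z' c d) := by
    intro Y hY1 hY2
    have hp : Commute Y ((1 / 2 : ℂ) • (1 + Z')) := ((Commute.one_right Y).add_right hY2).smul_right _
    have hq : Commute Y ((1 / 2 : ℂ) • (1 - Z')) := ((Commute.one_right Y).sub_right hY2).smul_right _
    unfold mk2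
    split_ifs
    · exact hp
    · exact hp.mul_right hY1
    · exact hq.mul_right hY1
    · exact hq
  have hX := key h1 h2
  have hZ := key h3 h4
  have hp : Commute ((1 / 2 : ℂ) • (1 + Z)) (mk2 X' Z' c d) :=
    ((Commute.one_left _).add_left hZ).smul_left _
  have hq : Commute ((1 / 2 : ℂ) • (1 - Z)) (mk2 X' Z' c d) :=
    ((Commute.one_left _).sub_left hZ).smul_left _
  generalize mk2 X' Z' c d = W at *
  unfold mk2
  split_ifs
  · exact hp
  · exact hp.mul_left hX
  · exact hq.mul_left hX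
  · exact hq

omit [StarRing A] [StarModule ℂ A] in
lemma eq_sub_mk2 : Z = mk2 X Z 0 0 - mk2 X Z 1 1 := by
  simp only [mk2, if_true, if_false, one_ne_zero]
  rw [← smul_sub]
  have : (1 + Z) - (1 - Z) = (2 : ℂ) • Z := by
    rw [two_smul]
    abel
  rw [this, smul_smul]
  norm_num

omit [StarRing A] [StarModule ℂ A] in
lemma eq_add_mk2 : X = mk2 X Z 0 1 + mk2 X Z 1 0 := by
  simp only [mk2, if_true, if_false, one_ne_zero]
  rw [← add_mul, ← smul_add]
  have : (1 + Z) + (1 - Z) = (2 : ℂ) • (1 : A) := by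
    rw [two_smul]
    abel
  rw [this, smul_smul]
  norm_num

end mk2

/-- The unitaries of the model. -/
noncomputable def uN (v : VV) : N := ⟨lamT v, lamT_mem v⟩

lemma uN_mul (u v : VV) : uN u * uN v = mu u v • uN (u + v) := Subtype.ext (lamT_mul u v)

lemma uN_zero : uN 0 = 1 := Subtype.ext lamT_zero

lemma star_uN (v : VV) : star (uN v) = mu v v • uN v := Subtype.ext (star_lamT v)

lemma commute_uN {u v : VV} (h : mu u v = mu v u) : Commute (uN u) (uN v) := by
  show uN u * uN v = uN v * uN u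
  rw [uN_mul, uN_mul, h, add_comm]

/-- The vectors of the generators. -/
noncomputable def vX (n : ℕ) : VV := (Finsupp.single n 1, 0)

/-- The vectors of the generators. -/
noncomputable def vZ (n : ℕ) : VV := (0, Finsupp.single n 1)

lemma mu_XX (m n : ℕ) : mu (vX m) (vX n) = 1 := by
  show chi (pr 0 _) = 1
  rw [pr_zero_left, chi_zero]

lemma mu_ZZ (m n : ℕ) : mu (vZ m) (vZ n) = 1 := by
  show chi (pr _ 0) = 1
  rw [pr_zero_right, chi_zero]

lemma mu_XZ (m n : ℕ) : mu (vX m) (vZ n) = 1 := by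
  show chi (pr 0 _) = 1
  rw [pr_zero_left, chi_zero]

lemma mu_ZX (m n : ℕ) : mu (vZ m) (vX n) = if m = n then -1 else 1 := by
  show chi (pr (Finsupp.single m 1) (Finsupp.single n 1)) = _
  rw [pr_single]
  split_ifs
  · exact chi_one
  · exact chi_zero

/-- The matrix units of the model. -/
noncomputable def eN (n : ℕ) : Fin 2 → Fin 2 → N := mk2 (uN (vX n)) (uN (vZ n))

lemma isMatUnits_eN (n : ℕ) : IsMatUnits (eN n) := by
  apply isMatUnits_mk2
  · rw [uN_mul, add_self_eq, mu_XX, one_smul, uN_zero]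
  · rw [uN_mul, add_self_eq, mu_ZZ, one_smul, uN_zero]
  · rw [uN_mul, uN_mul, mu_XZ, mu_ZX, if_pos rfl, one_smul, neg_one_smul, add_comm]
  · rw [star_uN, mu_XX, one_smul]
  · rw [star_uN, mu_ZZ, one_smul]

lemma commute_eN {m n : ℕ} (h : m ≠ n) (a b c d : Fin 2) : Commute (eN m a b) (eN n c d) := by
  apply commute_mk2
  · exact commute_uN (by rw [mu_XX, mu_XX])
  · exact commute_uN (by rw [mu_XZ, mu_ZX, if_neg (Ne.symm h)])
  · exact commute_uN (by rw [mu_XZ, mu_ZX, if_neg h])
  · exact commute_uN (by rw [mu_ZZ, mu_ZZ])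

/-- The algebra generated by the matrix units. -/
noncomputable def algN : Subalgebra ℂ N := Algebra.adjoin ℂ {z | ∃ n a b, z = eN n a b}

lemma eN_mem (n : ℕ) (a b : Fin 2) : eN n a b ∈ algN := Algebra.subset_adjoin ⟨n, a, b, rfl⟩

lemma uX_mem (n : ℕ) : uN (vX n) ∈ algN := by
  rw [eq_add_mk2 (X := uN (vX n)) (Z := uN (vZ n))]
  exact add_mem (eN_mem n 0 1) (eN_mem n 1 0)

lemma uZ_mem (n : ℕ) : uN (vZ n) ∈ algN := by
  rw [eq_sub_mk2 (X := uN (vX n)) (Z := uN (vZ n))]
  exact sub_mem (eN_mem n 0 0) (eN_mem n 1 1)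

lemma uN_mem (v : VV) : uN v ∈ algN := by
  have h1 : ∀ a : ℕ →₀ ZMod 2, uN (a, 0) ∈ algN := by
    intro a
    induction a using Finsupp.induction_linear with
    | zero =>
      have : uN (0, 0) = 1 := uN_zero
      rw [this]
      exact one_mem _
    | add f g hf hg =>
      have h : uN (f, 0) * uN (g, 0) = uN (f + g, 0) := by
        rw [uN_mul]
        have h2 : mu (f, 0) (g, 0) = 1 := by
          show chi (pr 0 _) = 1
          rw [pr_zero_left, chi_zero]
        rw [h2, one_smul, Prod.mk_add_mk, add_zero]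
      rw [← h]
      exact mul_mem hf hg
    | single n x =>
      fin_cases x
      · have : uN (Finsupp.single n 0, 0) = 1 := by
          rw [Finsupp.single_zero]
          exact uN_zero
        show uN (Finsupp.single n 0, 0) ∈ algN
        rw [this]
        exact one_mem _
      · exact uX_mem n
  have h2 : ∀ a : ℕ →₀ ZMod 2, uN (0, a) ∈ algN := by
    intro a
    induction a using Finsupp.induction_linear with
    | zero =>
      have : uN (0, 0) = 1 := uN_zero
      rw [this]
      exact one_mem _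
    | add f g hf hg =>
      have h : uN (0, f) * uN (0, g) = uN (0, f + g) := by
        rw [uN_mul]
        have h2 : mu (0, f) (0, g) = 1 := by
          show chi (pr _ 0) = 1
          rw [pr_zero_right, chi_zero]
        rw [h2, one_smul, Prod.mk_add_mk, add_zero]
      rw [← h]
      exact mul_mem hf hg
    | single n x =>
      fin_cases x
      · have : uN (0, Finsupp.single n 0) = 1 := by
          rw [Finsupp.single_zero]
          exact uN_zero
        show uN (0, Finsupp.single n 0) ∈ algN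
        rw [this]
        exact one_mem _
      · exact uZ_mem n
  have h3 : uN (v.1, 0) * uN (0, v.2) = uN v := by
    rw [uN_mul]
    have h4 : mu (v.1, 0) (0, v.2) = 1 := by
      show chi (pr 0 _) = 1
      rw [pr_zero_left, chi_zero]
    rw [h4, one_smul, Prod.mk_add_mk, add_zero, zero_add]
  rw [← h3]
  exact mul_mem (h1 _) (h2 _)

theorem isHyperfinite_tau : tau.IsHyperfinite := by
  refine ⟨eN, isMatUnits_eN, fun m n h a b c d => commute_eN h a b c d, fun x ε hε => ?_⟩
  obtain ⟨s, hs⟩ := (Metric.tendsto_nhds.1 (hasSum_dl (x.1 (dl 0))) ε hε).exists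
  refine ⟨∑ v ∈ s, x.1 (dl 0) v • uN v, sum_mem fun v _ => algN.smul_mem (uN_mem v) _, ?_⟩
  rw [norm2_tau]
  have h1 : (x - ∑ v ∈ s, x.1 (dl 0) v • uN v : N).1 (dl 0) =
      x.1 (dl 0) - ∑ v ∈ s, x.1 (dl 0) v • dl v := by
    have h2 : (∑ v ∈ s, x.1 (dl 0) v • uN v : N).1 = ∑ v ∈ s, x.1 (dl 0) v • lamT v := by
      rw [AddSubmonoidClass.coe_finsetSum]
      rfl
    show x.1 (dl 0) - (∑ v ∈ s, x.1 (dl 0) v • uN v : N).1 (dl 0) = _
    rw [h2, sum_apply]
    congr 1
    apply Finset.sum_congr rfl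
    intro v _
    show x.1 (dl 0) v • lamT v (dl 0) = _
    rw [lamT_zero_dl]
  rw [h1, ← dist_eq_norm, dist_comm]
  exact hs

end Model

/-- There is a hyperfinite II₁ factor. -/
theorem exists_isHyperfinite :
    ∃ (R : Type) (_ : CStarAlgebra R) (τ : TracialVN R), τ.IsHyperfinite :=
  ⟨Model.N, inferInstance, Model.tau, Model.isHyperfinite_tau⟩

end Pool.Agent.MPa0a75b
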